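import Pool.Agent.P8H5.GV.Stm
import Pool.Agent.H343R2.Pnt

/-!
# Project GV: duality for one modulus
-/

set_option autoImplicit false

open Finset

namespace Pool.Agent.P8H5.GV

/-- sums over residue classes -/
noncomputable def cls (f : ℕ → ℝ) (k N A : ℕ) : ℝ :=
  ∑ m ∈ (Icc 1 N).filter (fun m : ℕ => m ≡ A [MOD k]), f m

/-- the variance `G(X,k)` -/
noncomputable def GV (X : ℝ) (k : ℕ) : ℝ :=
  ∑ A ∈ (range k).filter (fun A => A.Coprime k),
    ((∑ n ∈ (Icc 1 ⌊X⌋₊).filter (fun n => n ≡ A [MOD k]), ArithmeticFunction.vonMangoldt n)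
      - X / Nat.totient k) ^ 2

lemma cls_congr (f : ℕ → ℝ) (k N A n : ℕ) (h : n ≡ A [MOD k]) : cls f k N n = cls f k N A := by
  unfold cls
  congr 1
  ext m
  simp only [mem_filter, and_congr_right_iff]
  intro _
  exact ⟨fun h1 => h1.trans h, fun h1 => h1.trans h.symm⟩

lemma sum_cls (u G : ℕ → ℝ) (k N : ℕ) (hk : 1 ≤ k)
    (hG : ∀ n A : ℕ, n ≡ A [MOD k] → G n = G A) :
    ∑ A ∈ range k, cls u k N A * G A = ∑ n ∈ Icc 1 N, u n * G n := by
  have h1 : ∀ n ∈ Icc 1 N, n % k ∈ range k := fun n _ => mem_range.2 (Nat.mod_lt _ (by omega))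
  rw [← sum_fiberwise_of_maps_to h1]
  apply sum_congr rfl
  intro A hA
  have hA' := mem_range.1 hA
  unfold cls
  rw [sum_mul]
  have h2 : (Icc 1 N).filter (fun m : ℕ => m ≡ A [MOD k]) = (Icc 1 N).filter (fun m : ℕ => m % k = A) := by
    ext m
    simp only [mem_filter, and_congr_right_iff]
    intro _
    unfold Nat.ModEq
    rw [Nat.mod_eq_of_lt hA']
  rw [h2]
  apply sum_congr rfl
  intro n hn
  have hn2 := (mem_filter.1 hn).2
  rw [hG n A (by unfold Nat.ModEq; rw [Nat.mod_eq_of_lt hA']; exact hn2)]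

lemma cls_self (f : ℕ → ℝ) (k N n : ℕ) (hn : n ∈ Icc 1 N) :
    cls f k N n = f n + ∑ m ∈ (Icc 1 N).filter (fun m : ℕ => m ≠ n ∧ m ≡ n [MOD k]), f m := by
  unfold cls
  have h : (Icc 1 N).filter (fun m : ℕ => m ≡ n [MOD k]) =
      insert n ((Icc 1 N).filter (fun m : ℕ => m ≠ n ∧ m ≡ n [MOD k])) := by
    ext m
    simp only [mem_filter, mem_insert]
    constructor
    · rintro ⟨h1, h2⟩
      by_cases h3 : m = n
      · exact Or.inl h3
      · exact Or.inr ⟨h1, h3, h2⟩
    · rintro (rfl | ⟨h1, _, h2⟩)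
      · exact ⟨hn, Nat.ModEq.refl _⟩
      · exact ⟨h1, h2⟩
  rw [h, sum_insert (by simp)]

lemma class_prod (u f : ℕ → ℝ) (k N : ℕ) (hk : 1 ≤ k) :
    ∑ A ∈ range k, cls u k N A * cls f k N A = ∑ n ∈ Icc 1 N, u n * f n + off u f k N := by
  rw [sum_cls u (fun A => cls f k N A) k N hk (fun n A h => cls_congr f k N A n h)]
  unfold off
  rw [← sum_add_distrib]
  apply sum_congr rfl
  intro n hn
  rw [cls_self f k N n hn, mul_add, mul_sum]

lemma card_class_le (k N A : ℕ) (hk : 1 ≤ k) :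
    (((Icc 1 N).filter (fun m : ℕ => m ≡ A [MOD k])).card : ℝ) ≤ (N : ℝ) / k + 1 := by
  have h1 : (Icc 1 N).filter (fun m : ℕ => m ≡ A [MOD k]) = (Ioc 0 N).filter (fun m : ℕ => m ≡ A [MOD k]) := by
    congr 1
  have h2 := Nat.Ioc_filter_modEq_card (a := 0) (b := N) (r := k) (by omega) A
  rw [h1]
  have hk0 : (0 : ℚ) < k := by exact_mod_cast (show 0 < k by omega)
  have h3 : ((((Ioc 0 N).filter (fun m : ℕ => m ≡ A [MOD k])).card : ℤ) : ℚ) ≤ (N : ℚ) / k + 1 := by
    rw [h2]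
    push_cast
    apply max_le
    · have h5 : (⌊((N : ℚ) - A) / k⌋ : ℚ) ≤ ((N : ℚ) - A) / k := Int.floor_le _
      have h6 : ((0 : ℚ) - A) / k < ⌊((0 : ℚ) - A) / k⌋ + 1 := Int.lt_floor_add_one _
      have h7 : ((N : ℚ) - A) / k - ((0 : ℚ) - A) / k = (N : ℚ) / k := by
        field_simp
        ring
      linarith
    · positivity
  have h4 : ((((Ioc 0 N).filter (fun m : ℕ => m ≡ A [MOD k])).card : ℚ)) ≤ (N : ℚ) / k + 1 := by
    exact_mod_cast h3
  have h5 : ((((Ioc 0 N).filter (fun m : ℕ => m ≡ A [MOD k])).card : ℚ) : ℝ) ≤ (((N : ℚ) / k + 1 : ℚ) : ℝ) :=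
    Rat.cast_le.2 h4
  push_cast at h5
  exact h5

lemma cls_le (f : ℕ → ℝ) (k N A : ℕ) (hk : 1 ≤ k) (B : ℝ) (hB : ∀ m ∈ Icc 1 N, |f m| ≤ B) (hB0 : 0 ≤ B) :
    |cls f k N A| ≤ ((N : ℝ) / k + 1) * B := by
  unfold cls
  calc |∑ m ∈ (Icc 1 N).filter (fun m : ℕ => m ≡ A [MOD k]), f m|
      ≤ ∑ m ∈ (Icc 1 N).filter (fun m : ℕ => m ≡ A [MOD k]), |f m| := abs_sum_le_sum_abs _ _
    _ ≤ ∑ m ∈ (Icc 1 N).filter (fun m : ℕ => m ≡ A [MOD k]), B :=
        sum_le_sum fun m hm => hB m (mem_filter.1 hm).1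
    _ = (((Icc 1 N).filter (fun m : ℕ => m ≡ A [MOD k])).card : ℝ) * B := by
        rw [sum_const, nsmul_eq_mul]
    _ ≤ _ := mul_le_mul_of_nonneg_right (card_class_le k N A hk) hB0

lemma e_add (x y : ℝ) : e (x + y) = e x * e y := by
  unfold e
  rw [← Complex.exp_add]
  congr 1
  push_cast
  ring

lemma e_int (n : ℤ) : e n = 1 := by
  unfold e
  rw [Complex.exp_eq_one_iff]
  exact ⟨n, by push_cast; ring⟩

lemma norm_e (x : ℝ) : ‖e x‖ = 1 := by
  unfold e
  have : (2 * Real.pi * Complex.I * x : ℂ) = ((2 * Real.pi * x : ℝ) : ℂ) * Complex.I := by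
    push_cast
    ring
  rw [this]
  exact Complex.norm_exp_ofReal_mul_I _

/-- orthogonality -/
lemma sum_e (d n : ℕ) (hd : 1 ≤ d) :
    ∑ b ∈ range d, e (n * (b / d)) = if d ∣ n then (d : ℂ) else 0 := by
  have hd0 : (d : ℝ) ≠ 0 := by exact_mod_cast (show d ≠ 0 by omega)
  have h1 : ∀ b : ℕ, e (n * ((b : ℝ) / d)) = (e ((n : ℝ) / d)) ^ b := by
    intro b
    unfold e
    rw [← Complex.exp_nat_mul]
    congr 1
    push_cast
    ring
  rw [sum_congr rfl fun b _ => h1 b]
  split_ifs with h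
  · obtain ⟨t, rfl⟩ := h
    have : e (((d * t : ℕ) : ℝ) / d) = 1 := by
      have h2 : ((d * t : ℕ) : ℝ) / d = ((t : ℤ) : ℝ) := by
        push_cast
        field_simp
      rw [h2]
      exact e_int _
    rw [this]
    simp
  · have hne : e ((n : ℝ) / d) ≠ 1 := by
      intro h3
      unfold e at h3
      rw [Complex.exp_eq_one_iff] at h3
      obtain ⟨t, ht⟩ := h3
      have h4 : (n : ℂ) / d = t := by
        have hpi : (2 * Real.pi * Complex.I : ℂ) ≠ 0 := by
          simp [Real.pi_ne_zero]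
        have h5 : (2 * Real.pi * Complex.I : ℂ) * ((n : ℂ) / d) = (2 * Real.pi * Complex.I : ℂ) * t := by
          have := ht
          push_cast at this
          linear_combination this
        exact mul_left_cancel₀ hpi h5
      have h6 : (n : ℂ) = t * d := by
        have hdc : (d : ℂ) ≠ 0 := by exact_mod_cast (show d ≠ 0 by omega)
        field_simp at h4
        rw [h4]
        ring
      have h7 : (n : ℤ) = t * d := by exact_mod_cast h6
      apply h
      have : (d : ℤ) ∣ (n : ℤ) := ⟨t, by rw [h7]; ring⟩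
      exact_mod_cast this
    rw [geom_sum_eq hne]
    have h8 : e ((n : ℝ) / d) ^ d = 1 := by
      rw [← h1 d]
      have : (n : ℝ) * ((d : ℝ) / d) = ((n : ℤ) : ℝ) := by
        rw [div_self hd0]
        simp
      rw [this]
      exact e_int _
    rw [h8]
    simp

lemma dvd_sum_le (f : ℕ → ℝ) (N d : ℕ) (hd : 1 ≤ d) (M0 : ℝ)
    (hM : ∀ α : ℝ, ‖∑ m ∈ Icc 1 N, (f m : ℂ) * e (m * α)‖ ≤ M0) :
    |∑ m ∈ (Icc 1 N).filter (fun m : ℕ => d ∣ m), f m| ≤ M0 := by
  have hdc : (d : ℂ) ≠ 0 := by exact_mod_cast (show d ≠ 0 by omega)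
  have hd0 : (0 : ℝ) < d := by exact_mod_cast (show 0 < d by omega)
  have h1 : ((∑ m ∈ (Icc 1 N).filter (fun m : ℕ => d ∣ m), f m : ℝ) : ℂ) * d =
      ∑ b ∈ range d, ∑ m ∈ Icc 1 N, (f m : ℂ) * e (m * (b / d)) := by
    rw [sum_comm]
    push_cast
    rw [sum_mul, sum_filter]
    apply sum_congr rfl
    intro m _
    rw [← mul_sum, sum_e d m hd]
    split_ifs <;> simp
  have h2 : ‖((∑ m ∈ (Icc 1 N).filter (fun m : ℕ => d ∣ m), f m : ℝ) : ℂ) * d‖ ≤ d * M0 := by
    rw [h1]
    refine (norm_sum_le _ _).trans ((sum_le_sum fun b _ => hM _).trans ?_)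
    simp
  rw [norm_mul, Complex.norm_real, Complex.norm_natCast, Real.norm_eq_abs] at h2
  nlinarith

lemma coprime_sum_le (f : ℕ → ℝ) (N k : ℕ) (hk : 1 ≤ k) (M0 : ℝ)
    (hM : ∀ α : ℝ, ‖∑ m ∈ Icc 1 N, (f m : ℂ) * e (m * α)‖ ≤ M0) :
    |∑ m ∈ (Icc 1 N).filter (fun m : ℕ => m.Coprime k), f m| ≤ k.divisors.card * M0 := by
  have h0 : ∀ m : ℕ, (if m.Coprime k then (1 : ℝ) else 0) =
      ∑ d ∈ k.divisors, if d ∣ m then mu d else 0 := by
    intro m
    have hg : m.gcd k ≠ 0 := (Nat.gcd_pos_of_pos_right m (by omega)).ne'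
    have h1 : ∑ d ∈ (m.gcd k).divisors, ArithmeticFunction.moebius d =
        if m.gcd k = 1 then 1 else 0 := by
      have := congrArg (fun F => F (m.gcd k)) ArithmeticFunction.coe_zeta_mul_moebius
      simp only [ArithmeticFunction.coe_zeta_mul_apply, ArithmeticFunction.one_apply] at this
      exact this
    have h2 : (k.divisors).filter (fun d => d ∣ m) = (m.gcd k).divisors := by
      ext d
      simp only [mem_filter, Nat.mem_divisors, Nat.dvd_gcd_iff]
      constructor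
      · rintro ⟨⟨h3, h4⟩, h5⟩
        exact ⟨⟨h5, h3⟩, hg⟩
      · rintro ⟨⟨h3, h4⟩, _⟩
        exact ⟨⟨h4, by omega⟩, h3⟩
    rw [← sum_filter, h2]
    unfold mu
    rw [← Int.cast_sum, h1]
    unfold Nat.Coprime
    split_ifs <;> simp
  have h1 : ∑ m ∈ (Icc 1 N).filter (fun m : ℕ => m.Coprime k), f m =
      ∑ d ∈ k.divisors, mu d * ∑ m ∈ (Icc 1 N).filter (fun m : ℕ => d ∣ m), f m := by
    rw [sum_filter]
    have : ∀ m ∈ Icc 1 N, (if m.Coprime k then f m else 0) =
        ∑ d ∈ k.divisors, (if d ∣ m then mu d * f m else 0) := by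
      intro m _
      have h2 : (if m.Coprime k then f m else 0) = (if m.Coprime k then (1 : ℝ) else 0) * f m := by
        split_ifs <;> simp
      rw [h2, h0 m, sum_mul]
      apply sum_congr rfl
      intro d _
      split_ifs <;> simp
    rw [sum_congr rfl this, sum_comm]
    apply sum_congr rfl
    intro d _
    rw [← sum_filter, mul_sum]
  rw [h1]
  refine (abs_sum_le_sum_abs _ _).trans ?_
  have h2 : ∀ d ∈ k.divisors, |mu d * ∑ m ∈ (Icc 1 N).filter (fun m : ℕ => d ∣ m), f m| ≤ M0 := by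
    intro d hd
    rw [abs_mul]
    have h3 : |mu d| ≤ 1 := by
      unfold mu
      exact_mod_cast ArithmeticFunction.abs_moebius_le_one
    have h4 := dvd_sum_le f N d (Nat.pos_of_mem_divisors hd) M0 hM
    calc |mu d| * _ ≤ 1 * M0 := mul_le_mul h3 h4 (abs_nonneg _) zero_le_one
      _ = M0 := one_mul _
  refine (sum_le_sum h2).trans ?_
  rw [sum_const, nsmul_eq_mul]

/-- **duality for one modulus** -/
theorem ab_single (X : ℝ) (hX : 1 ≤ X) (k : ℕ) (hk : 1 ≤ k) (f : ℕ → ℝ) (B M0 E : ℝ)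
    (hB : ∀ m ∈ Icc 1 ⌊X⌋₊, |f m| ≤ B) (hB0 : 0 ≤ B)
    (hM : ∀ α : ℝ, ‖∑ m ∈ Icc 1 ⌊X⌋₊, (f m : ℂ) * e (m * α)‖ ≤ M0)
    (h1 : |off (fun n => ArithmeticFunction.vonMangoldt n) f k ⌊X⌋₊| ≤ E)
    (h2 : |off f f k ⌊X⌋₊| ≤ E) :
    ∑ n ∈ Icc 1 ⌊X⌋₊, ArithmeticFunction.vonMangoldt n * f n - E
      - k.divisors.card * Real.log X * ((X / k + 1) * B)
      - X / Nat.totient k * (k.divisors.card * M0) ≤
    √(GV X k) * √(∑ n ∈ Icc 1 ⌊X⌋₊, f n ^ 2 + E) := by
  set N := ⌊X⌋₊ with hN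
  have hN1 : 1 ≤ N := Nat.le_floor (by simpa using hX)
  have hX0 : 0 < X := by linarith
  have hk0 : (0 : ℝ) < k := by exact_mod_cast (show 0 < k by omega)
  have hNX : (N : ℝ) ≤ X := Nat.floor_le hX0.le
  set L : ℕ → ℝ := fun n => ArithmeticFunction.vonMangoldt n with hL
  have hL0 : ∀ n, 0 ≤ L n := fun n => ArithmeticFunction.vonMangoldt_nonneg
  set red := (range k).filter (fun A => A.Coprime k) with hred
  -- the pairing
  have hpair : ∑ A ∈ red, (cls L k N A - X / Nat.totient k) * cls f k N A =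
      (∑ n ∈ Icc 1 N, L n * f n + off L f k N)
        - ∑ n ∈ (Icc 1 N).filter (fun n => ¬ n.Coprime k), L n * cls f k N n
        - X / Nat.totient k * ∑ m ∈ (Icc 1 N).filter (fun m : ℕ => m.Coprime k), f m := by
    have e1 : ∑ A ∈ red, cls L k N A * cls f k N A =
        ∑ n ∈ (Icc 1 N).filter (fun n => n.Coprime k), L n * cls f k N n := by
      have e2 := sum_cls L (fun A => if A.Coprime k then cls f k N A else 0) k N hk (by
        intro n A h
        have h3 : n.Coprime k ↔ A.Coprime k := by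
          unfold Nat.Coprime
          rw [h.gcd_eq]
        simp only [h3, cls_congr f k N A n h])
      rw [hred, sum_filter, sum_filter]
      have e3 : ∀ A ∈ range k, (if A.Coprime k then cls L k N A * cls f k N A else 0) =
          cls L k N A * (if A.Coprime k then cls f k N A else 0) := by
        intro A _
        split_ifs <;> simp
      rw [sum_congr rfl e3, e2]
      apply sum_congr rfl
      intro n _
      split_ifs <;> simp
    have e4 : ∑ A ∈ red, cls f k N A = ∑ m ∈ (Icc 1 N).filter (fun m : ℕ => m.Coprime k), f m := by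
      have e2 := sum_cls f (fun A => if A.Coprime k then 1 else 0) k N hk (by
        intro n A h
        have h3 : n.Coprime k ↔ A.Coprime k := by
          unfold Nat.Coprime
          rw [h.gcd_eq]
        simp only [h3])
      rw [hred, sum_filter, sum_filter]
      have e3 : ∀ A ∈ range k, (if A.Coprime k then cls f k N A else 0) =
          cls f k N A * (if A.Coprime k then 1 else 0) := by
        intro A _
        split_ifs <;> simp
      rw [sum_congr rfl e3, e2]
      apply sum_congr rfl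
      intro n _
      split_ifs <;> simp
    have e5 : ∑ n ∈ Icc 1 N, L n * cls f k N n = ∑ n ∈ Icc 1 N, L n * f n + off L f k N := by
      rw [← class_prod L f k N hk, sum_cls L (fun A => cls f k N A) k N hk
        (fun n A h => cls_congr f k N A n h)]
    have e6 := sum_filter_add_sum_filter_not (Icc 1 N) (fun n : ℕ => n.Coprime k)
      (fun n => L n * cls f k N n)
    simp only [sub_mul, sum_sub_distrib, ← mul_sum]
    rw [e1, e4]
    linarith
  have hcs : (∑ A ∈ red, (cls L k N A - X / Nat.totient k) * cls f k N A) ≤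
      √(GV X k) * √(∑ n ∈ Icc 1 N, f n ^ 2 + E) := by
    have c1 := Real.sum_mul_le_sqrt_mul_sqrt red (fun A => cls L k N A - X / Nat.totient k)
      (fun A => cls f k N A)
    have c2 : ∑ A ∈ red, (cls L k N A - X / Nat.totient k) ^ 2 = GV X k := rfl
    have c3 : ∑ A ∈ red, (cls f k N A) ^ 2 ≤ ∑ n ∈ Icc 1 N, f n ^ 2 + E := by
      calc ∑ A ∈ red, (cls f k N A) ^ 2 ≤ ∑ A ∈ range k, (cls f k N A) ^ 2 :=
            sum_le_sum_of_subset_of_nonneg (filter_subset _ _) fun _ _ _ => sq_nonneg _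
        _ = ∑ A ∈ range k, cls f k N A * cls f k N A := sum_congr rfl fun A _ => sq _
        _ = ∑ n ∈ Icc 1 N, f n * f n + off f f k N := class_prod f f k N hk
        _ ≤ _ := by
            have := le_abs_self (off f f k N)
            have h3 : ∑ n ∈ Icc 1 N, f n * f n = ∑ n ∈ Icc 1 N, f n ^ 2 :=
              sum_congr rfl fun n _ => (sq _).symm
            linarith
    rw [c2] at c1
    refine c1.trans ?_
    gcongr
  have hnc : |∑ n ∈ (Icc 1 N).filter (fun n => ¬ n.Coprime k), L n * cls f k N n| ≤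
      k.divisors.card * Real.log X * ((X / k + 1) * B) := by
    have n1 := H343.sum_not_coprime k N hk hN1
    have hlog : Real.log N ≤ Real.log X := Real.log_le_log (by exact_mod_cast hN1) hNX
    have hcl : ∀ n, |cls f k N n| ≤ (X / k + 1) * B := by
      intro n
      refine (cls_le f k N n hk B hB hB0).trans ?_
      gcongr
    calc |∑ n ∈ (Icc 1 N).filter (fun n => ¬ n.Coprime k), L n * cls f k N n|
        ≤ ∑ n ∈ (Icc 1 N).filter (fun n => ¬ n.Coprime k), L n * ((X / k + 1) * B) := by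
          refine (abs_sum_le_sum_abs _ _).trans (sum_le_sum fun n _ => ?_)
          rw [abs_mul, abs_of_nonneg (hL0 n)]
          exact mul_le_mul_of_nonneg_left (hcl n) (hL0 n)
      _ = (∑ n ∈ (Icc 1 N).filter (fun n => ¬ n.Coprime k), L n) * ((X / k + 1) * B) := by
          rw [sum_mul]
      _ ≤ (k.divisors.card * Real.log N) * ((X / k + 1) * B) :=
          mul_le_mul_of_nonneg_right n1 (by positivity)
      _ ≤ _ := by gcongr
  have hco := coprime_sum_le f N k hk M0 hM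
  have hphi : 0 ≤ X / Nat.totient k := by positivity
  have a1 := (abs_le.1 hnc).2
  have a2 := mul_le_mul_of_nonneg_left (abs_le.1 hco).2 hphi
  have a3 := (abs_le.1 h1).1
  rw [hpair] at hcs
  linarith

end Pool.Agent.P8H5.GV
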