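import Pool.Agent.P8H5.GV.Stm

/-!
# Package BLG of project GV (helper5, MP_5dd4bb_nt), by helper48

The bilinear mean value `∑_{t ≤ N} T (l t / D) t T (l' t / D) t`.
-/

set_option autoImplicit false

open Finset

namespace Pool.Agent.P8H5.GV.BLGP

/-- truncated logarithm -/
noncomputable def L (y : ℝ) (d : ℕ) : ℝ := if (d : ℝ) ≤ y then Real.log (y / d) else 0

theorem L_nonneg {y : ℝ} {d : ℕ} (hd : 1 ≤ d) : 0 ≤ L y d := by
  unfold L
  split_ifs with h
  · apply Real.log_nonneg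
    have hd' : (0 : ℝ) < d := by exact_mod_cast hd
    rw [le_div_iff₀ hd']
    linarith
  · exact le_rfl

theorem L_mono {y z : ℝ} {d : ℕ} (hd : 1 ≤ d) (h : y ≤ z) : L y d ≤ L z d := by
  have hd' : (0 : ℝ) < d := by exact_mod_cast hd
  by_cases h1 : (d : ℝ) ≤ y
  · have h2 : (d : ℝ) ≤ z := h1.trans h
    unfold L
    rw [if_pos h1, if_pos h2]
    apply Real.log_le_log
    · exact div_pos (lt_of_lt_of_le hd' h1) hd'
    · exact div_le_div_of_nonneg_right h hd'.le
  · unfold L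
    rw [if_neg h1]
    exact L_nonneg hd

theorem L_le {y w : ℝ} {d : ℕ} (hd : 1 ≤ d) (hw : 1 ≤ w) (hy : y ≤ w) : L y d ≤ 1 + Real.log w := by
  have hd' : (1 : ℝ) ≤ d := by exact_mod_cast hd
  have hlw : 0 ≤ Real.log w := Real.log_nonneg hw
  unfold L
  split_ifs with h
  · have h0 : 0 < y / d := div_pos (by linarith) (by linarith)
    have h1 : Real.log (y / d) ≤ Real.log w := by
      apply Real.log_le_log h0
      rw [div_le_iff₀ (by linarith)]
      nlinarith
    linarith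
  · linarith

/-- sums over multiples of a monotone function -/
theorem multiples (f : ℕ → ℝ) (hf0 : ∀ t, 0 ≤ f t) (hf : Monotone f) {m : ℕ} (hm : 1 ≤ m) (N : ℕ) :
    (m : ℝ) * (∑ t ∈ Icc 1 N, if m ∣ t then f t else 0) ≤
      ∑ t ∈ Icc 1 N, f t + ((m : ℝ) - 1 - (N % m : ℕ)) * f N ∧
    ∑ t ∈ Icc 1 N, f t - ((N % m : ℕ) : ℝ) * f N ≤
      (m : ℝ) * (∑ t ∈ Icc 1 N, if m ∣ t then f t else 0) := by
  induction N with
  | zero =>
    simp only [Nat.zero_mod, Nat.cast_zero, zero_mul, sub_zero]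
    have h1 : (1 : ℝ) ≤ m := by exact_mod_cast hm
    have : (Icc 1 0 : Finset ℕ) = ∅ := by simp
    rw [this]
    simp only [sum_empty, mul_zero, zero_add, le_refl, and_true]
    exact mul_nonneg (by linarith) (hf0 0)
  | succ N ih =>
    obtain ⟨h1, h2⟩ := ih
    have hs : ∀ g : ℕ → ℝ, ∑ t ∈ Icc 1 (N + 1), g t = ∑ t ∈ Icc 1 N, g t + g (N + 1) := fun g =>
      Finset.sum_Icc_succ_top (by omega) g
    rw [hs, hs]
    have hmono : f N ≤ f (N + 1) := hf (Nat.le_succ N)
    have hr : N % m < m := Nat.mod_lt _ hm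
    have hrR : ((N % m : ℕ) : ℝ) + 1 ≤ m := by exact_mod_cast hr
    have hr0 : (0 : ℝ) ≤ ((N % m : ℕ) : ℝ) := Nat.cast_nonneg _
    by_cases hdiv : m ∣ N + 1
    · rw [if_pos hdiv]
      have e1 : (N + 1) % m = 0 := Nat.mod_eq_zero_of_dvd hdiv
      have e2 : N % m = m - 1 := by
        rcases Nat.lt_or_ge (N % m) (m - 1) with hlt | hge
        · exfalso
          have : (N + 1) % m = N % m + 1 := by
            rw [Nat.add_mod]
            have h1m : 1 < m := by omega
            rw [Nat.mod_eq_of_lt h1m]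
            exact Nat.mod_eq_of_lt (by omega)
          omega
        · omega
      have e3 : ((N % m : ℕ) : ℝ) = (m : ℝ) - 1 := by
        rw [e2]
        push_cast [Nat.cast_sub hm]
        ring
      rw [e1]
      rw [e3] at h1 h2
      simp only [Nat.cast_zero]
      constructor
      · nlinarith
      · have h3 : ((m : ℝ) - 1) * f N ≤ ((m : ℝ) - 1) * f (N + 1) :=
          mul_le_mul_of_nonneg_left hmono (by linarith)
        nlinarith
    · rw [if_neg hdiv]
      have e1 : (N + 1) % m = N % m + 1 := by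
        have h1m : 1 < m := by
          rcases Nat.lt_or_ge 1 m with h | h
          · exact h
          · exfalso; apply hdiv
            have : m = 1 := by omega
            rw [this]; exact one_dvd _
        rw [Nat.add_mod, Nat.mod_eq_of_lt h1m]
        apply Nat.mod_eq_of_lt
        by_contra hcon
        apply hdiv
        have h5 : N % m + 1 = m := by omega
        rw [Nat.dvd_iff_mod_eq_zero, Nat.add_mod, Nat.mod_eq_of_lt h1m, h5, Nat.mod_self]
      rw [e1]
      push_cast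
      constructor
      · have h3 : ((m : ℝ) - 1 - (N % m : ℕ)) * f N ≤ ((m : ℝ) - 1 - (N % m : ℕ)) * f (N + 1) :=
          mul_le_mul_of_nonneg_left hmono (by linarith)
        nlinarith
      · have h3 : ((N % m : ℕ) : ℝ) * f N ≤ ((N % m : ℕ) : ℝ) * f (N + 1) :=
          mul_le_mul_of_nonneg_left hmono hr0
        nlinarith

theorem multiples' (f : ℕ → ℝ) (hf0 : ∀ t, 0 ≤ f t) (hf : Monotone f) {m : ℕ} (hm : 1 ≤ m) (N : ℕ) :
    |(∑ t ∈ Icc 1 N, if m ∣ t then f t else 0) - (∑ t ∈ Icc 1 N, f t) / m| ≤ f N := by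
  obtain ⟨h1, h2⟩ := multiples f hf0 hf hm N
  have hmR : (0 : ℝ) < m := by exact_mod_cast hm
  have hr : N % m < m := Nat.mod_lt _ hm
  have hrR : ((N % m : ℕ) : ℝ) + 1 ≤ m := by exact_mod_cast hr
  have hr0 : (0 : ℝ) ≤ ((N % m : ℕ) : ℝ) := Nat.cast_nonneg _
  have h0 := hf0 N
  set A := ∑ t ∈ Icc 1 N, if m ∣ t then f t else 0
  set B := ∑ t ∈ Icc 1 N, f t
  have e : A - B / m = ((m : ℝ) * A - B) / m := by field_simp
  rw [e, abs_div, abs_of_pos hmR, div_le_iff₀ hmR, abs_le]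
  constructor
  · nlinarith
  · nlinarith

theorem T_eq {y : ℝ} {t X : ℕ} (ht : 1 ≤ t) (hX : ⌊y⌋₊ ≤ X) :
    T y t = ∑ d ∈ Icc 1 X, if d ∣ t then mu d * L y d else 0 := by
  unfold T
  rw [Finset.sum_filter]
  have h1 : ∀ d ∈ t.divisors, (if (d : ℝ) ≤ y then mu d * Real.log (y / d) else 0) = mu d * L y d := by
    intro d _
    unfold L
    split_ifs <;> simp
  rw [Finset.sum_congr rfl h1, ← Finset.sum_filter]
  have h2 : ∑ d ∈ t.divisors, mu d * L y d = ∑ d ∈ t.divisors.filter (fun d => d ≤ X), mu d * L y d := by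
    rw [Finset.sum_filter]
    apply Finset.sum_congr rfl
    intro d hd
    split_ifs with h
    · rfl
    · have h3 : ¬ (d : ℝ) ≤ y := by
        intro hdy
        apply h
        exact (Nat.le_floor hdy).trans hX
      unfold L
      rw [if_neg h3, mul_zero]
  rw [h2]
  apply Finset.sum_congr _ (fun _ _ => rfl)
  ext d
  simp only [Finset.mem_filter, Nat.mem_divisors, Finset.mem_Icc]
  constructor
  · rintro ⟨⟨h3, h4⟩, h5⟩
    exact ⟨⟨Nat.pos_of_dvd_of_pos h3 (by omega), h5⟩, h3⟩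
  · rintro ⟨⟨h3, h4⟩, h5⟩
    exact ⟨⟨h5, by omega⟩, h4⟩

theorem a_eq {y : ℝ} {r X : ℕ} (hX : ⌊y⌋₊ ≤ X) :
    a y r = ∑ d ∈ Icc 1 X, if r ∣ d then mu d * L y d / d else 0 := by
  unfold a
  rw [Finset.sum_filter]
  have h2 : ∑ d ∈ Icc 1 X, (if r ∣ d then mu d * L y d / d else 0) =
      ∑ d ∈ (Icc 1 X).filter (fun d => d ≤ ⌊y⌋₊), (if r ∣ d then mu d * L y d / d else 0) := by
    rw [Finset.sum_filter]
    apply Finset.sum_congr rfl
    intro d hd
    split_ifs with h h1 h2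
    · rfl
    · have h3 : ¬ (d : ℝ) ≤ y := by
        intro hdy
        exact h1 (Nat.le_floor hdy)
      unfold L
      rw [if_neg h3, mul_zero, zero_div]
    · rfl
    · rfl
  rw [h2]
  have h3 : (Icc 1 X).filter (fun d => d ≤ ⌊y⌋₊) = Icc 1 ⌊y⌋₊ := by
    ext d
    simp only [Finset.mem_filter, Finset.mem_Icc]
    omega
  rw [h3]
  apply Finset.sum_congr rfl
  intro d hd
  rw [Finset.mem_Icc] at hd
  have h4 : (d : ℝ) ≤ y := by
    have : d ≤ ⌊y⌋₊ := hd.2
    exact (Nat.le_floor_iff' (by omega)).1 this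
  unfold L
  rw [if_pos h4]

theorem gcd_sum {d d' M : ℕ} (hd : 1 ≤ d) (_hd' : 1 ≤ d') (hM : d ≤ M) :
    ∑ r ∈ Icc 1 M, (if r ∣ d ∧ r ∣ d' then (Nat.totient r : ℝ) else 0) = (Nat.gcd d d' : ℝ) := by
  rw [← Finset.sum_filter]
  have : (Icc 1 M).filter (fun r => r ∣ d ∧ r ∣ d') = (Nat.gcd d d').divisors := by
    ext r
    simp only [Finset.mem_filter, Finset.mem_Icc, Nat.mem_divisors, Nat.dvd_gcd_iff]
    constructor
    · rintro ⟨_, h1, h2⟩
      refine ⟨⟨h1, h2⟩, ?_⟩
      exact (Nat.gcd_pos_of_pos_left _ hd).ne'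
    · rintro ⟨⟨h1, h2⟩, _⟩
      exact ⟨⟨Nat.pos_of_dvd_of_pos h1 hd, (Nat.le_of_dvd hd h1).trans hM⟩, h1, h2⟩
  rw [this]
  exact_mod_cast Nat.sum_totient (Nat.gcd d d')

theorem Q2_eq {y z : ℝ} {X X' : ℕ} (hX : ⌊y⌋₊ ≤ X) (hX' : ⌊z⌋₊ ≤ X') :
    Q2 y z = ∑ d ∈ Icc 1 X, ∑ d' ∈ Icc 1 X',
      mu d * mu d' * (L y d * L z d') / (Nat.lcm d d' : ℝ) := by
  have h1 : Q2 y z = ∑ r ∈ Icc 1 (max X X'), (Nat.totient r : ℝ) * a y r * a z r := by
    unfold Q2
    apply Finset.sum_subset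
    · apply Finset.Icc_subset_Icc le_rfl
      exact max_le_max hX hX'
    · intro r hr hr'
      rw [Finset.mem_Icc] at hr hr'
      have h2 : ⌊y⌋₊ < r := by
        have := le_max_left ⌊y⌋₊ ⌊z⌋₊
        omega
      have h3 : a y r = 0 := by
        unfold a
        apply Finset.sum_eq_zero
        intro d hd
        rw [Finset.mem_filter, Finset.mem_Icc] at hd
        have := Nat.le_of_dvd (by omega) hd.2
        omega
      rw [h3]
      ring
  rw [h1]
  have h2 : ∀ r ∈ Icc 1 (max X X'), (Nat.totient r : ℝ) * a y r * a z r =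
      ∑ d ∈ Icc 1 X, ∑ d' ∈ Icc 1 X', (mu d * mu d' * (L y d * L z d') / (d * d')) *
        (if r ∣ d ∧ r ∣ d' then (Nat.totient r : ℝ) else 0) := by
    intro r _
    rw [a_eq hX, a_eq hX', mul_assoc, Finset.sum_mul_sum, Finset.mul_sum]
    apply Finset.sum_congr rfl
    intro d _
    rw [Finset.mul_sum]
    apply Finset.sum_congr rfl
    intro d' _
    by_cases h3 : r ∣ d
    · by_cases h4 : r ∣ d'
      · rw [if_pos h3, if_pos h4, if_pos ⟨h3, h4⟩]
        ring
      · rw [if_neg h4, if_neg (fun h : r ∣ d ∧ r ∣ d' => h4 h.2)]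
        ring
    · rw [if_neg h3, if_neg (fun h : r ∣ d ∧ r ∣ d' => h3 h.1)]
      ring
  rw [Finset.sum_congr rfl h2, Finset.sum_comm]
  apply Finset.sum_congr rfl
  intro d hd
  rw [Finset.sum_comm]
  apply Finset.sum_congr rfl
  intro d' hd'
  rw [Finset.mem_Icc] at hd hd'
  rw [← Finset.mul_sum, gcd_sum hd.1 hd'.1 (hd.2.trans (le_max_left _ _))]
  have hdR : (d : ℝ) ≠ 0 := by exact_mod_cast (by omega : d ≠ 0)
  have hdR' : (d' : ℝ) ≠ 0 := by exact_mod_cast (by omega : d' ≠ 0)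
  have hg : (Nat.gcd d d' : ℝ) * (Nat.lcm d d' : ℝ) = d * d' := by
    exact_mod_cast Nat.gcd_mul_lcm d d'
  have hl : (Nat.lcm d d' : ℝ) ≠ 0 := by
    exact_mod_cast (Nat.lcm_pos hd.1 hd'.1).ne'
  have hg0 : (Nat.gcd d d' : ℝ) ≠ 0 := by
    exact_mod_cast (Nat.gcd_pos_of_pos_left _ hd.1).ne'
  rw [← hg]
  field_simp

theorem blg : S_BLG := by
  intro D l l' N hD hl hl'
  have hD0 : (0 : ℝ) < D := by linarith
  rcases Nat.eq_zero_or_pos N with rfl | hN
  · simp
  set X := ⌊(l * N / D : ℝ)⌋₊ with hX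
  set X' := ⌊(l' * N / D : ℝ)⌋₊ with hX'
  have hfl : ∀ (k : ℕ) (t : ℕ), t ∈ Icc 1 N → ⌊((k : ℝ) * t / D)⌋₊ ≤ ⌊((k : ℝ) * N / D)⌋₊ := by
    intro k t ht
    rw [Finset.mem_Icc] at ht
    apply Nat.floor_mono
    apply div_le_div_of_nonneg_right _ hD0.le
    apply mul_le_mul_of_nonneg_left _ (Nat.cast_nonneg k)
    exact_mod_cast ht.2
  have e1 : ∑ t ∈ Icc 1 N, T (l * t / D) t * T (l' * t / D) t =
      ∑ d ∈ Icc 1 X, ∑ d' ∈ Icc 1 X', mu d * mu d' *
        ∑ t ∈ Icc 1 N, (if Nat.lcm d d' ∣ t then L (l * t / D) d * L (l' * t / D) d' else 0) := by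
    have h2 : ∀ t ∈ Icc 1 N, T (l * t / D) t * T (l' * t / D) t =
        ∑ d ∈ Icc 1 X, ∑ d' ∈ Icc 1 X', mu d * mu d' *
          (if Nat.lcm d d' ∣ t then L (l * t / D) d * L (l' * t / D) d' else 0) := by
      intro t ht
      rw [T_eq (Finset.mem_Icc.1 ht).1 (hfl l t ht), T_eq (Finset.mem_Icc.1 ht).1 (hfl l' t ht),
        Finset.sum_mul_sum]
      apply Finset.sum_congr rfl
      intro d _
      apply Finset.sum_congr rfl
      intro d' _
      by_cases h3 : d ∣ t
      · by_cases h4 : d' ∣ t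
        · rw [if_pos h3, if_pos h4, if_pos (Nat.lcm_dvd h3 h4)]
          ring
        · rw [if_neg h4, if_neg (fun h => h4 ((Nat.dvd_lcm_right d d').trans h))]
          ring
      · rw [if_neg h3, if_neg (fun h => h3 ((Nat.dvd_lcm_left d d').trans h))]
        ring
    rw [Finset.sum_congr rfl h2, Finset.sum_comm]
    apply Finset.sum_congr rfl
    intro d _
    rw [Finset.sum_comm]
    apply Finset.sum_congr rfl
    intro d' _
    rw [Finset.mul_sum]
  have e2 : ∑ t ∈ Icc 1 N, Q2 (l * t / D) (l' * t / D) =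
      ∑ d ∈ Icc 1 X, ∑ d' ∈ Icc 1 X', mu d * mu d' *
        ((∑ t ∈ Icc 1 N, L (l * t / D) d * L (l' * t / D) d') / (Nat.lcm d d' : ℝ)) := by
    have h2 : ∀ t ∈ Icc 1 N, Q2 (l * t / D) (l' * t / D) = _ := fun t ht =>
      Q2_eq (hfl l t ht) (hfl l' t ht)
    rw [Finset.sum_congr rfl h2, Finset.sum_comm]
    apply Finset.sum_congr rfl
    intro d _
    rw [Finset.sum_comm]
    apply Finset.sum_congr rfl
    intro d' _
    rw [Finset.sum_div, Finset.mul_sum]
    apply Finset.sum_congr rfl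
    intro t _
    ring
  rw [e1, e2, ← Finset.sum_sub_distrib]
  have hmu : ∀ d : ℕ, |mu d| ≤ 1 := by
    intro d
    unfold mu
    have h := ArithmeticFunction.abs_moebius_le_one (n := d)
    exact_mod_cast h
  have hbound : ∀ d ∈ Icc 1 X, ∀ d' ∈ Icc 1 X',
      |mu d * mu d' * ∑ t ∈ Icc 1 N, (if Nat.lcm d d' ∣ t then L (l * t / D) d * L (l' * t / D) d' else 0) -
        mu d * mu d' * ((∑ t ∈ Icc 1 N, L (l * t / D) d * L (l' * t / D) d') / (Nat.lcm d d' : ℝ))| ≤
      (1 + Real.log (l * N)) * (1 + Real.log (l' * N)) := by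
    intro d hd d' hd'
    rw [Finset.mem_Icc] at hd hd'
    rw [← mul_sub, abs_mul, abs_mul]
    have h1 := multiples' (fun t => L (l * t / D) d * L (l' * t / D) d')
      (fun t => mul_nonneg (L_nonneg hd.1) (L_nonneg hd'.1))
      (by
        intro s t hst
        have hst' : (s : ℝ) ≤ t := by exact_mod_cast hst
        apply mul_le_mul
        · apply L_mono hd.1
          exact div_le_div_of_nonneg_right (mul_le_mul_of_nonneg_left hst' (Nat.cast_nonneg _)) hD0.le
        · apply L_mono hd'.1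
          exact div_le_div_of_nonneg_right (mul_le_mul_of_nonneg_left hst' (Nat.cast_nonneg _)) hD0.le
        · exact L_nonneg hd'.1
        · exact L_nonneg hd.1)
      (Nat.lcm_pos hd.1 hd'.1) N
    have hL : ∀ (k e : ℕ), 1 ≤ k → 1 ≤ e → L (k * N / D) e ≤ 1 + Real.log (k * N) := by
      intro k e hk he
      have hkN : (1 : ℝ) ≤ (k : ℝ) * N := by
        have : 1 ≤ k * N := Nat.mul_pos hk hN
        exact_mod_cast this
      apply L_le he hkN
      rw [div_le_iff₀ hD0]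
      nlinarith
    have h2 : L (l * N / D) d * L (l' * N / D) d' ≤ (1 + Real.log (l * N)) * (1 + Real.log (l' * N)) :=
      mul_le_mul (hL l d hl hd.1) (hL l' d' hl' hd'.1) (L_nonneg hd'.1)
        ((L_nonneg hd.1).trans (hL l d hl hd.1))
    have h3 : |mu d| * |mu d'| ≤ 1 := by
      have := hmu d
      have := hmu d'
      have := abs_nonneg (mu d)
      have := abs_nonneg (mu d')
      nlinarith
    calc |mu d| * |mu d'| * _ ≤ 1 * (L (l * N / D) d * L (l' * N / D) d') :=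
          mul_le_mul h3 h1 (abs_nonneg _) zero_le_one
      _ ≤ _ := by rw [one_mul]; exact h2
  set Bd := (1 + Real.log (l * N)) * (1 + Real.log (l' * N)) with hBd
  have hBd0 : 0 ≤ Bd := by
    have h1 : (1 : ℝ) ≤ (l : ℝ) * N := by
      have : 1 ≤ l * N := Nat.mul_pos hl hN
      exact_mod_cast this
    have h2 : (1 : ℝ) ≤ (l' : ℝ) * N := by
      have : 1 ≤ l' * N := Nat.mul_pos hl' hN
      exact_mod_cast this
    have := Real.log_nonneg h1
    have := Real.log_nonneg h2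
    positivity
  calc |∑ d ∈ Icc 1 X, (∑ d' ∈ Icc 1 X', mu d * mu d' *
        ∑ t ∈ Icc 1 N, (if Nat.lcm d d' ∣ t then L (l * t / D) d * L (l' * t / D) d' else 0) -
        ∑ d' ∈ Icc 1 X', mu d * mu d' *
        ((∑ t ∈ Icc 1 N, L (l * t / D) d * L (l' * t / D) d') / (Nat.lcm d d' : ℝ)))|
      ≤ ∑ d ∈ Icc 1 X, ∑ d' ∈ Icc 1 X', Bd := by
        apply (Finset.abs_sum_le_sum_abs _ _).trans
        apply Finset.sum_le_sum
        intro d hd
        rw [← Finset.sum_sub_distrib]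
        apply (Finset.abs_sum_le_sum_abs _ _).trans
        apply Finset.sum_le_sum
        intro d' hd'
        exact hbound d hd d' hd'
    _ = (X : ℝ) * X' * Bd := by
        simp only [Finset.sum_const, Nat.card_Icc, Nat.add_sub_cancel, nsmul_eq_mul]
        ring
    _ ≤ (l * N / D) * (l' * N / D) * Bd := by
        apply mul_le_mul_of_nonneg_right _ hBd0
        apply mul_le_mul
        · exact Nat.floor_le (by positivity)
        · exact Nat.floor_le (by positivity)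
        · positivity
        · positivity

end Pool.Agent.P8H5.GV.BLGP
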