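import Mathlib

/-!
# Project GV (helper5, MP_5dd4bb_nt): definitions and statements of the packages

Goal: for almost all moduli `k ∈ (K, 2K]` and all real `X ≥ k`: `G(X,k) ≥ X (2 log k - log X - ε log X)`.
Every statement is a `Prop`; its docstring contains a complete proof. A package proves `S_...` (possibly from other
`S_...`, as written).
-/

set_option autoImplicit false

open Finset

namespace Pool.Agent.P8H5.GV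

/-- the Moebius function, real valued -/
noncomputable def mu (d : ℕ) : ℝ := ((ArithmeticFunction.moebius d : ℤ) : ℝ)

/-- `T y n = ∑_{d ∣ n, d ≤ y} μ(d) log (y / d)` for real `y` (zero for `y < 1`) -/
noncomputable def T (y : ℝ) (n : ℕ) : ℝ :=
  ∑ d ∈ n.divisors.filter (fun d : ℕ => (d : ℝ) ≤ y), mu d * Real.log (y / d)

/-- the Ramanujan coefficients of `T y` -/
noncomputable def a (y : ℝ) (r : ℕ) : ℝ :=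
  ∑ d ∈ (Icc 1 ⌊y⌋₊).filter (fun d : ℕ => r ∣ d), mu d * Real.log (y / d) / d

/-- Ramanujan's sum `c_r(n) = ∑_{d ∣ (r, n)} d μ(r / d)` -/
noncomputable def c (r n : ℕ) : ℝ :=
  ∑ d ∈ r.divisors.filter (fun d : ℕ => d ∣ n), (d : ℝ) * mu (r / d)

/-- the test function: `T D` without its frequencies of denominator at most `R` -/
noncomputable def F (D R n : ℕ) : ℝ := ∑ r ∈ Ioc R D, a D r * c r n

/-- `e(x) = exp (2 π i x)` -/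
noncomputable def e (x : ℝ) : ℂ := Complex.exp (2 * Real.pi * Complex.I * x)

/-- `∑_{m ≤ v} μ(m) log (v/m) / m` -/
noncomputable def g (v : ℝ) : ℝ := ∑ m ∈ Icc 1 ⌊v⌋₊, mu m * Real.log (v / m) / m

/-- the same over the `m` coprime to `r` -/
noncomputable def A (r : ℕ) (u : ℝ) : ℝ :=
  ∑ m ∈ (Icc 1 ⌊u⌋₊).filter (fun m : ℕ => m.Coprime r), mu m * Real.log (u / m) / m

/-- `k(r) = ∏_{p ∣ r} (1 - p^(-3/4))^(-1)` -/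
noncomputable def kk (r : ℕ) : ℝ := ∏ p ∈ r.primeFactors, (1 - (p : ℝ) ^ (-(3 / 4 : ℝ)))⁻¹

/-- the bilinear form `∑_r φ(r) a(y,r) a(z,r)` -/
noncomputable def Q2 (y z : ℝ) : ℝ :=
  ∑ r ∈ Icc 1 (max ⌊y⌋₊ ⌊z⌋₊), (Nat.totient r : ℝ) * a y r * a z r

/-- `∑_r φ(r) (a(y,r) - a(z,r))²` -/
noncomputable def q2 (y z : ℝ) : ℝ :=
  ∑ r ∈ Icc 1 (max ⌊y⌋₊ ⌊z⌋₊), (Nat.totient r : ℝ) * (a y r - a z r) ^ 2

/-! ## Package G -/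

/-- **G**. Proof: `Pool.Agent.W66.MA` has `m0_bound` and `m1_bound`: `∑_{d ≤ w} μ(d)/d = O(1/log^B w)` and
`∑_{d ≤ w} μ(d) log d / d = -1 + O(1 / log^B w)` for natural `w ≥ 2`. With `w = ⌊v⌋`, `B = 2`:
`g v = log v ∑ μ(d)/d - ∑ μ(d) log d / d → 1`; the boundedness for `1 ≤ v ≤ 3` is trivial. -/
def S_G : Prop := (∃ C : ℝ, 0 < C ∧ ∀ v : ℝ, 1 ≤ v → |g v| ≤ C) ∧
  ∀ ε : ℝ, 0 < ε → ∃ V : ℝ, 1 ≤ V ∧ ∀ v : ℝ, V ≤ v → |g v - 1| ≤ ε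

/-! ## Package COP (from G) -/

/-- **COP**. Proof. Say `b ∈ r^∞` if every prime factor of `b` divides `r`. For `m ≥ 1`,
`∑_{b ∣ m, b ∈ r^∞} μ(m/b) = μ(m)` if `(m,r) = 1` and `= 0` otherwise (write `m = m₁ m₂`, `m₁ ∈ r^∞`, `(m₂,r) = 1`; the sum
is `μ(m₂) ∑_{b ∣ m₁} μ(m₁/b)`). Hence, since `log (u/(b m')) = log ((u/b)/m')`,
`A r u = ∑_{b ∈ r^∞, b ≤ u} (1/b) g(u/b)`. The finite sums `∑_{b ∈ r^∞, b ≤ u} b^{-s}` are at most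
`∏_{p ∣ r} (1 - p^{-s})^{-1}` (`s = 1`: `r/φ(r)`; `s = 3/4`: `kk r`), and the sum over all `b ∈ r^∞` of `1/b` is `r/φ(r)`
(Mathlib: `Nat.factoredNumbers`, `EulerProduct.summable_and_hasSum_factoredNumbers_prod_filter_prime_geometric` or similar;
the completely multiplicative function `b ↦ b^{-s}`).
First part: `|g| ≤ C`. Second part: let `|g v - 1| ≤ ε` for `v ≥ V`. If `u ≥ V²`: the `b ≤ √u` have `u/b ≥ V`, so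
`|A r u - r/φ(r)| ≤ ∑_{b ≤ √u} (1/b) |g(u/b) - 1| + (C+1) ∑_{b > √u} 1/b ≤ ε r/φ(r) + (C+1) u^{-1/8} kk r`, because
`1/b ≤ b^{-3/4} u^{-1/8}` for `b > √u`. If `1 ≤ u ≤ V²`: `|A r u - r/φ(r)| ≤ (C+1) r/φ(r) ≤ (C+1) V^{1/4} u^{-1/8} kk r`. -/
def S_COP : Prop := (∃ C : ℝ, 0 < C ∧ ∀ r : ℕ, 1 ≤ r → ∀ u : ℝ, 1 ≤ u → |A r u| ≤ C * (r / (Nat.totient r : ℝ))) ∧
  ∀ ε : ℝ, 0 < ε → ∃ C : ℝ, 0 < C ∧ ∀ r : ℕ, 1 ≤ r → ∀ u : ℝ, 1 ≤ u →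
    |A r u - r / (Nat.totient r : ℝ)| ≤ ε * (r / (Nat.totient r : ℝ)) + C * u ^ (-(1 / 8 : ℝ)) * kk r

/-! ## Package QQ (from COP) -/

/-- **Q1-Q4**. Facts: (a) for `r ≥ 1`: `a y r = μ(r)/r * A r (y/r)` (`d = r m`; `μ(r m) = μ(r) μ(m)` if `(m,r) = 1`, else `0`;
both sides are zero for `r > y`). (b) `∑_{r ≤ z} μ(r)²/φ(r) = log z + O(1)` for `z ≥ 1` (upper and lower bound; search the
library). (c) `∑_{r ≤ z} μ(r)² kk(r)²/r ≤ C (1 + log z)`: `kk(r)² = ∑_{d ∣ r} f(d)` for squarefree `r` with `f` multiplicative,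
`f(p) = (1 - p^{-3/4})^{-2} - 1 = O(p^{-3/4})`, so the sum is at most `∑_{d ≤ z} μ²(d) f(d)/d ∑_{m ≤ z} 1/m` and
`∏_{p ≤ z} (1 + f(p)/p)` is bounded. Also `kk(r) ≤ kk(r)²`.
Q1: let `U ≥ 1` be large (in terms of `ε`). For `r ≤ z/U`, COP gives
`A r (z/r)² ≤ (1+ε)(r/φ(r))² + C_ε U^{-1/4} kk(r)²`, for `z/U < r ≤ z` use `|A| ≤ C r/φ(r)`; so
`Q2 z z = ∑ φ(r) μ²(r)/r² A r (z/r)² ≤ (1+ε) ∑_{r ≤ z} μ²/φ + C_ε U^{-1/4} C (1 + log z) + C² ∑_{z/U < r ≤ z} μ²/φ`, and the last sum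
is `log U + O(1)`.
Q2: `q2 (p z) z = ∑_{r ≤ p z} φ(r) μ²(r)/r² (A r (p z/r) - A r (z/r))²`, for `r ≤ z/U` the difference is at most
`2 ε r/φ(r) + C_ε U^{-1/8} kk r` (twice COP), for `z/U < r ≤ p z` it is at most `2 C r/φ(r)` (with `A r u = 0` for `u < 1`).
Q3: `φ(r) a(D,r)² = μ²(r)/φ(r) (A r (D/r) φ(r)/r)²` and for `r ≤ min(R, D/U)`, `x = A r (D/r) φ(r)/r` has
`x² ≥ 1 - 2|x - 1|`, `|x - 1| ≤ ε + C_ε U^{-1/8} kk(r) φ(r)/r`; the `r` in `(D/U, R]` are dropped: loss `log U + O(1)`.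
Q4: `a(D,r) μ(r) = μ²(r)/φ(r) x`, `x ≤ 1 + |x-1|` for `r ≤ D/U`, `|x| ≤ C` always. -/
def S_QQ : Prop :=
  (∀ ε : ℝ, 0 < ε → ∃ C : ℝ, ∀ z : ℝ, 1 ≤ z → Q2 z z ≤ (1 + ε) * Real.log z + C) ∧
  (∀ ε : ℝ, 0 < ε → ∀ p : ℕ, 1 ≤ p → ∃ C : ℝ, ∀ z : ℝ, 1 ≤ z → q2 (p * z) z ≤ ε * Real.log z + C) ∧
  (∀ ε : ℝ, 0 < ε → ∃ C : ℝ, ∀ D R : ℕ, 1 ≤ R → R ≤ D →
    (1 - ε) * Real.log R - C ≤ ∑ r ∈ Icc 1 R, (Nat.totient r : ℝ) * a D r ^ 2) ∧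
  (∀ ε : ℝ, 0 < ε → ∃ C : ℝ, ∀ D R : ℕ, 1 ≤ R → R ≤ D →
    ∑ r ∈ Icc 1 R, a D r * mu r ≤ (1 + ε) * Real.log R + C)

/-! ## Package RAM (elementary, no input) -/

/-- **RAM**. (1) `1_{d ∣ n} = (1/d) ∑_{r ∣ d} c_r(n)`, so `T D n = ∑_{r ≤ D} a(D,r) c_r(n)`.
(2) `|a(y,r)| ≤ (1 + log y)²/r` for `y ≥ 1`, `r ≥ 1` (trivial).
(3) `|F D R n| ≤ ∑_r |a(D,r)| ∑_{d ∣ (r,n)} d ≤ (1 + log D)² ∑_{d ∣ n} ∑_{r ≤ D, d ∣ r} d/r ≤ (1 + log D)³ τ(n)`.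
(4) `∑_{n ≤ N} T(D)(n) c_r(n) = N φ(r) a(D,r) + O(D (1 + log D) σ(r))`: `∑_{m ≤ N/d} c_r(d m) = ∑_{δ ∣ r} δ μ(r/δ) ⌊(N/d) (δ,d)/δ⌋`
`= (N/d) ∑_{δ ∣ r} μ(r/δ) (δ,d) + O(σ(r))`, and `∑_{δ ∣ r} μ(r/δ) (δ,d) = φ(r)` if `r ∣ d`, `= 0` else (Moebius inversion of
`(δ,d) = ∑_{j ∣ δ, j ∣ d} φ(j)`).
(5) `∑_{n ≤ N} c_r(n) c_s(n) = N φ(r) [r = s] + O(σ(r) σ(s))` in the same way.
(6) norm of `F`: `F D R = T D - P`, `P(n) = ∑_{r ≤ R} a(D,r) c_r(n)`, so with `V = ∑_{r ≤ R} φ(r) a(D,r)²`: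
`∑_n T P = N V + O(R D (1+log D)^4)` and `∑_n P² = N V + O(R² (1+log D)^6)` (use `∑_{r ≤ R} σ(r)/r ≤ R (1 + log R)`), hence
`∑_{n ≤ N} F² ≤ ∑ T² - N V + C R D (1 + log D)^6` for `R ≤ D`. -/
def S_RAM : Prop :=
  (∀ D n : ℕ, 1 ≤ n → T D n = ∑ r ∈ Icc 1 D, a D r * c r n) ∧
  (∀ (y : ℝ) (r : ℕ), 1 ≤ y → 1 ≤ r → |a y r| ≤ (1 + Real.log y) ^ 2 / r) ∧
  (∀ D R n : ℕ, 1 ≤ D → 1 ≤ n → |F D R n| ≤ (1 + Real.log D) ^ 3 * (n.divisors.card : ℝ)) ∧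
  (∃ C : ℝ, 0 < C ∧ ∀ D R N : ℕ, 1 ≤ R → R ≤ D →
    ∑ n ∈ Icc 1 N, F D R n ^ 2 ≤ ∑ n ∈ Icc 1 N, T D n ^ 2 - N * ∑ r ∈ Icc 1 R, (Nat.totient r : ℝ) * a D r ^ 2
      + C * (R * D * (1 + Real.log D) ^ 6))

/-! ## Package SUP -/

/-- **SUP** (may use the first two parts of `S_RAM`). Proof. `c_r(n) = ∑_{b mod r, (b,r)=1} e(b n/r)` (search the library for
Ramanujan sums), so `∑_{n ≤ M} F(n) e(n α) = ∑_{R < r ≤ D} a(D,r) ∑*_b ∑_{n ≤ M} e(n (α + b/r))`, the inner sum is at most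
`min (M, 1/(2 ‖α + b/r‖))`. For `P < r ≤ 2P` the fractions `b/r` are different modulo one and `1/(4P²)`-separated, so
`∑_{P < r ≤ 2P} ∑*_b min (N, 1/‖α + b/r‖) ≤ C (N + P² (1 + log N))`. With `|a(D,r)| ≤ (1 + log D)²/r` a dyadic sum over
`P = 2^i R`, `P < D` gives the bound `C (1 + log D)² ∑_i (N/P + P (1+log N)) ≤ C' (N/R + D) (1 + log N)^4`. -/
def S_SUP : Prop := ∃ C : ℝ, 0 < C ∧ ∀ D R N M : ℕ, 1 ≤ R → R ≤ D → D ≤ N → M ≤ N → ∀ α : ℝ,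
  ‖∑ n ∈ Icc 1 M, (F D R n : ℂ) * e (n * α)‖ ≤ C * ((N : ℝ) / R + D) * (1 + Real.log N) ^ 4

/-! ## Package BLG (elementary, no input) -/

/-- **BLG**. Proof. The left sum is `∑_{d ≤ l N/D} ∑_{d' ≤ l' N/D} μ(d) μ(d') ∑_{t ≤ N, [d,d'] ∣ t} f(t)`,
`f(t) = log⁺(l t/(D d)) log⁺(l' t/(D d'))`, `log⁺ = max(log, 0)`, a nonnegative nondecreasing function of `t`. For such `f` and
`m ≥ 1`: `|∑_{t ≤ N, m ∣ t} f(t) - (1/m) ∑_{t ≤ N} f(t)| ≤ f(N)` (compare `m f(j m)` with the sums of `f` over the `m` integers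
up to, and after, `j m`). So up to `f(N) ≤ log⁺(l N) log⁺(l' N)` for each of the at most `(l N/D) (l' N/D)` pairs the left
sum is `∑_{t ≤ N} ∑_{d,d'} μ(d) μ(d')/[d,d'] log⁺ log⁺`, and `1/[d,d'] = (1/(d d')) ∑_{r ∣ d, r ∣ d'} φ(r)` gives `Q2`. -/
def S_BLG : Prop := ∀ (D : ℝ) (l l' N : ℕ), 1 ≤ D → 1 ≤ l → 1 ≤ l' →
  |∑ t ∈ Icc 1 N, T (l * t / D) t * T (l' * t / D) t - ∑ t ∈ Icc 1 N, Q2 (l * t / D) (l' * t / D)| ≤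
    (l * N / D) * (l' * N / D) * ((1 + Real.log (l * N)) * (1 + Real.log (l' * N)))

/-! ## Package SQF (elementary, no input) -/

/-- **CPL**: complementary divisors. For squarefree `n ≥ 2` and real `y > 0`:
`T y n = Λ(n) + μ(n) T (n/y) n`. Proof: `∑_{d ∣ n} μ(d) log (y/d) = Λ(n)` as `n ≥ 2`, and the divisors `d = n/m > y`, that is
`m < n/y`, contribute `∑ μ(n) μ(m) log (y m/n) = - μ(n) T (n/y) n` (a divisor `m = n/y` has `log 1 = 0`). -/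
def S_CPL : Prop := ∀ (n : ℕ) (y : ℝ), Squarefree n → 2 ≤ n → 0 < y →
  T y n = ArithmeticFunction.vonMangoldt n + mu n * T (n / y) n

/-- **SQF** (from CPL). For squarefree `n ≥ 2` the square is `Λ² + 2 μ(n) Λ(n) T(n/D)(n) + T(n/D)(n)²`; the middle term is zero
unless `n = p` is a prime, and then it is `- 2 log p T(p/D)(p)` with `T(p/D)(p) = log (p/D)` for `p > D`, `= 0` for `p ≤ D`. -/
def S_SQF : Prop := ∀ D N : ℕ, 1 ≤ D →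
  ∑ n ∈ (Icc 1 N).filter (fun n : ℕ => Squarefree n), T D n ^ 2 ≤
    ∑ p ∈ (Icc 1 N).filter Nat.Prime, Real.log p ^ 2
      - 2 * ∑ p ∈ (Ioc D N).filter Nat.Prime, Real.log p * Real.log (p / D)
      + ∑ t ∈ Icc 1 N, T (t / D) t ^ 2 + Real.log D ^ 2

/-! ## Package NSQ (from CPL, BLG, QQ) -/

/-- **NSQ**. Proof. For `n` not squarefree let `s = ∏_{p ∣ n} p`, `b = n/s ≥ 2`, `b' = ∏_{p ∣ b} p`, `t = s/b'`: then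
`n = b b' t`, `t` squarefree, `(t, b) = 1`, and `T D n = T D s = ∑_{j ∣ b'} μ(j) T (D/j) t`. The map `n ↦ (b,t)` is injective, so
the sum is at most `∑_{2 ≤ b} ∑_{t ≤ N/(b b'), t sqf, (t,b)=1} (∑_{j ∣ b'} μ(j) T (D/j) t)²`.
`t = 1`: at most `τ(b')² log² D` each, and `#{b : b b' ≤ N} ≤ ∑_b (N/(b b'))^{3/4} ≤ C N^{3/4}`.
`t ≥ 2`: by CPL and `∑_{j ∣ b'} μ(j) = 0` (`b' > 1`): `∑_j μ(j) T (D/j) t = μ(t) ∑_{j ∣ b'} μ(j) T (j t/D) t`.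
(i) `b > w`: square `≤ τ(b') ∑_{j ∣ b'} T(j t/D)(t)²`; by BLG (`l = l' = j`) and Q1 (`Q2 z z ≤ 2 log z + C` for `z ≥ 1`, zero for
`z < 1`) the sum over `t ≤ x = N/(b b')` is at most `x C (1 + log N) + (j x/D)² (1 + log N²)²`, `j x ≤ N/b`. Sum over `b > w`:
`≤ C N (1 + log N) ∑_{b > w} τ(b')²/(b b') + C (N/D)² (1 + log N)² ∑ τ(b')²/b²`; the first series converges
(`∏ (1 + 4/p (1/p + 1/p² + …))`), so its tail is small for large `w`, and `(N/D)² ≤ N^{1-2η}`.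
(ii) `2 ≤ b ≤ w` (finitely many): let `p` be a prime divisor of `b`; `∑_{j ∣ b'} μ(j) T(j t/D)(t) =
∑_{j ∣ b'/p} μ(j) (T(j t/D)(t) - T(p j t/D)(t))`, the mean square over `t ≤ x` of each difference is by BLG
(`(j,j), (j,pj), (pj,pj)`; `q2 y z = Q2 y y - 2 Q2 y z + Q2 z z`) at most `∑_{t ≤ x} q2(p j t/D, j t/D) + O_w((N/D)² log² N)`, and
`q2 (p z) z ≤ ε' log z + C` for `z ≥ 1` by Q2, `≤ C` for `0 < z < 1` (then `a z = 0`, and `p z < p`, Q1). -/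
def S_NSQ : Prop := ∀ ε η : ℝ, 0 < ε → 0 < η → ∃ N0 : ℕ, ∀ N : ℕ, N0 ≤ N → ∀ D : ℕ,
  (N : ℝ) ^ (1 / 2 + η) ≤ D → D ≤ N →
    ∑ n ∈ (Icc 1 N).filter (fun n : ℕ => ¬ Squarefree n), T D n ^ 2 ≤ ε * (N * Real.log N)

/-! ## Package MS (from SQF, NSQ, BLG, QQ) -/

/-- **MS** (Graham's mean value, upper bound, also beyond `√N`). Proof. SQF and NSQ (with `ε/8`). Prime number theorem
(`Pool.Agent.Helper923.PNT`: `theta_div_tendsto`): `∑_{p ≤ N} log² p ≤ log N θ(N) ≤ (1 + ε/8) N log N` and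
`∑_{D < p ≤ N} log p log (p/D) ≥ (log (N/D) - (ε/16) log N) (θ(N) - θ(N^{1-ε/16})) ≥ N (log (N/D) - (ε/8) log N)`
(if `log (N/D) ≤ (ε/16) log N` the sum is `≥ 0`). By BLG (`l = l' = 1`) and Q1
`∑_{t ≤ N} T(t/D)(t)² ≤ N ((1 + ε/8) log (N/D) + C) + (N/D)² (1 + log N)²`. Total: `N log N - 2 N log (N/D) + N log (N/D) + ε N log N`. -/
def S_MS : Prop := ∀ ε η : ℝ, 0 < ε → 0 < η → ∃ N0 : ℕ, ∀ N : ℕ, N0 ≤ N → ∀ D : ℕ,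
  (N : ℝ) ^ (1 / 2 + η) ≤ D → D ≤ N → ∑ n ∈ Icc 1 N, T D n ^ 2 ≤ N * (Real.log D + ε * Real.log N)

/-! ## Package NF (from MS, RAM, QQ) -/

/-- **NF**: norm and correlation with the primes of the test function.
First inequality: RAM (4), MS (with `ε/4`), Q3 (with `ε/4`), `R D (1 + log D)^6 ≤ N^{1-η/2}`.
Second: for a prime `D < p ≤ N`: `T D p = log D` and `c_r(p) = μ(r)` for `r ≤ R ≤ D < p`, so `F D R p = log D - ∑_{r ≤ R} a(D,r) μ(r)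
≥ log D - (1 + ε/4) log R - C` (RAM (1), Q4). The remaining `n` (prime powers `p^j`, `j ≥ 2`, and primes `≤ D`) contribute at
most `(ψ(N) - θ(N) + θ(D)) max |F| ≤ C (√N log N + D) (1 + log N)³ max τ ≤ N^{1-η/2}` (RAM (3), divisor bound), and
`θ(N) - θ(D) ≥ (1 - ε/4) N` by the prime number theorem, `D ≤ N^{1-η}`. -/
def S_NF : Prop := ∀ ε η : ℝ, 0 < ε → 0 < η → ∃ N0 : ℕ, ∀ N : ℕ, N0 ≤ N → ∀ D R : ℕ,
  (N : ℝ) ^ (1 / 2 + η) ≤ D → 1 ≤ R → R ≤ D → (R : ℝ) * D ≤ (N : ℝ) ^ (1 - η) →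
    ∑ n ∈ Icc 1 N, F D R n ^ 2 ≤ N * (Real.log D - Real.log R + ε * Real.log N) ∧
    N * (Real.log D - Real.log R - ε * Real.log N) ≤ ∑ n ∈ Icc 1 N, ArithmeticFunction.vonMangoldt n * F D R n

/-! ## Package VAR (elementary) -/

/-- the off-diagonal part of the correlation in residue classes modulo `k` -/
noncomputable def off (u f : ℕ → ℝ) (k N : ℕ) : ℝ :=
  ∑ n ∈ Icc 1 N, ∑ m ∈ (Icc 1 N).filter (fun m : ℕ => m ≠ n ∧ m ≡ n [MOD k]), u n * f m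

/-- **VAR** (maximal version). Proof. Let `M = 2 N1 + 1`, `ω = e(1/M)`. For `n, N ≤ N1`, `n ≥ 1`:
`1_{n ≤ N} = (1/M) ∑_{j mod M} (∑_{l ≤ N} ω^{j l}) ω^{-j n}`, and `|∑_{l ≤ N} ω^{j l}| ≤ w(j)`, `w(j) = min (N1, 1/(2 ‖j/M‖))`,
`(1/M) ∑_j w(j) ≤ C (1 + log N1)`. So `|off u f k N| ≤ (1/M²) ∑_{j,j'} w(j) w(j') |O_k(j,j')|`, where `O_k(j,j')` is the sum
`∑_{1 ≤ h ≤ N1/K} ∑_± ∑_{n - m = ± h k, n, m ≤ N1} u(n) ω^{-jn} f(m) ω^{-j'm}` (note `k > K`). By Cauchy-Schwarz it is enough to bound, for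
all `j, j'`, `∑_{K < k ≤ 2K} |O_k(j,j')|² ≤ 2 (N1/K) ∑_k ∑_h ∑_± |r(± h k)|² ≤ 2 (N1/K) max_{m ≤ N1} τ(m) ∑_m |r(m)|²`,
`r(m) = ∑_{n - n' = m} u(n) ω^{-jn} f(n') ω^{-j'n'}`, and `∑_m |r(m)|² = (1/M') ∑_{b mod M'} |û(b)|² |f̂(b)|² ≤ M0² ∑ u²` (finite Fourier
transform modulo `M' = 2 N1 + 1`, Parseval; the Fourier transform of `n ↦ f(n) ω^{-j' n}` is one of the sums `∑ f(n) e(n α)`).
The divisor bound is in the library. -/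
def S_VAR : Prop := ∀ η : ℝ, 0 < η → ∃ C : ℝ, 0 < C ∧ ∀ (N1 K : ℕ) (u f : ℕ → ℝ) (M0 : ℝ), 1 ≤ K → 1 ≤ N1 →
  (∀ α : ℝ, ‖∑ n ∈ Icc 1 N1, (f n : ℂ) * e (n * α)‖ ≤ M0) → ∀ N : ℕ → ℕ, (∀ k, N k ≤ N1) →
    ∑ k ∈ Ioc K (2 * K), off u f k (N k) ^ 2 ≤
      C * (N1 : ℝ) ^ η * ((N1 : ℝ) / K) * M0 ^ 2 * ∑ n ∈ Icc 1 N1, u n ^ 2

end Pool.Agent.P8H5.GV
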