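import Mathlib
import Pool.Agent.P8H5.GV.Stm
import Pool.Agent.P8H87.GV.A3
import Pool.Agent.H353R2.Z2

/-! # Package GV/NSQ, final part -/

set_option autoImplicit false

open Finset Filter

namespace Pool.Agent.P8H5.GV.NSQ

/-- the weights `τ(x)³ / x²` -/
noncomputable def hw (x : ℕ) : ℝ := (x.divisors.card : ℝ) ^ 3 / (x : ℝ) ^ 2

theorem hw_nonneg (x : ℕ) : 0 ≤ hw x := by unfold hw; positivity

theorem tau_cube {K : ℝ} (hK : ∀ n : ℕ, n ≠ 0 → (n.divisors.card : ℝ) ≤ K * (n : ℝ) ^ (1 / 6 : ℝ))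
    {x : ℕ} (hx : x ≠ 0) : (x.divisors.card : ℝ) ^ 3 ≤ K ^ 3 * (x : ℝ) ^ (1 / 2 : ℝ) := by
  calc (x.divisors.card : ℝ) ^ 3 ≤ (K * (x : ℝ) ^ (1 / 6 : ℝ)) ^ 3 :=
        pow_le_pow_left₀ (Nat.cast_nonneg _) (hK x hx) 3
    _ = K ^ 3 * (x : ℝ) ^ (1 / 2 : ℝ) := by
        rw [mul_pow, ← Real.rpow_natCast ((x:ℝ) ^ (1 / 6 : ℝ)) 3, ← Real.rpow_mul (Nat.cast_nonneg _)]
        norm_num

theorem hw_summable : Summable hw := by
  obtain ⟨K, hK0, hK⟩ := H353.divisor_bound_real (1 / 6) (by norm_num)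
  have h1 : Summable (fun x : ℕ => K ^ 3 * (x : ℝ) ^ (-(3 / 2) : ℝ)) := by
    apply Summable.mul_left
    exact Real.summable_nat_rpow.2 (by norm_num)
  refine Summable.of_nonneg_of_le hw_nonneg (fun x => ?_) h1
  rcases Nat.eq_zero_or_pos x with h | h
  · subst h
    unfold hw
    simp only [Nat.divisors_zero, card_empty, Nat.cast_zero]
    have : (0:ℝ) ≤ K ^ 3 * (0:ℝ) ^ (-(3 / 2) : ℝ) := by positivity
    simp
  · have hx : (0:ℝ) < x := by exact_mod_cast h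
    unfold hw
    rw [div_le_iff₀ (by positivity)]
    refine (tau_cube hK (by omega)).trans (le_of_eq ?_)
    rw [mul_assoc, ← Real.rpow_natCast (x:ℝ) 2, ← Real.rpow_add hx]
    norm_num

theorem count_single {K : ℝ} (hK0 : 0 < K)
    (hK : ∀ n : ℕ, n ≠ 0 → (n.divisors.card : ℝ) ≤ K * (n : ℝ) ^ (1 / 6 : ℝ)) (N : ℕ) (hN : 1 ≤ N) :
    ∑ x ∈ Icc 2 N, ∑ _g ∈ x.divisors, (if x ^ 2 ≤ N then ((x.divisors.card : ℝ) * Real.log N) ^ 2 else 0) ≤
      K ^ 3 * (N : ℝ) ^ (3 / 4 : ℝ) * Real.log N ^ 2 := by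
  have hN1 : (1:ℝ) ≤ N := by exact_mod_cast hN
  have h1 : ∀ x ∈ Icc 2 N, ∑ _g ∈ x.divisors, (if x ^ 2 ≤ N then ((x.divisors.card : ℝ) * Real.log N) ^ 2 else 0)
      = (if x ^ 2 ≤ N then (x.divisors.card : ℝ) ^ 3 * Real.log N ^ 2 else 0) := by
    intro x _
    rw [sum_const, nsmul_eq_mul]
    split_ifs
    · ring
    · simp
  rw [sum_congr rfl h1, ← sum_filter]
  have h2 : ∀ x ∈ (Icc 2 N).filter (fun x => x ^ 2 ≤ N),
      (x.divisors.card : ℝ) ^ 3 * Real.log N ^ 2 ≤ K ^ 3 * (N:ℝ) ^ (1 / 4 : ℝ) * Real.log N ^ 2 := by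
    intro x hx
    rw [mem_filter, mem_Icc] at hx
    apply mul_le_mul_of_nonneg_right _ (sq_nonneg _)
    refine (tau_cube hK (by omega)).trans ?_
    apply mul_le_mul_of_nonneg_left _ (by positivity)
    have h3 : (x:ℝ) ^ 2 ≤ N := by exact_mod_cast hx.2
    calc (x:ℝ) ^ (1 / 2 : ℝ) = ((x:ℝ) ^ 2) ^ (1 / 4 : ℝ) := by
          rw [← Real.rpow_natCast (x:ℝ) 2, ← Real.rpow_mul (Nat.cast_nonneg _)]
          norm_num
      _ ≤ (N:ℝ) ^ (1 / 4 : ℝ) := Real.rpow_le_rpow (by positivity) h3 (by norm_num)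
  refine (sum_le_sum h2).trans ?_
  rw [sum_const, nsmul_eq_mul]
  have h3 : (((Icc 2 N).filter (fun x => x ^ 2 ≤ N)).card : ℝ) ≤ (N:ℝ) ^ (1 / 2 : ℝ) := by
    have h4 : (Icc 2 N).filter (fun x => x ^ 2 ≤ N) ⊆ Icc 1 (Nat.sqrt N) := by
      intro x hx
      rw [mem_filter, mem_Icc] at hx
      rw [mem_Icc]
      exact ⟨by omega, Nat.le_sqrt'.2 hx.2⟩
    have h5 := card_le_card h4
    rw [Nat.card_Icc, Nat.add_sub_cancel] at h5
    have h6 : ((Nat.sqrt N : ℕ) : ℝ) ≤ (N:ℝ) ^ (1 / 2 : ℝ) := by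
      rw [← Real.sqrt_eq_rpow]
      exact Real.nat_sqrt_le_real_sqrt
    calc (((Icc 2 N).filter (fun x => x ^ 2 ≤ N)).card : ℝ) ≤ (Nat.sqrt N : ℝ) := by exact_mod_cast h5
      _ ≤ _ := h6
  calc (((Icc 2 N).filter (fun x => x ^ 2 ≤ N)).card : ℝ) * (K ^ 3 * (N:ℝ) ^ (1 / 4 : ℝ) * Real.log N ^ 2)
      ≤ (N:ℝ) ^ (1 / 2 : ℝ) * (K ^ 3 * (N:ℝ) ^ (1 / 4 : ℝ) * Real.log N ^ 2) :=
        mul_le_mul_of_nonneg_right h3 (by positivity)
    _ = K ^ 3 * ((N:ℝ) ^ (1 / 2 : ℝ) * (N:ℝ) ^ (1 / 4 : ℝ)) * Real.log N ^ 2 := by ring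
    _ = _ := by
        rw [← Real.rpow_add (by linarith)]
        norm_num

/-- the constant for the small `x` -/
theorem exists_C2 (hQQ : S_QQ) {C1 : ℝ} (hC1 : 0 ≤ C1) (hQ : ∀ z : ℝ, 1 ≤ z → Q2 z z ≤ 2 * Real.log z + C1)
    {δ : ℝ} (hδ : 0 < δ) (w : ℕ) : ∃ C2 : ℝ, 0 ≤ C2 ∧ ∀ p : ℕ, 1 ≤ p → p ≤ w → ∀ N : ℕ, 1 ≤ N →
      ∀ z : ℝ, 0 < z → z ≤ N → q2 (p * z) z ≤ δ * Real.log N + C2 := by
  have h1 : ∀ p : ℕ, ∃ C : ℝ, 1 ≤ p → ∀ z : ℝ, 1 ≤ z → q2 (p * z) z ≤ δ * Real.log z + C := by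
    intro p
    by_cases hp : 1 ≤ p
    · obtain ⟨C, hC⟩ := hQQ.2.1 δ hδ p hp
      exact ⟨C, fun _ => hC⟩
    · exact ⟨0, fun h => absurd h hp⟩
  choose Cf hCf using h1
  have hnn : ∀ p ∈ Icc 1 w, 0 ≤ |Cf p| + 2 * Real.log p + C1 := by
    intro p _
    have := Real.log_natCast_nonneg p
    positivity
  refine ⟨∑ p ∈ Icc 1 w, (|Cf p| + 2 * Real.log p + C1), sum_nonneg hnn, ?_⟩
  intro p hp hpw N hN z hz hzN
  have hN1 : (1:ℝ) ≤ N := by exact_mod_cast hN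
  have hlN := Real.log_nonneg hN1
  have h2 : |Cf p| + 2 * Real.log p + C1 ≤ ∑ p ∈ Icc 1 w, (|Cf p| + 2 * Real.log p + C1) :=
    single_le_sum (f := fun p : ℕ => |Cf p| + 2 * Real.log p + C1) hnn (mem_Icc.2 ⟨hp, hpw⟩)
  have hlp := Real.log_natCast_nonneg p
  have hp1 : (1:ℝ) ≤ p := by exact_mod_cast hp
  rcases lt_or_ge z 1 with h | h
  · rw [q2_small h]
    have h3 : Q2 (p * z) (p * z) ≤ 2 * Real.log p + C1 := by
      rcases lt_or_ge ((p:ℝ) * z) 1 with h4 | h4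
      · rw [Q2_self_zero h4]
        positivity
      · refine (hQ _ h4).trans ?_
        have h5 : Real.log (p * z) ≤ Real.log p := by
          apply Real.log_le_log (by positivity)
          nlinarith
        linarith
    have h6 : 0 ≤ δ * Real.log N := by positivity
    have h7 := abs_nonneg (Cf p)
    linarith
  · have h3 := hCf p hp z h
    have h4 : Real.log z ≤ Real.log N := Real.log_le_log hz hzN
    have h5 : δ * Real.log z ≤ δ * Real.log N := mul_le_mul_of_nonneg_left h4 hδ.le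
    have h7 := le_abs_self (Cf p)
    linarith

theorem main_bound (hC : S_CPL) (hBLG : S_BLG) (hQQ : S_QQ) {δ σ : ℝ} (hδ : 0 < δ) (hσ : 0 < σ) :
    ∃ K Z C : ℝ, 0 < K ∧ Z = ∑' x, hw x + 1 ∧ 0 ≤ C ∧ ∀ N D : ℕ, 1 ≤ D → D ≤ N →
      ∑ n ∈ (Icc 1 N).filter (fun n : ℕ => ¬ Squarefree n), T D n ^ 2 ≤
        K ^ 3 * (N : ℝ) ^ (3 / 4 : ℝ) * Real.log N ^ 2 + Z * (N * (δ * Real.log N + C) + 4 * EE N D)
          + σ * (N * (2 * Real.log N + C) + EE N D) := by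
  obtain ⟨K, hK0, hK⟩ := H353.divisor_bound_real (1 / 6) (by norm_num)
  obtain ⟨C0, hC0⟩ := hQQ.1 1 one_pos
  have hQ : ∀ z : ℝ, 1 ≤ z → Q2 z z ≤ 2 * Real.log z + max C0 0 := by
    intro z hz
    have h1 := hC0 z hz
    have h2 := le_max_left C0 0
    linarith
  obtain ⟨s0, hs0⟩ := summable_iff_vanishing_norm.1 hw_summable σ hσ
  set w := s0.sup id with hw0
  obtain ⟨C2, hC20, hC2⟩ := exists_C2 hQQ (le_max_right C0 0) hQ hδ w
  refine ⟨K, ∑' x, hw x + 1, max C0 0 + C2, hK0, rfl, by positivity, ?_⟩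
  intro N D hD hDN
  have hN : 1 ≤ N := hD.trans hDN
  have hN1 : (1:ℝ) ≤ N := by exact_mod_cast hN
  have hlN := Real.log_nonneg hN1
  have hE := EE_nonneg N D
  set C1 := max C0 0 with hC1def
  have hC1 : 0 ≤ C1 := le_max_right C0 0
  refine (cover hC hD hDN).trans ?_
  have e1 : ∑ x ∈ Icc 2 N, ∑ g ∈ x.divisors, ((if x ^ 2 ≤ N then ((x.divisors.card : ℝ) * Real.log N) ^ 2 else 0)
        + ∑ t ∈ Icc 1 (N / (x ^ 2 * g)), S D x t ^ 2) =
      ∑ x ∈ Icc 2 N, ∑ _g ∈ x.divisors, (if x ^ 2 ≤ N then ((x.divisors.card : ℝ) * Real.log N) ^ 2 else 0)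
      + ∑ x ∈ Icc 2 N, ∑ g ∈ x.divisors, ∑ t ∈ Icc 1 (N / (x ^ 2 * g)), S D x t ^ 2 := by
    rw [← sum_add_distrib]
    apply sum_congr rfl
    intro x _
    rw [← sum_add_distrib]
  rw [e1]
  have hG1 : ∀ x ∈ Icc 2 N, ∑ g ∈ x.divisors, ∑ t ∈ Icc 1 (N / (x ^ 2 * g)), S D x t ^ 2 ≤
      hw x * (N * (2 * Real.log N + C1) + EE N D) := by
    intro x hx
    rw [mem_Icc] at hx
    calc ∑ g ∈ x.divisors, ∑ t ∈ Icc 1 (N / (x ^ 2 * g)), S D x t ^ 2
        ≤ ∑ g ∈ x.divisors, (x.divisors.card : ℝ) ^ 2 * ((N * (2 * Real.log N + C1) + EE N D) / x ^ 2) :=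
          sum_le_sum (fun g hg => large hBLG hC1 hQ hD hN (by omega) (Nat.pos_of_mem_divisors hg) rfl)
      _ = _ := by
          rw [sum_const, nsmul_eq_mul]
          unfold hw
          ring
  have hG2 : ∀ x ∈ Icc 2 N, x ≤ w → ∑ g ∈ x.divisors, ∑ t ∈ Icc 1 (N / (x ^ 2 * g)), S D x t ^ 2 ≤
      hw x * (N * (δ * Real.log N + C2) + 4 * EE N D) := by
    intro x hx hxw
    rw [mem_Icc] at hx
    calc ∑ g ∈ x.divisors, ∑ t ∈ Icc 1 (N / (x ^ 2 * g)), S D x t ^ 2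
        ≤ ∑ g ∈ x.divisors, (x.divisors.card : ℝ) ^ 2 * ((N * (δ * Real.log N + C2) + 4 * EE N D) / x ^ 2) := by
          refine sum_le_sum (fun g hg => small hBLG hC20 hδ.le hD hN hx.1 (Nat.pos_of_mem_divisors hg) rfl ?_)
          exact hC2 x.minFac (Nat.minFac_pos x) ((Nat.minFac_le (by omega)).trans hxw) N hN
      _ = _ := by
          rw [sum_const, nsmul_eq_mul]
          unfold hw
          ring
  have hsplit := sum_filter_add_sum_filter_not (Icc 2 N) (fun x => x ≤ w)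
    (fun x => ∑ g ∈ x.divisors, ∑ t ∈ Icc 1 (N / (x ^ 2 * g)), S D x t ^ 2)
  have hp1 : ∑ x ∈ (Icc 2 N).filter (fun x => x ≤ w), ∑ g ∈ x.divisors, ∑ t ∈ Icc 1 (N / (x ^ 2 * g)), S D x t ^ 2
      ≤ (∑' x, hw x + 1) * (N * (δ * Real.log N + C2) + 4 * EE N D) := by
    calc _ ≤ ∑ x ∈ (Icc 2 N).filter (fun x => x ≤ w), hw x * (N * (δ * Real.log N + C2) + 4 * EE N D) := by
          apply sum_le_sum
          intro x hx
          rw [mem_filter] at hx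
          exact hG2 x hx.1 hx.2
      _ = (∑ x ∈ (Icc 2 N).filter (fun x => x ≤ w), hw x) * (N * (δ * Real.log N + C2) + 4 * EE N D) := by
          rw [sum_mul]
      _ ≤ _ := by
          apply mul_le_mul_of_nonneg_right _ (by positivity)
          have := hw_summable.sum_le_tsum ((Icc 2 N).filter (fun x => x ≤ w)) (fun x _ => hw_nonneg x)
          linarith
  have hp2 : ∑ x ∈ (Icc 2 N).filter (fun x => ¬ x ≤ w), ∑ g ∈ x.divisors, ∑ t ∈ Icc 1 (N / (x ^ 2 * g)), S D x t ^ 2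
      ≤ σ * (N * (2 * Real.log N + C1) + EE N D) := by
    calc _ ≤ ∑ x ∈ (Icc 2 N).filter (fun x => ¬ x ≤ w), hw x * (N * (2 * Real.log N + C1) + EE N D) := by
          apply sum_le_sum
          intro x hx
          rw [mem_filter] at hx
          exact hG1 x hx.1
      _ = (∑ x ∈ (Icc 2 N).filter (fun x => ¬ x ≤ w), hw x) * (N * (2 * Real.log N + C1) + EE N D) := by
          rw [sum_mul]
      _ ≤ _ := by
          apply mul_le_mul_of_nonneg_right _ (by positivity)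
          have hdis : Disjoint ((Icc 2 N).filter (fun x => ¬ x ≤ w)) s0 := by
            rw [Finset.disjoint_left]
            intro x hx hx2
            rw [mem_filter] at hx
            exact hx.2 (Finset.le_sup (f := id) hx2)
          have := hs0 _ hdis
          rw [Real.norm_eq_abs] at this
          exact (le_abs_self _).trans this.le
  have hsingle := count_single hK0 hK N hN
  have hZ : 0 ≤ ∑' x, hw x + 1 := by
    have : 0 ≤ ∑' x, hw x := tsum_nonneg hw_nonneg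
    linarith
  have m1 : (∑' x, hw x + 1) * (N * (δ * Real.log N + C2) + 4 * EE N D) ≤
      (∑' x, hw x + 1) * (N * (δ * Real.log N + (C1 + C2)) + 4 * EE N D) := by
    apply mul_le_mul_of_nonneg_left _ hZ
    have : (N:ℝ) * (δ * Real.log N + C2) ≤ N * (δ * Real.log N + (C1 + C2)) := by
      apply mul_le_mul_of_nonneg_left _ (by linarith)
      linarith
    linarith
  have m2 : σ * (N * (2 * Real.log N + C1) + EE N D) ≤ σ * (N * (2 * Real.log N + (C1 + C2)) + EE N D) := by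
    apply mul_le_mul_of_nonneg_left _ hσ.le
    have : (N:ℝ) * (2 * Real.log N + C1) ≤ N * (2 * Real.log N + (C1 + C2)) := by
      apply mul_le_mul_of_nonneg_left _ (by linarith)
      linarith
    linarith
  linarith

end NSQ

open NSQ in
/-- **NSQ** -/
theorem nsq : S_CPL → S_BLG → S_QQ → S_NSQ := by
  intro hC hBLG hQQ ε η hε hη
  have hZ1 : 0 < ∑' x, hw x + 1 := by
    have : 0 ≤ ∑' x, hw x := tsum_nonneg hw_nonneg
    linarith
  obtain ⟨K, Z, C, hK, hZ, hC0, hmain⟩ := main_bound hC hBLG hQQ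
    (δ := ε / (8 * (∑' x, hw x + 1))) (σ := ε / 16) (by positivity) (by positivity)
  rw [← hZ] at hmain hZ1
  have hlo : ∀ (r : ℝ), 0 < r → ∀ c : ℝ, 0 < c → ∀ᶠ N : ℕ in atTop, Real.log N ≤ c * (N:ℝ) ^ r := by
    intro r hr c hc
    have h1 := (isLittleO_log_rpow_atTop hr).bound hc
    have h2 := tendsto_natCast_atTop_atTop.eventually h1
    filter_upwards [h2] with N hN
    rw [Real.norm_eq_abs, Real.norm_eq_abs, abs_of_nonneg (by positivity : (0:ℝ) ≤ (N:ℝ) ^ r)] at hN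
    exact (le_abs_self _).trans hN
  have hbig : ∀ c : ℝ, ∀ᶠ N : ℕ in atTop, c ≤ Real.log N := by
    intro c
    exact (Real.tendsto_log_atTop.comp tendsto_natCast_atTop_atTop).eventually_ge_atTop c
  have ev1 := hlo (1 / 4) (by norm_num) (ε / (4 * K ^ 3)) (by positivity)
  have ev2 := hlo (2 * η) (by positivity) (ε / (16 * (4 * Z + ε / 16))) (by positivity)
  have ev3 := hbig (4 * (Z * C + ε / 16 * C) / ε)
  have ev4 := hbig 1
  obtain ⟨N0, hN0⟩ := eventually_atTop.1 (ev1.and (ev2.and (ev3.and (ev4.and (eventually_ge_atTop 1)))))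
  refine ⟨N0, ?_⟩
  intro N hN D hDl hDN
  obtain ⟨h1, h2, h3, h4, h5⟩ := hN0 N hN
  have hN1 : (1:ℝ) ≤ N := by exact_mod_cast h5
  have hNp : (0:ℝ) < N := by linarith
  have hD0 : (1:ℝ) ≤ D := by
    refine le_trans ?_ hDl
    exact Real.one_le_rpow hN1 (by positivity)
  have hD1 : 1 ≤ D := by exact_mod_cast hD0
  refine (hmain N D hD1 hDN).trans ?_
  set L := Real.log N with hL
  -- the error
  have hE : EE N D ≤ N * ((N:ℝ) ^ (-(2 * η)) * (1 + L) ^ 2) := by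
    unfold EE
    have e1 : (N:ℝ) / D ≤ (N:ℝ) ^ (1 / 2 - η) := by
      rw [div_le_iff₀ (by linarith)]
      calc (N:ℝ) = (N:ℝ) ^ (1 / 2 - η) * (N:ℝ) ^ (1 / 2 + η) := by
            rw [← Real.rpow_add hNp]
            norm_num
        _ ≤ (N:ℝ) ^ (1 / 2 - η) * D := mul_le_mul_of_nonneg_left hDl (by positivity)
    have e2 : ((N:ℝ) / D) ^ 2 ≤ N * (N:ℝ) ^ (-(2 * η)) := by
      calc ((N:ℝ) / D) ^ 2 ≤ ((N:ℝ) ^ (1 / 2 - η)) ^ 2 := pow_le_pow_left₀ (by positivity) e1 2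
        _ = (N:ℝ) ^ (1 + -(2 * η)) := by
            rw [← Real.rpow_natCast ((N:ℝ) ^ (1 / 2 - η)) 2, ← Real.rpow_mul hNp.le]
            congr 1
            push_cast
            ring
        _ = _ := by rw [Real.rpow_add hNp, Real.rpow_one]
    calc ((N:ℝ) / D) ^ 2 * (1 + L) ^ 2 ≤ N * (N:ℝ) ^ (-(2 * η)) * (1 + L) ^ 2 :=
          mul_le_mul_of_nonneg_right e2 (by positivity)
      _ = _ := by ring
  have hE2 : (4 * Z + ε / 16) * EE N D ≤ ε / 4 * (N * L) := by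
    have f1 : (1 + L) ^ 2 ≤ 4 * L ^ 2 := by nlinarith
    have f2 : 16 * (4 * Z + ε / 16) * L ≤ ε * (N:ℝ) ^ (2 * η) := by
      have : 16 * (4 * Z + ε / 16) * (ε / (16 * (4 * Z + ε / 16)) * (N:ℝ) ^ (2 * η)) = ε * (N:ℝ) ^ (2 * η) := by
        field_simp
      rw [← this]
      exact mul_le_mul_of_nonneg_left h2 (by positivity)
    have f3 : (N:ℝ) ^ (-(2 * η)) * (N:ℝ) ^ (2 * η) = 1 := by
      rw [← Real.rpow_add hNp]
      simp
    have f4 : 0 < (N:ℝ) ^ (-(2 * η)) := by positivity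
    calc (4 * Z + ε / 16) * EE N D ≤ (4 * Z + ε / 16) * (N * ((N:ℝ) ^ (-(2 * η)) * (1 + L) ^ 2)) :=
          mul_le_mul_of_nonneg_left hE (by positivity)
      _ ≤ (4 * Z + ε / 16) * (N * ((N:ℝ) ^ (-(2 * η)) * (4 * L ^ 2))) := by
          apply mul_le_mul_of_nonneg_left _ (by positivity)
          apply mul_le_mul_of_nonneg_left _ hNp.le
          exact mul_le_mul_of_nonneg_left f1 f4.le
      _ = (N * (N:ℝ) ^ (-(2 * η)) * L / 4) * (16 * (4 * Z + ε / 16) * L) := by ring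
      _ ≤ (N * (N:ℝ) ^ (-(2 * η)) * L / 4) * (ε * (N:ℝ) ^ (2 * η)) := by
          apply mul_le_mul_of_nonneg_left f2
          have : 0 ≤ L := by linarith
          positivity
      _ = ε / 4 * (N * L) * ((N:ℝ) ^ (-(2 * η)) * (N:ℝ) ^ (2 * η)) := by ring
      _ = _ := by rw [f3, mul_one]
  have hS : K ^ 3 * (N : ℝ) ^ (3 / 4 : ℝ) * L ^ 2 ≤ ε / 4 * (N * L) := by
    have f1 : K ^ 3 * L ≤ ε / 4 * (N:ℝ) ^ (1 / 4 : ℝ) := by
      have : K ^ 3 * (ε / (4 * K ^ 3) * (N:ℝ) ^ (1 / 4 : ℝ)) = ε / 4 * (N:ℝ) ^ (1 / 4 : ℝ) := by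
        field_simp
      rw [← this]
      exact mul_le_mul_of_nonneg_left h1 (by positivity)
    have f2 : (N:ℝ) ^ (3 / 4 : ℝ) * (N:ℝ) ^ (1 / 4 : ℝ) = N := by
      rw [← Real.rpow_add hNp]
      norm_num
    calc K ^ 3 * (N : ℝ) ^ (3 / 4 : ℝ) * L ^ 2 = ((N : ℝ) ^ (3 / 4 : ℝ) * L) * (K ^ 3 * L) := by ring
      _ ≤ ((N : ℝ) ^ (3 / 4 : ℝ) * L) * (ε / 4 * (N:ℝ) ^ (1 / 4 : ℝ)) := by
          apply mul_le_mul_of_nonneg_left f1
          have : 0 ≤ L := by linarith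
          positivity
      _ = ε / 4 * (((N:ℝ) ^ (3 / 4 : ℝ) * (N:ℝ) ^ (1 / 4 : ℝ)) * L) := by ring
      _ = _ := by rw [f2]
  have hconst : N * (Z * C + ε / 16 * C) ≤ ε / 4 * (N * L) := by
    have f1 : Z * C + ε / 16 * C ≤ ε / 4 * L := by
      have : ε / 4 * (4 * (Z * C + ε / 16 * C) / ε) = Z * C + ε / 16 * C := by
        field_simp
      rw [← this]
      exact mul_le_mul_of_nonneg_left h3 (by positivity)
    calc (N:ℝ) * (Z * C + ε / 16 * C) ≤ N * (ε / 4 * L) := mul_le_mul_of_nonneg_left f1 hNp.le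
      _ = _ := by ring
  have hδZ : Z * (ε / (8 * Z)) = ε / 8 := by field_simp
  have expand : K ^ 3 * (N : ℝ) ^ (3 / 4 : ℝ) * L ^ 2 + Z * (N * (ε / (8 * Z) * L + C) + 4 * EE N D)
          + ε / 16 * (N * (2 * L + C) + EE N D) =
      K ^ 3 * (N : ℝ) ^ (3 / 4 : ℝ) * L ^ 2 + (Z * (ε / (8 * Z))) * (N * L) + ε / 8 * (N * L)
        + N * (Z * C + ε / 16 * C) + (4 * Z + ε / 16) * EE N D := by ring
  rw [expand, hδZ]
  have hNL : 0 ≤ (N:ℝ) * L := by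
    have : 0 ≤ L := by linarith
    positivity
  linarith

end Pool.Agent.P8H5.GV
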