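import Pool.Agent.H343R2.PhiSum
import Pool.Agent.P8H5.GV.Stm

/-!
# Package QQ of project GV: quadratic forms in the Ramanujan coefficients, from COP
-/

set_option autoImplicit false

open Finset

namespace Pool.Agent.P8H5.GV.QQP

/-! ### the sum of `kk` -/

/-- `(1 - p^(-3/4))^(-1) - 1` -/
noncomputable def fp (p : ℕ) : ℝ := (1 - (p : ℝ) ^ (-(3 / 4 : ℝ)))⁻¹ - 1

theorem pow_le {p : ℕ} (hp : 2 ≤ p) : (p : ℝ) ^ (-(3 / 4 : ℝ)) ≤ 2 / 3 := by
  have h1 : (p : ℝ) ^ (-(3 / 4 : ℝ)) ≤ (2 : ℝ) ^ (-(3 / 4 : ℝ)) := by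
    apply Real.rpow_le_rpow_of_nonpos (by norm_num) (by exact_mod_cast hp) (by norm_num)
  have h2 : (2 : ℝ) ^ (-(3 / 4 : ℝ)) ≤ 2 / 3 := by
    have h3 : (0 : ℝ) ≤ (2 : ℝ) ^ (-(3 / 4 : ℝ)) := by positivity
    have h4 : ((2 : ℝ) ^ (-(3 / 4 : ℝ))) ^ 4 = 1 / 8 := by
      rw [← Real.rpow_natCast, ← Real.rpow_mul (by norm_num)]
      norm_num
    by_contra h5
    push Not at h5
    have h6 : ((2 : ℝ) / 3) ^ 4 < ((2 : ℝ) ^ (-(3 / 4 : ℝ))) ^ 4 := by
      apply pow_lt_pow_left₀ h5 (by norm_num) (by norm_num)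
    rw [h4] at h6
    norm_num at h6
  exact h1.trans h2

theorem fp_nonneg {p : ℕ} (hp : 2 ≤ p) : 0 ≤ fp p := by
  have h1 := pow_le hp
  have h2 : (0 : ℝ) ≤ (p : ℝ) ^ (-(3 / 4 : ℝ)) := by positivity
  unfold fp
  have h3 : 1 ≤ (1 - (p : ℝ) ^ (-(3 / 4 : ℝ)))⁻¹ := by
    apply one_le_inv_iff₀.mpr
    constructor <;> linarith
  linarith

theorem fp_le {p : ℕ} (hp : 2 ≤ p) : fp p ≤ 3 * (p : ℝ) ^ (-(3 / 4 : ℝ)) := by
  have h1 := pow_le hp
  have h2 : (0 : ℝ) ≤ (p : ℝ) ^ (-(3 / 4 : ℝ)) := by positivity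
  unfold fp
  set x := (p : ℝ) ^ (-(3 / 4 : ℝ))
  have h3 : 0 < 1 - x := by linarith
  rw [sub_le_iff_le_add, inv_le_iff_one_le_mul₀ h3]
  nlinarith

theorem kk_eq (r : ℕ) : kk r = ∑ t ∈ r.primeFactors.powerset, ∏ p ∈ t, fp p := by
  rw [← Finset.prod_one_add]
  unfold kk fp
  apply prod_congr rfl
  intro p _
  ring

theorem inner (N : ℕ) (t : Finset ℕ) (ht : ∀ p ∈ t, p.Prime) :
    ∑ r ∈ (H343.Mod 0 N).filter (fun r => t ⊆ r.primeFactors), (1 : ℝ) / r ≤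
      (∏ p ∈ t, (1 : ℝ) / p) * ∑ m ∈ Icc 1 N, (1 : ℝ) / m := by
  classical
  set P := ∏ p ∈ t, p with hP
  have hP0 : 0 < P := prod_pos fun p hp => (ht p hp).pos
  have hdvd : ∀ r ∈ (H343.Mod 0 N).filter (fun r => t ⊆ r.primeFactors), P ∣ r := by
    intro r hr
    rw [mem_filter] at hr
    exact (Finset.prod_dvd_prod_of_subset _ _ _ hr.2).trans (Nat.prod_primeFactors_dvd r)
  have hinj : Set.InjOn (fun r => r / P) ((H343.Mod 0 N).filter (fun r => t ⊆ r.primeFactors) : Finset ℕ) := by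
    intro x hx y hy hxy
    simp only at hxy
    rw [← Nat.div_mul_cancel (hdvd x hx), ← Nat.div_mul_cancel (hdvd y hy), hxy]
  have h1 : ∑ r ∈ (H343.Mod 0 N).filter (fun r => t ⊆ r.primeFactors), (1 : ℝ) / r =
      ∑ m ∈ ((H343.Mod 0 N).filter (fun r => t ⊆ r.primeFactors)).image (fun r => r / P),
        (1 : ℝ) / P * (1 / m) := by
    rw [sum_image hinj]
    apply sum_congr rfl
    intro r hr
    rw [one_div_mul_one_div, ← Nat.cast_mul, Nat.mul_div_cancel' (hdvd r hr)]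
  have h2 : (∏ p ∈ t, (1 : ℝ) / p) = 1 / P := by
    rw [hP]
    push_cast
    rw [prod_div_distrib]
    simp
  rw [h1, h2, ← mul_sum]
  apply mul_le_mul_of_nonneg_left _ (by positivity)
  apply sum_le_sum_of_subset_of_nonneg
  · intro m hm
    rw [mem_image] at hm
    obtain ⟨r, hr, rfl⟩ := hm
    have h3 := hdvd r hr
    rw [mem_filter, H343.Mod, mem_filter, mem_Ioc] at hr
    rw [mem_Icc]
    exact ⟨Nat.div_pos (Nat.le_of_dvd hr.1.1.1 h3) hP0, (Nat.div_le_self _ _).trans hr.1.1.2⟩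
  · intro m _ _
    positivity

theorem prod_bound : ∃ C : ℝ, 0 < C ∧ ∀ N : ℕ,
    ∏ p ∈ (Icc 1 N).filter Nat.Prime, (1 + fp p * (1 / p)) ≤ C := by
  have hs : Summable (fun n : ℕ => 3 * (n : ℝ) ^ (-(7 / 4 : ℝ))) :=
    (Real.summable_nat_rpow.mpr (by norm_num)).mul_left 3
  refine ⟨Real.exp (∑' n : ℕ, 3 * (n : ℝ) ^ (-(7 / 4 : ℝ))), Real.exp_pos _, fun N => ?_⟩
  have h1 : ∏ p ∈ (Icc 1 N).filter Nat.Prime, (1 + fp p * (1 / p)) ≤
      ∏ p ∈ (Icc 1 N).filter Nat.Prime, Real.exp (3 * (p : ℝ) ^ (-(7 / 4 : ℝ))) := by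
    apply prod_le_prod
    · intro p hp
      rw [mem_filter] at hp
      have := fp_nonneg hp.2.two_le
      positivity
    · intro p hp
      rw [mem_filter] at hp
      have h2 := fp_le hp.2.two_le
      have hp0 : (0 : ℝ) < p := by exact_mod_cast hp.2.pos
      have h3 : fp p * (1 / p) ≤ 3 * (p : ℝ) ^ (-(7 / 4 : ℝ)) := by
        have h4 : (p : ℝ) ^ (-(7 / 4 : ℝ)) = (p : ℝ) ^ (-(3 / 4 : ℝ)) * (1 / p) := by
          rw [show (-(7 / 4 : ℝ)) = -(3 / 4 : ℝ) + (-1) by norm_num, Real.rpow_add hp0,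
            Real.rpow_neg_one, one_div]
        rw [h4, ← mul_assoc]
        exact mul_le_mul_of_nonneg_right h2 (by positivity)
      have h5 := Real.add_one_le_exp (3 * (p : ℝ) ^ (-(7 / 4 : ℝ)))
      linarith
  refine h1.trans ?_
  rw [← Real.exp_sum]
  apply Real.exp_le_exp.mpr
  exact hs.sum_le_tsum _ (fun n _ => by positivity)

theorem kk_sum : ∃ C : ℝ, 0 < C ∧ ∀ N : ℕ,
    ∑ r ∈ H343.Mod 0 N, kk r * (1 / r) ≤ C * (1 + Real.log N) := by
  classical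
  obtain ⟨C, hC, h⟩ := prod_bound
  refine ⟨C, hC, fun N => ?_⟩
  set PN := (Icc 1 N).filter Nat.Prime with hPN
  have h1 : ∑ r ∈ H343.Mod 0 N, kk r * (1 / r) = ∑ r ∈ H343.Mod 0 N, ∑ t ∈ PN.powerset,
      (if t ⊆ r.primeFactors then (∏ p ∈ t, fp p) * ((1 : ℝ) / r) else 0) := by
    apply sum_congr rfl
    intro r hr
    rw [H343.Mod, mem_filter, mem_Ioc] at hr
    rw [kk_eq, sum_mul, ← sum_filter]
    apply sum_congr _ (fun _ _ => rfl)
    ext t
    simp only [mem_powerset, mem_filter]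
    constructor
    · intro ht
      refine ⟨fun p hp => ?_, ht⟩
      have h2 := ht hp
      rw [Nat.mem_primeFactors] at h2
      rw [hPN, mem_filter, mem_Icc]
      exact ⟨⟨h2.1.pos, (Nat.le_of_dvd hr.1.1 h2.2.1).trans hr.1.2⟩, h2.1⟩
    · exact fun ht => ht.2
  rw [h1, sum_comm]
  have h2 : ∀ t ∈ PN.powerset, ∑ r ∈ H343.Mod 0 N,
      (if t ⊆ r.primeFactors then (∏ p ∈ t, fp p) * ((1 : ℝ) / r) else 0) ≤
        (∏ p ∈ t, fp p * (1 / p)) * ∑ m ∈ Icc 1 N, (1 : ℝ) / m := by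
    intro t ht
    rw [mem_powerset] at ht
    have ht2 : ∀ p ∈ t, p.Prime := fun p hp => by
      have := ht hp
      rw [hPN, mem_filter] at this
      exact this.2
    rw [← sum_filter, ← mul_sum, prod_mul_distrib, mul_assoc]
    apply mul_le_mul_of_nonneg_left (inner N t ht2)
    exact prod_nonneg fun p hp => fp_nonneg (ht2 p hp).two_le
  refine (sum_le_sum h2).trans ?_
  rw [← sum_mul, ← Finset.prod_one_add]
  have h3 : ∑ m ∈ Icc 1 N, (1 : ℝ) / m ≤ 1 + Real.log N := by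
    have h4 := harmonic_le_one_add_log N
    rw [harmonic_eq_sum_Icc] at h4
    push_cast at h4
    simpa [one_div] using h4
  exact mul_le_mul (h N) h3 (sum_nonneg fun m _ => by positivity) hC.le

/-! ### sums of `1 / φ` -/

theorem floor_ge_half {x : ℝ} (hx : 1 ≤ x) : x / 2 ≤ (⌊x⌋₊ : ℝ) := by
  have h1 : (1 : ℝ) ≤ (⌊x⌋₊ : ℝ) := by exact_mod_cast (Nat.one_le_floor_iff x).mpr hx
  have h2 := Nat.lt_floor_add_one x
  linarith

theorem tail : ∃ C : ℝ, 0 < C ∧ ∀ z U : ℝ, 1 ≤ z → 1 ≤ U →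
    H343.LL ⌊z / U⌋₊ ⌊z⌋₊ ≤ Real.log U + C := by
  obtain ⟨C, hC, h⟩ := H343.PhiSum.totient_upper
  refine ⟨C + Real.log 2, add_pos hC (Real.log_pos (by norm_num)), fun z U hz hU => ?_⟩
  have hzf : 1 ≤ ⌊z⌋₊ := (Nat.one_le_floor_iff z).mpr hz
  have hle : ⌊z / U⌋₊ ≤ ⌊z⌋₊ := Nat.floor_mono (div_le_self (by linarith) hU)
  have h1 := h ⌊z⌋₊ hzf
  have h2 := H343.PhiSum.LL_split _ _ hle
  have h3 : Real.log (⌊z⌋₊ : ℝ) ≤ Real.log z :=
    Real.log_le_log (by exact_mod_cast hzf) (Nat.floor_le (by linarith))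
  have hl2 : 0 < Real.log 2 := Real.log_pos (by norm_num)
  rcases Nat.eq_zero_or_pos ⌊z / U⌋₊ with h0 | h0
  · rw [h0] at h2 ⊢
    have h4 : z / U < 1 := by
      rwa [Nat.floor_eq_zero] at h0
    rw [div_lt_one (by linarith)] at h4
    have h5 : Real.log z ≤ Real.log U := Real.log_le_log (by linarith) h4.le
    linarith
  · have h4 := H343.PhiSum.totient_lower _ h0
    have h5 : 1 ≤ z / U := (Nat.one_le_floor_iff _).mp h0
    have h6 := floor_ge_half h5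
    have h7 : Real.log (z / U / 2) ≤ Real.log (⌊z / U⌋₊ : ℝ) :=
      Real.log_le_log (by positivity) h6
    rw [Real.log_div (by positivity) (by norm_num), Real.log_div (by positivity) (by positivity)] at h7
    linarith

/-! ### the coefficients -/

theorem mu_mul (r m : ℕ) : mu (r * m) = if m.Coprime r then mu r * mu m else 0 := by
  unfold mu
  split_ifs with h
  · rw [ArithmeticFunction.isMultiplicative_moebius.map_mul_of_coprime h.symm]
    push_cast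
    ring
  · rw [ArithmeticFunction.moebius_eq_zero_of_not_squarefree]
    · simp
    · intro hsq
      exact h (Nat.coprime_of_squarefree_mul hsq).symm

theorem a_eq (y : ℝ) (r : ℕ) (hr : 1 ≤ r) : a y r = mu r / r * A r (y / r) := by
  have hr0 : (r : ℝ) ≠ 0 := by
    have : r ≠ 0 := by omega
    exact_mod_cast this
  have h1 : (Icc 1 ⌊y⌋₊).filter (fun d : ℕ => r ∣ d) = (Icc 1 ⌊y / r⌋₊).image (fun m => r * m) := by
    rw [Nat.floor_div_natCast]
    ext d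
    simp only [mem_filter, mem_Icc, mem_image]
    constructor
    · rintro ⟨⟨h1, h2⟩, m, rfl⟩
      refine ⟨m, ⟨?_, ?_⟩, rfl⟩
      · rcases Nat.eq_zero_or_pos m with h | h
        · rw [h] at h1
          simp at h1
        · exact h
      · rw [Nat.le_div_iff_mul_le (by omega), mul_comm]
        exact h2
    · rintro ⟨m, ⟨h1, h2⟩, rfl⟩
      rw [Nat.le_div_iff_mul_le (by omega), mul_comm] at h2
      exact ⟨⟨Nat.mul_pos (by omega) h1, h2⟩, dvd_mul_right _ _⟩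
  unfold a A
  rw [h1, sum_image (fun x _ y _ h => Nat.eq_of_mul_eq_mul_left (by omega) h), sum_filter, mul_sum]
  apply sum_congr rfl
  intro m hm
  rw [mem_Icc] at hm
  have hm0 : (m : ℝ) ≠ 0 := by
    have : m ≠ 0 := by omega
    exact_mod_cast this
  rw [mu_mul]
  split_ifs with h
  · push_cast
    rw [show y / ((r : ℝ) * m) = y / r / m by rw [div_div]]
    field_simp
  · simp

/-- the normalised `A` -/
noncomputable def X (r : ℕ) (u : ℝ) : ℝ := A r u * (Nat.totient r : ℝ) / r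

theorem mu_sq {r : ℕ} (h : Squarefree r) : mu r * mu r = 1 := by
  unfold mu
  rcases ArithmeticFunction.moebius_ne_zero_iff_eq_or.mp
    (ArithmeticFunction.moebius_ne_zero_iff_squarefree.mpr h) with h1 | h1 <;> rw [h1] <;> norm_num

theorem mu_zero {r : ℕ} (h : ¬ Squarefree r) : mu r = 0 := by
  unfold mu
  rw [ArithmeticFunction.moebius_eq_zero_of_not_squarefree h]
  simp

theorem a_zero {y : ℝ} {r : ℕ} (hr : 1 ≤ r) (h : ¬ Squarefree r) : a y r = 0 := by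
  rw [a_eq y r hr, mu_zero h]
  simp

theorem a_eq_X (y : ℝ) {r : ℕ} (hr : 1 ≤ r) : a y r = mu r * X r (y / r) * (1 / Nat.totient r) := by
  rw [a_eq y r hr]
  unfold X
  have hr0 : (r : ℝ) ≠ 0 := by
    have : r ≠ 0 := by omega
    exact_mod_cast this
  have hp : (Nat.totient r : ℝ) ≠ 0 := by
    have : Nat.totient r ≠ 0 := (Nat.totient_pos.mpr hr).ne'
    exact_mod_cast this
  field_simp

theorem sum_Mod (N : ℕ) (f : ℕ → ℝ) (h : ∀ r, 1 ≤ r → ¬ Squarefree r → f r = 0) :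
    ∑ r ∈ Icc 1 N, f r = ∑ r ∈ H343.Mod 0 N, f r := by
  symm
  unfold H343.Mod
  apply sum_subset_zero_on_sdiff
  · intro r hr
    rw [mem_filter, mem_Ioc] at hr
    rw [mem_Icc]
    omega
  · intro r hr
    rw [mem_sdiff, mem_Icc, mem_filter, mem_Ioc] at hr
    exact h r hr.1.1 (fun h2 => hr.2 ⟨⟨by omega, hr.1.2⟩, h2⟩)
  · intro r _
    rfl

theorem X_lt {r : ℕ} {u : ℝ} (hu : u < 1) : X r u = 0 := by
  unfold X A
  rw [Nat.floor_eq_zero.mpr hu]
  simp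

theorem mem_Mod {r N : ℕ} : r ∈ H343.Mod 0 N ↔ 1 ≤ r ∧ r ≤ N ∧ Squarefree r := by
  rw [H343.Mod, mem_filter, mem_Ioc]
  constructor
  · rintro ⟨⟨h1, h2⟩, h3⟩
    exact ⟨h1, h2, h3⟩
  · rintro ⟨h1, h2, h3⟩
    exact ⟨⟨h1, h2⟩, h3⟩


/-- the error term -/
noncomputable def E (r : ℕ) (u : ℝ) : ℝ := |X r u - 1|

theorem X_eq_A {r : ℕ} (hr : 1 ≤ r) (u : ℝ) : A r u = X r u * (r / (Nat.totient r : ℝ)) := by
  unfold X
  have hr0 : (r : ℝ) ≠ 0 := by
    have : r ≠ 0 := by omega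
    exact_mod_cast this
  have hp : (Nat.totient r : ℝ) ≠ 0 := by
    have : Nat.totient r ≠ 0 := (Nat.totient_pos.mpr hr).ne'
    exact_mod_cast this
  field_simp

theorem kk_nonneg (r : ℕ) : 0 ≤ kk r := by
  unfold kk
  apply prod_nonneg
  intro p hp
  have h1 := pow_le (Nat.prime_of_mem_primeFactors hp).two_le
  apply inv_nonneg.mpr
  linarith

/-- COP in terms of `X` -/
theorem cop_X (h : S_COP) : (∃ C : ℝ, 0 < C ∧ ∀ r : ℕ, 1 ≤ r → ∀ u : ℝ, |X r u| ≤ C) ∧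
    ∀ ε : ℝ, 0 < ε → ∃ C : ℝ, 0 < C ∧ ∀ r : ℕ, 1 ≤ r → ∀ u : ℝ, 1 ≤ u →
      E r u * (1 / (Nat.totient r : ℝ)) ≤ ε * (1 / (Nat.totient r : ℝ)) + C * u ^ (-(1 / 8 : ℝ)) * (kk r * (1 / r)) := by
  obtain ⟨⟨C, hC, h1⟩, h2⟩ := h
  have hpos : ∀ r : ℕ, 1 ≤ r → 0 < (r : ℝ) / (Nat.totient r : ℝ) := by
    intro r hr
    have h3 : (0 : ℝ) < r := by exact_mod_cast hr
    have h4 : (0 : ℝ) < Nat.totient r := by exact_mod_cast Nat.totient_pos.mpr hr
    positivity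
  constructor
  · refine ⟨C, hC, fun r hr u => ?_⟩
    rcases lt_or_ge u 1 with hu | hu
    · rw [X_lt hu]
      simpa using hC.le
    · have h3 := h1 r hr u hu
      rw [X_eq_A hr, abs_mul, abs_of_pos (hpos r hr)] at h3
      exact le_of_mul_le_mul_right h3 (hpos r hr)
  · intro ε hε
    obtain ⟨K, hK, h3⟩ := h2 ε hε
    refine ⟨K, hK, fun r hr u hu => ?_⟩
    have h4 := h3 r hr u hu
    have hr0 : (0 : ℝ) < r := by exact_mod_cast hr
    have h5 : A r u - r / (Nat.totient r : ℝ) = (X r u - 1) * (r / (Nat.totient r : ℝ)) := by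
      rw [X_eq_A hr]
      ring
    rw [h5, abs_mul, abs_of_pos (hpos r hr)] at h4
    have h6 := mul_le_mul_of_nonneg_right h4 (by positivity : (0 : ℝ) ≤ 1 / r)
    have h7 : |X r u - 1| * (r / (Nat.totient r : ℝ)) * (1 / r) = E r u * (1 / (Nat.totient r : ℝ)) := by
      unfold E
      field_simp
    have h8 : (ε * (r / (Nat.totient r : ℝ)) + K * u ^ (-(1 / 8 : ℝ)) * kk r) * (1 / r) =
        ε * (1 / (Nat.totient r : ℝ)) + K * u ^ (-(1 / 8 : ℝ)) * (kk r * (1 / r)) := by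
      field_simp
    rw [h7, h8] at h6
    exact h6

/-- the main error lemma -/
theorem err (h : S_COP) (ε : ℝ) (hε : 0 < ε) : ∃ K : ℝ, ∀ (z : ℝ) (R : ℕ), 1 ≤ R → (R : ℝ) ≤ z →
    ∑ r ∈ H343.Mod 0 R, E r (z / r) * (1 / (Nat.totient r : ℝ)) ≤ ε * Real.log R + K := by
  obtain ⟨⟨C1, hC1, h1⟩, h2⟩ := cop_X h
  obtain ⟨C2, hC2, h2⟩ := h2 (ε / 2) (by linarith)
  obtain ⟨CK, hCK, h3⟩ := kk_sum
  obtain ⟨CT, hCT, h4⟩ := tail
  obtain ⟨C0, hC0, h5⟩ := H343.PhiSum.totient_upper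
  set U : ℝ := (1 + 2 * C2 * CK / ε) ^ (8 : ℝ) with hU
  have hb : 1 ≤ 1 + 2 * C2 * CK / ε := by
    have : 0 ≤ 2 * C2 * CK / ε := by positivity
    linarith
  have hU1 : 1 ≤ U := Real.one_le_rpow hb (by norm_num)
  have hU2 : C2 * U ^ (-(1 / 8 : ℝ)) * CK ≤ ε / 2 := by
    rw [hU, ← Real.rpow_mul (by linarith), show (8 : ℝ) * -(1 / 8) = -1 by norm_num, Real.rpow_neg_one]
    have h6 : 0 < 1 + 2 * C2 * CK / ε := by linarith
    rw [mul_right_comm, ← div_eq_mul_inv, div_le_iff₀ h6]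
    have h7 : ε / 2 * (1 + 2 * C2 * CK / ε) = ε / 2 + C2 * CK := by field_simp
    rw [h7]
    linarith
  refine ⟨ε / 2 * C0 + ε / 2 + (C1 + 1) * (Real.log U + CT), fun z R hR hz => ?_⟩
  have hR1 : (1 : ℝ) ≤ R := by exact_mod_cast hR
  have hterm : ∀ r ∈ H343.Mod 0 R, E r (z / r) * (1 / (Nat.totient r : ℝ)) ≤
      ε / 2 * (1 / (Nat.totient r : ℝ)) + C2 * U ^ (-(1 / 8 : ℝ)) * (kk r * (1 / r)) +
        (C1 + 1) * (if ⌊z / U⌋₊ < r then 1 / (Nat.totient r : ℝ) else 0) := by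
    intro r hr
    rw [mem_Mod] at hr
    have hr0 : (0 : ℝ) < r := by exact_mod_cast hr.1
    have hrR : (r : ℝ) ≤ R := by exact_mod_cast hr.2.1
    have hz1 : 1 ≤ z / r := by
      rw [le_div_iff₀ hr0]
      linarith
    have hk : 0 ≤ kk r * (1 / (r : ℝ)) := mul_nonneg (kk_nonneg r) (by positivity)
    have hUp : 0 ≤ C2 * U ^ (-(1 / 8 : ℝ)) := by positivity
    have hph : 0 ≤ 1 / (Nat.totient r : ℝ) := by positivity
    split_ifs with hc
    · have h6 : E r (z / r) ≤ C1 + 1 := by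
        unfold E
        have h7 := h1 r hr.1 (z / r)
        rw [abs_le] at h7 ⊢
        constructor <;> linarith
      have h7 := mul_le_mul_of_nonneg_right h6 hph
      have h8 : 0 ≤ ε / 2 * (1 / (Nat.totient r : ℝ)) := by positivity
      have h9 := mul_nonneg hUp hk
      linarith
    · have h6 := h2 r hr.1 (z / r) hz1
      have h7 : U ≤ z / r := by
        push Not at hc
        have h8 : (r : ℝ) ≤ z / U := (Nat.cast_le.mpr hc).trans (Nat.floor_le (by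
          apply div_nonneg <;> linarith))
        rw [le_div_iff₀ (by linarith)] at h8
        rw [le_div_iff₀ hr0]
        linarith
      have h8 : (z / r) ^ (-(1 / 8 : ℝ)) ≤ U ^ (-(1 / 8 : ℝ)) :=
        Real.rpow_le_rpow_of_nonpos (by linarith) h7 (by norm_num)
      have h9 := mul_le_mul_of_nonneg_right (mul_le_mul_of_nonneg_left h8 hC2.le) hk
      linarith
  refine (sum_le_sum hterm).trans ?_
  rw [sum_add_distrib, sum_add_distrib, ← mul_sum, ← mul_sum, ← mul_sum]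
  have h6 : ∑ r ∈ H343.Mod 0 R, (1 / (Nat.totient r : ℝ)) ≤ Real.log R + C0 := h5 R hR
  have h7 := h3 R
  have h8 : ∑ r ∈ H343.Mod 0 R, (if ⌊z / U⌋₊ < r then 1 / (Nat.totient r : ℝ) else 0) ≤ Real.log U + CT := by
    refine le_trans ?_ (h4 z U (by linarith) hU1)
    rw [← sum_filter]
    unfold H343.LL
    apply sum_le_sum_of_subset_of_nonneg
    · intro r hr
      rw [mem_filter, mem_Mod] at hr
      rw [H343.Mod, mem_filter, mem_Ioc]
      exact ⟨⟨hr.2, hr.1.2.1.trans (Nat.le_floor hz)⟩, hr.1.2.2⟩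
    · intro r _ _
      positivity
  have h9 := mul_le_mul_of_nonneg_left h6 (by positivity : 0 ≤ ε / 2)
  have h10 := mul_le_mul_of_nonneg_left h7 (by positivity : 0 ≤ C2 * U ^ (-(1 / 8 : ℝ)))
  have h11 := mul_le_mul_of_nonneg_left h8 (by positivity : 0 ≤ C1 + 1)
  have hlog : 0 ≤ Real.log R := Real.log_natCast_nonneg R
  have h12 := mul_le_mul_of_nonneg_right hU2 (by linarith : 0 ≤ 1 + Real.log R)
  have h13 : C2 * U ^ (-(1 / 8 : ℝ)) * (CK * (1 + Real.log R)) =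
    C2 * U ^ (-(1 / 8 : ℝ)) * CK * (1 + Real.log R) := by ring
  rw [h13] at h10
  linarith

/-! ### the four parts -/

theorem phi_a_a {y z : ℝ} {r : ℕ} (hr : 1 ≤ r) (hs : Squarefree r) :
    (Nat.totient r : ℝ) * a y r * a z r = X r (y / r) * X r (z / r) * (1 / (Nat.totient r : ℝ)) := by
  rw [a_eq_X y hr, a_eq_X z hr]
  have hp : (Nat.totient r : ℝ) ≠ 0 := by
    have : Nat.totient r ≠ 0 := (Nat.totient_pos.mpr hr).ne'
    exact_mod_cast this
  have h1 := mu_sq hs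
  calc (Nat.totient r : ℝ) * (mu r * X r (y / r) * (1 / Nat.totient r)) * (mu r * X r (z / r) * (1 / Nat.totient r))
      = (mu r * mu r) * (X r (y / r) * X r (z / r)) * ((Nat.totient r : ℝ) * (1 / Nat.totient r) * (1 / Nat.totient r)) := by
        ring
    _ = _ := by
        rw [h1, mul_one_div_cancel hp]
        ring

theorem q1 (h : S_COP) : ∀ ε : ℝ, 0 < ε → ∃ C : ℝ, ∀ z : ℝ, 1 ≤ z → Q2 z z ≤ (1 + ε) * Real.log z + C := by
  intro ε hε
  obtain ⟨⟨C1, hC1, h1⟩, -⟩ := cop_X h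
  obtain ⟨K, hK⟩ := err h (ε / (C1 + 3)) (by positivity)
  obtain ⟨C0, hC0, h5⟩ := H343.PhiSum.totient_upper
  refine ⟨C0 + (C1 + 3) * K, fun z hz => ?_⟩
  have hR : 1 ≤ ⌊z⌋₊ := (Nat.one_le_floor_iff z).mpr hz
  have hR2 : (⌊z⌋₊ : ℝ) ≤ z := Nat.floor_le (by linarith)
  unfold Q2
  rw [max_self, sum_Mod _ _ (fun r hr hs => by rw [a_zero hr hs]; simp)]
  have h2 : ∀ r ∈ H343.Mod 0 ⌊z⌋₊, (Nat.totient r : ℝ) * a z r * a z r ≤
      1 / (Nat.totient r : ℝ) + (C1 + 3) * (E r (z / r) * (1 / (Nat.totient r : ℝ))) := by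
    intro r hr
    rw [mem_Mod] at hr
    rw [phi_a_a hr.1 hr.2.2]
    have h3 := h1 r hr.1 (z / r)
    have h4 : X r (z / r) * X r (z / r) ≤ 1 + (C1 + 3) * E r (z / r) := by
      have h6 : 0 ≤ E r (z / r) := abs_nonneg _
      have h7 : X r (z / r) ≤ 1 + E r (z / r) := by
        have := le_abs_self (X r (z / r) - 1)
        unfold E
        linarith
      have h8 : E r (z / r) ≤ C1 + 1 := by
        unfold E
        rw [abs_le] at h3 ⊢
        constructor <;> linarith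
      have h9 : |X r (z / r)| ≤ 1 + E r (z / r) := by
        have h10 := abs_add_le (X r (z / r) - 1) 1
        rw [sub_add_cancel, abs_one] at h10
        unfold E
        linarith
      have h10 : X r (z / r) * X r (z / r) = |X r (z / r)| * |X r (z / r)| := by
        rw [← abs_mul_abs_self]
      rw [h10]
      have h11 := mul_le_mul h9 h9 (abs_nonneg _) (by linarith)
      nlinarith
    have h6 := mul_le_mul_of_nonneg_right h4 (by positivity : 0 ≤ 1 / (Nat.totient r : ℝ))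
    linarith
  refine (sum_le_sum h2).trans ?_
  rw [sum_add_distrib, ← mul_sum]
  have h6 : ∑ r ∈ H343.Mod 0 ⌊z⌋₊, (1 / (Nat.totient r : ℝ)) ≤ Real.log (⌊z⌋₊ : ℝ) + C0 := h5 _ hR
  have h7 := mul_le_mul_of_nonneg_left (hK z _ hR hR2) (by positivity : 0 ≤ C1 + 3)
  have h8 : Real.log (⌊z⌋₊ : ℝ) ≤ Real.log z := Real.log_le_log (by exact_mod_cast hR) hR2
  have h9 : (C1 + 3) * (ε / (C1 + 3) * Real.log (⌊z⌋₊ : ℝ) + K) = ε * Real.log (⌊z⌋₊ : ℝ) + (C1 + 3) * K := by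
    field_simp
  have h10 := mul_le_mul_of_nonneg_left h8 hε.le
  rw [h9] at h7
  linarith

theorem q3 (h : S_COP) : ∀ ε : ℝ, 0 < ε → ∃ C : ℝ, ∀ D R : ℕ, 1 ≤ R → R ≤ D →
    (1 - ε) * Real.log R - C ≤ ∑ r ∈ Icc 1 R, (Nat.totient r : ℝ) * a D r ^ 2 := by
  intro ε hε
  obtain ⟨K, hK⟩ := err h (ε / 2) (by positivity)
  refine ⟨2 * K, fun D R hR hRD => ?_⟩
  rw [sum_Mod _ _ (fun r hr hs => by rw [a_zero hr hs]; simp)]
  have h2 : ∀ r ∈ H343.Mod 0 R, 1 / (Nat.totient r : ℝ) - 2 * (E r ((D : ℝ) / r) * (1 / (Nat.totient r : ℝ))) ≤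
      (Nat.totient r : ℝ) * a D r ^ 2 := by
    intro r hr
    rw [mem_Mod] at hr
    rw [pow_two, ← mul_assoc (Nat.totient r : ℝ) (a D r) (a D r), phi_a_a hr.1 hr.2.2]
    have h4 : 1 - 2 * E r ((D : ℝ) / r) ≤ X r ((D : ℝ) / r) * X r ((D : ℝ) / r) := by
      have h6 := neg_abs_le (X r ((D : ℝ) / r) - 1)
      unfold E
      nlinarith [sq_nonneg (X r ((D : ℝ) / r) - 1)]
    have h6 := mul_le_mul_of_nonneg_right h4 (by positivity : 0 ≤ 1 / (Nat.totient r : ℝ))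
    linarith
  refine le_trans ?_ (sum_le_sum h2)
  rw [sum_sub_distrib, ← mul_sum]
  have h6 : Real.log (R : ℝ) ≤ ∑ r ∈ H343.Mod 0 R, (1 / (Nat.totient r : ℝ)) := H343.PhiSum.totient_lower R hR
  have h7 := hK (D : ℝ) R hR (by exact_mod_cast hRD)
  linarith

theorem q4 (h : S_COP) : ∀ ε : ℝ, 0 < ε → ∃ C : ℝ, ∀ D R : ℕ, 1 ≤ R → R ≤ D →
    ∑ r ∈ Icc 1 R, a D r * mu r ≤ (1 + ε) * Real.log R + C := by
  intro ε hε
  obtain ⟨K, hK⟩ := err h ε hε
  obtain ⟨C0, hC0, h5⟩ := H343.PhiSum.totient_upper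
  refine ⟨C0 + K, fun D R hR hRD => ?_⟩
  rw [sum_Mod _ _ (fun r hr hs => by rw [a_zero hr hs]; simp)]
  have h2 : ∀ r ∈ H343.Mod 0 R, a D r * mu r ≤
      1 / (Nat.totient r : ℝ) + (E r ((D : ℝ) / r) * (1 / (Nat.totient r : ℝ))) := by
    intro r hr
    rw [mem_Mod] at hr
    rw [a_eq_X _ hr.1]
    have h3 : mu r * X r ((D : ℝ) / r) * (1 / (Nat.totient r : ℝ)) * mu r =
        (mu r * mu r) * (X r ((D : ℝ) / r) * (1 / (Nat.totient r : ℝ))) := by ring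
    rw [h3, mu_sq hr.2.2, one_mul]
    have h4 : X r ((D : ℝ) / r) ≤ 1 + E r ((D : ℝ) / r) := by
      have := le_abs_self (X r ((D : ℝ) / r) - 1)
      unfold E
      linarith
    have h6 := mul_le_mul_of_nonneg_right h4 (by positivity : 0 ≤ 1 / (Nat.totient r : ℝ))
    linarith
  refine (sum_le_sum h2).trans ?_
  rw [sum_add_distrib]
  have h6 : ∑ r ∈ H343.Mod 0 R, (1 / (Nat.totient r : ℝ)) ≤ Real.log (R : ℝ) + C0 := h5 _ hR
  have h7 := hK (D : ℝ) R hR (by exact_mod_cast hRD)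
  linarith

theorem q2_bound (h : S_COP) : ∀ ε : ℝ, 0 < ε → ∀ p : ℕ, 1 ≤ p → ∃ C : ℝ, ∀ z : ℝ, 1 ≤ z →
    q2 (p * z) z ≤ ε * Real.log z + C := by
  intro ε hε p hp
  obtain ⟨⟨C1, hC1, h1⟩, -⟩ := cop_X h
  obtain ⟨K, hK⟩ := err h (ε / (4 * (C1 + 1))) (by positivity)
  obtain ⟨CT, hCT, h4⟩ := tail
  have hp1 : (1 : ℝ) ≤ p := by exact_mod_cast hp
  refine ⟨4 * (C1 + 1) * K + C1 ^ 2 * (Real.log p + CT), fun z hz => ?_⟩
  have hR : 1 ≤ ⌊z⌋₊ := (Nat.one_le_floor_iff z).mpr hz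
  have hR2 : (⌊z⌋₊ : ℝ) ≤ z := Nat.floor_le (by linarith)
  have hpz : z ≤ p * z := by nlinarith
  have hle : ⌊z⌋₊ ≤ ⌊(p : ℝ) * z⌋₊ := Nat.floor_mono hpz
  unfold q2
  rw [max_eq_left hle, sum_Mod _ _ (fun r hr hs => by rw [a_zero hr hs, a_zero hr hs]; simp)]
  have hid : ∀ r : ℕ, 1 ≤ r → Squarefree r → (Nat.totient r : ℝ) * (a ((p : ℝ) * z) r - a z r) ^ 2 =
      (X r ((p : ℝ) * z / r) - X r (z / r)) ^ 2 * (1 / (Nat.totient r : ℝ)) := by
    intro r hr hs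
    have e1 := phi_a_a (y := (p : ℝ) * z) (z := (p : ℝ) * z) hr hs
    have e2 := phi_a_a (y := (p : ℝ) * z) (z := z) hr hs
    have e3 := phi_a_a (y := z) (z := z) hr hs
    calc (Nat.totient r : ℝ) * (a ((p : ℝ) * z) r - a z r) ^ 2
        = (Nat.totient r : ℝ) * a ((p : ℝ) * z) r * a ((p : ℝ) * z) r
          - 2 * ((Nat.totient r : ℝ) * a ((p : ℝ) * z) r * a z r) + (Nat.totient r : ℝ) * a z r * a z r := by ring
      _ = _ := by
        rw [e1, e2, e3]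
        ring
  have h2 : ∀ r ∈ H343.Mod 0 ⌊(p : ℝ) * z⌋₊, (Nat.totient r : ℝ) * (a ((p : ℝ) * z) r - a z r) ^ 2 ≤
      (if r ≤ ⌊z⌋₊ then 2 * (C1 + 1) * (E r ((p : ℝ) * z / r) * (1 / (Nat.totient r : ℝ))
        + E r (z / r) * (1 / (Nat.totient r : ℝ))) else 0) +
      (if ⌊z⌋₊ < r then C1 ^ 2 * (1 / (Nat.totient r : ℝ)) else 0) := by
    intro r hr
    rw [mem_Mod] at hr
    rw [hid r hr.1 hr.2.2]
    have hph : 0 ≤ 1 / (Nat.totient r : ℝ) := by positivity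
    have b1 := h1 r hr.1 ((p : ℝ) * z / r)
    have b2 := h1 r hr.1 (z / r)
    rcases Nat.lt_or_ge ⌊z⌋₊ r with hc | hc
    · rw [if_neg (by omega), if_pos hc, zero_add]
      apply mul_le_mul_of_nonneg_right _ hph
      have hr0 : (0 : ℝ) < r := by exact_mod_cast hr.1
      have h6 : z / r < 1 := by
        rw [div_lt_one hr0]
        exact (Nat.floor_lt (by linarith)).mp hc
      rw [X_lt h6, sub_zero]
      exact sq_le_sq' (by linarith [(abs_le.mp b1).1]) (abs_le.mp b1).2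
    · rw [if_pos hc, if_neg (by omega), add_zero]
      have h6 : (X r ((p : ℝ) * z / r) - X r (z / r)) ^ 2 ≤
          2 * (C1 + 1) * (E r ((p : ℝ) * z / r) + E r (z / r)) := by
        have h7 : |X r ((p : ℝ) * z / r) - X r (z / r)| ≤ E r ((p : ℝ) * z / r) + E r (z / r) := by
          have := abs_sub_le (X r ((p : ℝ) * z / r)) 1 (X r (z / r))
          rw [abs_sub_comm 1 (X r (z / r))] at this
          exact this
        have h8 : |X r ((p : ℝ) * z / r) - X r (z / r)| ≤ 2 * (C1 + 1) := by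
          have := abs_sub (X r ((p : ℝ) * z / r)) (X r (z / r))
          linarith
        rw [← sq_abs, pow_two]
        exact mul_le_mul h8 h7 (abs_nonneg _) (by positivity)
      have h7 := mul_le_mul_of_nonneg_right h6 hph
      calc _ ≤ _ := h7
        _ = _ := by ring
  refine (sum_le_sum h2).trans ?_
  rw [sum_add_distrib, ← sum_filter, ← sum_filter, ← mul_sum, ← mul_sum]
  have f1 : (H343.Mod 0 ⌊(p : ℝ) * z⌋₊).filter (fun r => r ≤ ⌊z⌋₊) = H343.Mod 0 ⌊z⌋₊ := by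
    ext r
    rw [mem_filter, mem_Mod, mem_Mod]
    constructor
    · rintro ⟨⟨a1, a2, a3⟩, a4⟩
      exact ⟨a1, a4, a3⟩
    · rintro ⟨a1, a2, a3⟩
      exact ⟨⟨a1, a2.trans hle, a3⟩, a2⟩
  have f2 : (H343.Mod 0 ⌊(p : ℝ) * z⌋₊).filter (fun r => ⌊z⌋₊ < r) = H343.Mod ⌊z⌋₊ ⌊(p : ℝ) * z⌋₊ := by
    ext r
    rw [mem_filter, mem_Mod, H343.Mod, mem_filter, mem_Ioc]
    constructor
    · rintro ⟨⟨a1, a2, a3⟩, a4⟩
      exact ⟨⟨a4, a2⟩, a3⟩
    · rintro ⟨⟨a1, a2⟩, a3⟩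
      exact ⟨⟨by omega, a2, a3⟩, a1⟩
  rw [f1, f2, sum_add_distrib]
  have g1 := hK z _ hR hR2
  have g2 := hK ((p : ℝ) * z) _ hR (hR2.trans hpz)
  have g3 : ∑ r ∈ H343.Mod ⌊z⌋₊ ⌊(p : ℝ) * z⌋₊, (1 / (Nat.totient r : ℝ)) ≤ Real.log p + CT := by
    have := h4 ((p : ℝ) * z) p (by linarith) hp1
    rw [mul_div_cancel_left₀ _ (by linarith)] at this
    exact this
  have g4 := mul_le_mul_of_nonneg_left (add_le_add g2 g1) (by positivity : 0 ≤ 2 * (C1 + 1))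
  have g5 := mul_le_mul_of_nonneg_left g3 (by positivity : 0 ≤ C1 ^ 2)
  have g6 : 2 * (C1 + 1) * (ε / (4 * (C1 + 1)) * Real.log (⌊z⌋₊ : ℝ) + K + (ε / (4 * (C1 + 1)) * Real.log (⌊z⌋₊ : ℝ) + K)) =
      ε * Real.log (⌊z⌋₊ : ℝ) + 4 * (C1 + 1) * K := by
    field_simp
    ring
  rw [g6] at g4
  have h8 : Real.log (⌊z⌋₊ : ℝ) ≤ Real.log z := Real.log_le_log (by exact_mod_cast hR) hR2
  have h10 := mul_le_mul_of_nonneg_left h8 hε.le
  linarith

/-- **package QQ** -/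
theorem qq (h : S_COP) : S_QQ := ⟨q1 h, q2_bound h, q3 h, q4 h⟩

end Pool.Agent.P8H5.GV.QQP

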