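import Pool.Agent.P8H5.GV.Stm
import Pool.Agent.H510R2.Div

/-!
# Package VAR of project GV (helper15): the maximal mean square bound for off-diagonal correlations
-/

set_option autoImplicit false

open Finset

namespace Pool.Agent.P8H5.GV.VAR

theorem e_add (x y : ℝ) : e (x + y) = e x * e y := by
  unfold e; rw [← Complex.exp_add]; congr 1; push_cast; ring

theorem e_zero : e 0 = 1 := by simp [e]

theorem e_eq (x : ℝ) : e x = Complex.exp (((2 * Real.pi * x : ℝ) : ℂ) * Complex.I) := by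
  unfold e; congr 1; push_cast; ring

theorem e_norm (x : ℝ) : ‖e x‖ = 1 := by
  rw [e_eq, Complex.norm_exp_ofReal_mul_I]

theorem e_conj (x : ℝ) : (starRingEnd ℂ) (e x) = e (-x) := by
  rw [e_eq, e_eq, ← Complex.exp_conj]
  congr 1
  rw [map_mul, Complex.conj_ofReal, Complex.conj_I]
  push_cast; ring

theorem e_int (n : ℤ) : e (n : ℝ) = 1 := by
  unfold e
  rw [Complex.exp_eq_one_iff]
  exact ⟨n, by push_cast; ring⟩

theorem e_pow (x : ℝ) (b : ℕ) : e (b * x) = e x ^ b := by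
  induction b with
  | zero => simp [e_zero]
  | succ n ih => rw [pow_succ, ← ih, ← e_add]; congr 1; push_cast; ring

theorem e_eq_one {x : ℝ} (h : e x = 1) : ∃ n : ℤ, x = n := by
  unfold e at h
  rw [Complex.exp_eq_one_iff] at h
  obtain ⟨n, hn⟩ := h
  refine ⟨n, ?_⟩
  have h2 : (2 * Real.pi * Complex.I : ℂ) ≠ 0 := by
    simp [Real.pi_ne_zero]
  have h3 : (x : ℂ) = n := by
    have : (2 * Real.pi * Complex.I : ℂ) * x = (2 * Real.pi * Complex.I : ℂ) * n := by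
      rw [hn]; ring
    exact mul_left_cancel₀ h2 this
  exact_mod_cast h3

theorem orth (M : ℕ) (hM : 0 < M) (a : ℤ) (ha : |a| < M) :
    ∑ b ∈ range M, e (b * (a / M)) = if a = 0 then (M : ℂ) else 0 := by
  have hM' : (M : ℝ) ≠ 0 := by positivity
  by_cases h0 : a = 0
  · subst h0; simp [e_zero]
  · rw [if_neg h0]
    simp_rw [e_pow]
    have hne : e ((a : ℝ) / M) ≠ 1 := by
      intro h
      obtain ⟨n, hn⟩ := e_eq_one h
      rw [div_eq_iff hM'] at hn
      have hn' : a = n * M := by exact_mod_cast hn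
      rcases eq_or_ne n 0 with h1 | h1
      · apply h0; rw [hn', h1, zero_mul]
      · have : (M : ℤ) ≤ |a| := by
          rw [hn', abs_mul, Nat.abs_cast]
          have : 1 ≤ |n| := Int.one_le_abs h1
          nlinarith [this, (Int.natCast_nonneg M : (0:ℤ) ≤ M)]
        omega
    rw [geom_sum_eq hne, ← e_pow]
    have : (M : ℝ) * ((a : ℝ) / M) = ((a : ℤ) : ℝ) := by field_simp
    rw [this, e_int]
    simp

theorem parseval (M : ℕ) (hM : 0 < M) (c : ℕ → ℂ) :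
    ∑ b ∈ range M, ‖∑ n ∈ range M, c n * e (b * (n / M))‖ ^ 2 = M * ∑ n ∈ range M, ‖c n‖ ^ 2 := by
  have key : ((∑ b ∈ range M, ‖∑ n ∈ range M, c n * e (b * (n / M))‖ ^ 2 : ℝ) : ℂ) =
      ((M * ∑ n ∈ range M, ‖c n‖ ^ 2 : ℝ) : ℂ) := by
    push_cast
    have h1 : ∀ b ∈ range M, ((‖∑ n ∈ range M, c n * e (b * (n / M))‖ : ℝ) : ℂ) ^ 2 =
        ∑ n ∈ range M, ∑ m ∈ range M, c n * (starRingEnd ℂ) (c m) * e (b * (((n : ℤ) - (m : ℤ) : ℤ) / M)) := by
      intro b _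
      rw [← Complex.mul_conj', map_sum, sum_mul_sum]
      refine sum_congr rfl fun n _ => sum_congr rfl fun m _ => ?_
      rw [map_mul, e_conj]
      have : (b : ℝ) * ((((n : ℤ) - (m : ℤ) : ℤ) : ℝ) / M) = b * (n / M) + -(b * (m / M)) := by
        push_cast; ring
      rw [this, e_add]; ring
    rw [sum_congr rfl h1, sum_comm]
    rw [mul_sum]
    refine sum_congr rfl fun n hn => ?_
    rw [sum_comm]
    have h2 : ∀ m ∈ range M, ∑ b ∈ range M, c n * (starRingEnd ℂ) (c m) *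
        e (b * (((n : ℤ) - (m : ℤ) : ℤ) / M)) = if n = m then M * ((‖c n‖ : ℝ) : ℂ) ^ 2 else 0 := by
      intro m hm
      rw [mem_range] at hn hm
      rw [← mul_sum, orth M hM _ (by rw [abs_lt]; constructor <;> omega)]
      by_cases h : n = m
      · subst h; simp only [sub_self, if_true, ← Complex.mul_conj']; ring
      · rw [if_neg h, if_neg (by omega), mul_zero]
    rw [sum_congr rfl h2]
    rw [sum_ite_eq, if_pos hn]
  exact_mod_cast key

/-- the correlations at the difference `t - N1` -/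
noncomputable def r (N1 : ℕ) (U F : ℕ → ℂ) (t : ℕ) : ℂ :=
  ∑ n ∈ Icc 1 N1, ∑ m ∈ Icc 1 N1, if n + N1 = t + m then U n * F m else 0

theorem sum_r_sq (N1 : ℕ) (U F : ℕ → ℂ) (M0 : ℝ)
    (hF : ∀ α : ℝ, ‖∑ m ∈ Icc 1 N1, F m * e (m * α)‖ ≤ M0) :
    ∑ t ∈ range (2 * N1 + 1), ‖r N1 U F t‖ ^ 2 ≤ M0 ^ 2 * ∑ n ∈ Icc 1 N1, ‖U n‖ ^ 2 := by
  set M : ℕ := 2 * N1 + 1 with hMdef
  have hM : 0 < M := by omega
  have hM' : (0 : ℝ) < M := by exact_mod_cast hM
  have hM0 : 0 ≤ M0 := (norm_nonneg _).trans (hF 0)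
  have hft : ∀ b : ℕ, ∑ t ∈ range M, r N1 U F t * e (b * (t / M)) =
      e (b * (N1 / M)) * (∑ n ∈ Icc 1 N1, U n * e (b * (n / M))) *
        (∑ m ∈ Icc 1 N1, F m * e (m * (-(b / M)))) := by
    intro b
    have h1 : ∀ t ∈ range M, r N1 U F t * e (b * (t / M)) =
        ∑ n ∈ Icc 1 N1, ∑ m ∈ Icc 1 N1, if n + N1 = t + m then U n * F m * e (b * (t / M)) else 0 := by
      intro t _
      unfold r
      rw [sum_mul]
      refine sum_congr rfl fun n _ => ?_
      rw [sum_mul]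
      refine sum_congr rfl fun m _ => ?_
      split_ifs <;> simp
    rw [sum_congr rfl h1, sum_comm]
    rw [mul_assoc, sum_mul_sum, mul_sum]
    refine sum_congr rfl fun n hn => ?_
    rw [sum_comm, mul_sum]
    refine sum_congr rfl fun m hm => ?_
    rw [mem_Icc] at hn hm
    have h2 : ∀ t ∈ range M, (if n + N1 = t + m then U n * F m * e (b * (t / M)) else 0) =
        if n + N1 - m = t then U n * F m * e (b * (t / M)) else 0 := by
      intro t _
      by_cases h : n + N1 = t + m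
      · rw [if_pos h, if_pos (by omega)]
      · rw [if_neg h, if_neg (by omega)]
    rw [sum_congr rfl h2, sum_ite_eq, if_pos (by rw [mem_range]; omega)]
    have h3 : (b : ℝ) * (((n + N1 - m : ℕ) : ℝ) / M) = b * (N1 / M) + b * (n / M) + m * (-(b / M)) := by
      rw [Nat.cast_sub (by omega)]; push_cast; ring
    rw [h3, e_add, e_add]; ring
  have h4 := parseval M hM (r N1 U F)
  have h5 := parseval M hM (fun n => if n ∈ Icc 1 N1 then U n else 0)
  have h6 : ∀ b ∈ range M, ‖∑ t ∈ range M, r N1 U F t * e (b * (t / M))‖ ^ 2 ≤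
      M0 ^ 2 * ‖∑ n ∈ range M, (if n ∈ Icc 1 N1 then U n else 0) * e (b * (n / M))‖ ^ 2 := by
    intro b _
    rw [hft, norm_mul, norm_mul, e_norm, one_mul]
    have h7 : ∑ n ∈ range M, (if n ∈ Icc 1 N1 then U n else 0) * e (b * (n / M)) =
        ∑ n ∈ Icc 1 N1, U n * e (b * (n / M)) := by
      have hsub : Icc 1 N1 ⊆ range M := by
        intro n hn; rw [mem_Icc] at hn; rw [mem_range]; omega
      rw [← sum_subset hsub]
      · exact sum_congr rfl fun n hn => by rw [if_pos hn]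
      · intro n _ hn; rw [if_neg hn, zero_mul]
    rw [h7, mul_pow, mul_comm]
    apply mul_le_mul_of_nonneg_right _ (by positivity)
    exact pow_le_pow_left₀ (norm_nonneg _) (hF _) 2
  have h8 : (M : ℝ) * ∑ t ∈ range M, ‖r N1 U F t‖ ^ 2 ≤ M0 ^ 2 * (M * ∑ n ∈ Icc 1 N1, ‖U n‖ ^ 2) := by
    rw [← h4]
    refine (sum_le_sum h6).trans ?_
    rw [← mul_sum, h5]
    apply le_of_eq
    congr 2
    have hsub : Icc 1 N1 ⊆ range M := by
      intro n hn; rw [mem_Icc] at hn; rw [mem_range]; omega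
    rw [← sum_subset hsub]
    · exact sum_congr rfl fun n hn => by rw [if_pos hn]
    · intro n _ hn; rw [if_neg hn]; simp
  have h9 : (M : ℝ) * ∑ t ∈ range M, ‖r N1 U F t‖ ^ 2 ≤ M * (M0 ^ 2 * ∑ n ∈ Icc 1 N1, ‖U n‖ ^ 2) := by
    linarith
  exact le_of_mul_le_mul_left h9 hM'

/-- the off-diagonal sum in residue classes, complex weights -/
noncomputable def O (N1 : ℕ) (U F : ℕ → ℂ) (k : ℕ) : ℂ :=
  ∑ n ∈ Icc 1 N1, ∑ m ∈ Icc 1 N1, if m ≠ n ∧ m ≡ n [MOD k] then U n * F m else 0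

/-- the shifted differences divisible by `k` -/
def S (N1 k : ℕ) : Finset ℕ := (range (2 * N1 + 1)).filter (fun t => t ≠ N1 ∧ (k : ℤ) ∣ (N1 : ℤ) - t)

theorem O_eq (N1 : ℕ) (U F : ℕ → ℂ) (k : ℕ) : O N1 U F k = ∑ t ∈ S N1 k, r N1 U F t := by
  unfold O r
  symm
  rw [sum_comm]
  refine sum_congr rfl fun n hn => ?_
  rw [sum_comm]
  refine sum_congr rfl fun m hm => ?_
  rw [mem_Icc] at hn hm
  have h2 : ∀ t ∈ S N1 k, (if n + N1 = t + m then U n * F m else 0) =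
      if n + N1 - m = t then U n * F m else 0 := by
    intro t _
    by_cases h : n + N1 = t + m
    · rw [if_pos h, if_pos (by omega)]
    · rw [if_neg h, if_neg (by omega)]
  rw [sum_congr rfl h2, sum_ite_eq]
  have h3 : (n + N1 - m ∈ S N1 k) ↔ (m ≠ n ∧ m ≡ n [MOD k]) := by
    unfold S
    rw [mem_filter, mem_range, Nat.modEq_iff_dvd]
    have h4 : (N1 : ℤ) - ((n + N1 - m : ℕ) : ℤ) = -((n : ℤ) - m) := by
      rw [Nat.cast_sub (by omega)]; push_cast; ring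
    rw [h4, dvd_neg]
    constructor
    · rintro ⟨_, h5, h6⟩; exact ⟨by omega, h6⟩
    · rintro ⟨h5, h6⟩; exact ⟨by omega, by omega, h6⟩
  by_cases h : m ≠ n ∧ m ≡ n [MOD k]
  · rw [if_pos h, if_pos (h3.mpr h)]
  · rw [if_neg h, if_neg (fun h' => h (h3.mp h'))]

theorem card_S (N1 k : ℕ) (hk : 0 < k) : (S N1 k).card ≤ 2 * (N1 / k) := by
  have hsub : S N1 k ⊆ (Icc 1 (N1 / k)).image (fun i => N1 + i * k) ∪
      (Icc 1 (N1 / k)).image (fun i => N1 - i * k) := by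
    intro t ht
    unfold S at ht
    rw [mem_filter, mem_range] at ht
    obtain ⟨h1, h2, h3⟩ := ht
    rw [mem_union, mem_image, mem_image]
    rcases lt_or_gt_of_ne h2 with h4 | h4
    · right
      have h5 : k ∣ N1 - t := by
        have : ((N1 - t : ℕ) : ℤ) = (N1 : ℤ) - t := by rw [Nat.cast_sub (by omega)]
        rw [← this] at h3
        exact_mod_cast h3
      obtain ⟨i, hi⟩ := h5
      refine ⟨i, ?_, ?_⟩
      · rw [mem_Icc]
        constructor
        · by_contra h; have : i = 0 := by omega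
          rw [this] at hi; omega
        · rw [Nat.le_div_iff_mul_le hk]
          have : i * k = k * i := mul_comm _ _
          omega
      · have : i * k = k * i := mul_comm _ _
        omega
    · left
      have h5 : k ∣ t - N1 := by
        have : ((t - N1 : ℕ) : ℤ) = -((N1 : ℤ) - t) := by rw [Nat.cast_sub (by omega)]; ring
        have h6 : (k : ℤ) ∣ ((t - N1 : ℕ) : ℤ) := by rw [this]; exact (dvd_neg).mpr h3
        exact_mod_cast h6
      obtain ⟨i, hi⟩ := h5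
      refine ⟨i, ?_, ?_⟩
      · rw [mem_Icc]
        constructor
        · by_contra h; have : i = 0 := by omega
          rw [this] at hi; omega
        · rw [Nat.le_div_iff_mul_le hk]
          have : i * k = k * i := mul_comm _ _
          omega
      · have : i * k = k * i := mul_comm _ _
        omega
  refine (card_le_card hsub).trans ((card_union_le _ _).trans ?_)
  have h1 := card_image_le (s := Icc 1 (N1 / k)) (f := fun i => N1 + i * k)
  have h2 := card_image_le (s := Icc 1 (N1 / k)) (f := fun i => N1 - i * k)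
  rw [Nat.card_Icc] at h1 h2
  omega

theorem sum_O_sq (N1 K : ℕ) (hK : 1 ≤ K) (U F : ℕ → ℂ) (M0 T : ℝ)
    (hF : ∀ α : ℝ, ‖∑ m ∈ Icc 1 N1, F m * e (m * α)‖ ≤ M0)
    (hT : ∀ h : ℕ, 1 ≤ h → h ≤ N1 → (h.divisors.card : ℝ) ≤ T) (hT0 : 0 ≤ T) :
    ∑ k ∈ Ioc K (2 * K), ‖O N1 U F k‖ ^ 2 ≤
      2 * ((N1 : ℝ) / K) * T * (M0 ^ 2 * ∑ n ∈ Icc 1 N1, ‖U n‖ ^ 2) := by
  have hK' : (0 : ℝ) < K := by exact_mod_cast hK
  have h1 : ∀ k ∈ Ioc K (2 * K), ‖O N1 U F k‖ ^ 2 ≤
      2 * ((N1 : ℝ) / K) * ∑ t ∈ S N1 k, ‖r N1 U F t‖ ^ 2 := by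
    intro k hk
    rw [mem_Ioc] at hk
    rw [O_eq]
    have h2 : ‖∑ t ∈ S N1 k, r N1 U F t‖ ^ 2 ≤ (∑ t ∈ S N1 k, ‖r N1 U F t‖) ^ 2 :=
      pow_le_pow_left₀ (norm_nonneg _) (norm_sum_le _ _) 2
    have h3 : (∑ t ∈ S N1 k, ‖r N1 U F t‖) ^ 2 ≤ (S N1 k).card * ∑ t ∈ S N1 k, ‖r N1 U F t‖ ^ 2 :=
      sq_sum_le_card_mul_sum_sq
    refine h2.trans (h3.trans ?_)
    apply mul_le_mul_of_nonneg_right _ (sum_nonneg fun _ _ => by positivity)
    have h4 : ((S N1 k).card : ℝ) ≤ 2 * ((N1 / k : ℕ) : ℝ) := by exact_mod_cast card_S N1 k (by omega)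
    have h5 : ((N1 / k : ℕ) : ℝ) ≤ (N1 : ℝ) / k := Nat.cast_div_le
    have h6 : (N1 : ℝ) / k ≤ (N1 : ℝ) / K := by
      apply div_le_div_of_nonneg_left (by positivity) hK'
      exact_mod_cast hk.1.le
    linarith
  refine (sum_le_sum h1).trans ?_
  rw [← mul_sum, mul_assoc (2 * ((N1 : ℝ) / K)) T]
  apply mul_le_mul_of_nonneg_left _ (by positivity)
  have h7 : ∑ k ∈ Ioc K (2 * K), ∑ t ∈ S N1 k, ‖r N1 U F t‖ ^ 2 ≤
      ∑ t ∈ range (2 * N1 + 1), T * ‖r N1 U F t‖ ^ 2 := by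
    unfold S
    simp_rw [sum_filter]
    rw [sum_comm]
    refine sum_le_sum fun t ht => ?_
    rw [mem_range] at ht
    rw [← sum_filter, sum_const, nsmul_eq_mul]
    apply mul_le_mul_of_nonneg_right _ (by positivity)
    by_cases htN : t = N1
    · rw [filter_false_of_mem (fun k _ => by simp [htN])]
      simpa using hT0
    · set h : ℕ := ((N1 : ℤ) - t).natAbs with hh
      have hsub : (Ioc K (2 * K)).filter (fun k : ℕ => t ≠ N1 ∧ (k : ℤ) ∣ (N1 : ℤ) - t) ⊆ h.divisors := by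
        intro k hk
        rw [mem_filter] at hk
        rw [Nat.mem_divisors]
        exact ⟨Int.natCast_dvd.mp hk.2.2, by omega⟩
      have := card_le_card hsub
      refine le_trans (by exact_mod_cast this) (hT h (by omega) (by omega))
  refine h7.trans ?_
  rw [← mul_sum]
  exact mul_le_mul_of_nonneg_left (sum_r_sq N1 U F M0 hF) hT0

/-! ### completion -/

/-- the Dirichlet sums -/
noncomputable def D (M j N : ℕ) : ℂ := ∑ l ∈ Icc 1 N, e (j * (l / M))

theorem indicator_eq (M N1 N n : ℕ) (hM : N1 < M) (hN : N ≤ N1) (hn : n ∈ Icc 1 N1) :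
    (∑ j ∈ range M, D M j N * e (-(j * (n / M)))) = if n ≤ N then (M : ℂ) else 0 := by
  rw [mem_Icc] at hn
  have h1 : ∀ j ∈ range M, D M j N * e (-(j * (n / M))) =
      ∑ l ∈ Icc 1 N, e (j * ((((l : ℤ) - (n : ℤ) : ℤ) : ℝ) / M)) := by
    intro j _
    unfold D
    rw [sum_mul]
    refine sum_congr rfl fun l _ => ?_
    rw [← e_add]
    congr 1
    push_cast; ring
  rw [sum_congr rfl h1, sum_comm]
  have h2 : ∀ l ∈ Icc 1 N, ∑ j ∈ range M, e (j * ((((l : ℤ) - (n : ℤ) : ℤ) : ℝ) / M)) =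
      if n = l then (M : ℂ) else 0 := by
    intro l hl
    rw [mem_Icc] at hl
    rw [orth M (by omega) _ (by rw [abs_lt]; constructor <;> omega)]
    by_cases h : n = l
    · rw [if_pos h, if_pos (by omega)]
    · rw [if_neg h, if_neg (by omega)]
  rw [sum_congr rfl h2, sum_ite_eq]
  by_cases h : n ≤ N
  · rw [if_pos h, if_pos (by rw [mem_Icc]; omega)]
  · rw [if_neg h, if_neg (by rw [mem_Icc]; omega)]

theorem D_mul (M j N : ℕ) : (e ((j : ℝ) / M) - 1) * D M j N = e ((j : ℝ) / M) ^ (N + 1) - e ((j : ℝ) / M) := by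
  unfold D
  have h1 : ∀ l : ℕ, e (j * ((l : ℝ) / M)) = e ((j : ℝ) / M) ^ l := by
    intro l
    rw [← e_pow]
    congr 1
    ring
  simp_rw [h1]
  induction N with
  | zero => simp
  | succ n ih =>
    rw [Finset.sum_Icc_succ_top (by omega), mul_add, ih]
    ring

theorem norm_e_sub_one (x : ℝ) : ‖e x - 1‖ = ‖2 * Real.sin (Real.pi * x)‖ := by
  have h := Complex.norm_exp_I_mul_ofReal_sub_one (2 * Real.pi * x)
  have h1 : e x = Complex.exp (Complex.I * ((2 * Real.pi * x : ℝ) : ℂ)) := by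
    rw [e_eq]; congr 1; ring
  rw [h1, h]
  congr 3
  ring

theorem sin_lower (x : ℝ) (hx : 0 < x) (hx1 : x < 1) :
    1 ≤ Real.sin (Real.pi * x) * (1 / 2 * (1 / x + 1 / (1 - x))) := by
  have h1x : 0 < 1 - x := by linarith
  rcases le_total x (1 / 2) with h | h
  · have h1 : 2 / Real.pi * (Real.pi * x) ≤ Real.sin (Real.pi * x) :=
      Real.mul_le_sin (by positivity) (by nlinarith [Real.pi_pos])
    have h2 : 2 / Real.pi * (Real.pi * x) = 2 * x := by field_simp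
    rw [h2] at h1
    have h3 : (2 * x) * (1 / 2 * (1 / x)) = 1 := by field_simp
    have h4 : (0 : ℝ) ≤ 1 / (1 - x) := by positivity
    have h5 : (0 : ℝ) < 1 / x := by positivity
    calc (1 : ℝ) = (2 * x) * (1 / 2 * (1 / x)) := h3.symm
      _ ≤ Real.sin (Real.pi * x) * (1 / 2 * (1 / x + 1 / (1 - x))) := by
        apply mul_le_mul h1 _ (by positivity) (by linarith)
        linarith
  · have h1 : 2 / Real.pi * (Real.pi * (1 - x)) ≤ Real.sin (Real.pi * (1 - x)) :=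
      Real.mul_le_sin (by positivity) (by nlinarith [Real.pi_pos])
    have h2 : 2 / Real.pi * (Real.pi * (1 - x)) = 2 * (1 - x) := by field_simp
    have h6 : Real.sin (Real.pi * (1 - x)) = Real.sin (Real.pi * x) := by
      rw [← Real.sin_pi_sub]; congr 1; ring
    rw [h2, h6] at h1
    have h3 : (2 * (1 - x)) * (1 / 2 * (1 / (1 - x))) = 1 := by field_simp
    have h4 : (0 : ℝ) < 1 / (1 - x) := by positivity
    have h5 : (0 : ℝ) < 1 / x := by positivity
    calc (1 : ℝ) = (2 * (1 - x)) * (1 / 2 * (1 / (1 - x))) := h3.symm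
      _ ≤ Real.sin (Real.pi * x) * (1 / 2 * (1 / x + 1 / (1 - x))) := by
        apply mul_le_mul h1 _ (by positivity) (by linarith)
        linarith

theorem D_bound (M j N : ℕ) (hj : 0 < j) (hjM : j < M) :
    ‖D M j N‖ ≤ (M : ℝ) / 2 * (1 / j + 1 / ((M : ℝ) - j)) := by
  have hj' : (0 : ℝ) < j := by exact_mod_cast hj
  have hM' : (j : ℝ) < M := by exact_mod_cast hjM
  have hM0 : (0 : ℝ) < M := by linarith
  set x : ℝ := (j : ℝ) / M with hx
  have hx0 : 0 < x := by positivity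
  have hx1 : x < 1 := by rw [hx, div_lt_one hM0]; exact hM'
  have h1 : ‖e x - 1‖ * ‖D M j N‖ ≤ 2 := by
    rw [← norm_mul, D_mul]
    refine (norm_sub_le _ _).trans ?_
    rw [norm_pow, e_norm]; norm_num
  rw [norm_e_sub_one, Real.norm_eq_abs, abs_mul, abs_of_nonneg (by norm_num : (0:ℝ) ≤ 2)] at h1
  have h2 := sin_lower x hx0 hx1
  have h3 : (M : ℝ) / 2 * (1 / j + 1 / ((M : ℝ) - j)) = 1 / 2 * (1 / x + 1 / (1 - x)) := by
    have h4 : (1 - x) = ((M : ℝ) - j) / M := by rw [hx]; field_simp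
    have h5 : ((M : ℝ) - j) ≠ 0 := by linarith
    rw [h4, hx]
    field_simp
  rw [h3]
  have h6 : Real.sin (Real.pi * x) ≤ |Real.sin (Real.pi * x)| := le_abs_self _
  set y := 1 / 2 * (1 / x + 1 / (1 - x)) with hy
  have hy0 : 0 ≤ y := by
    have : 0 < 1 - x := by linarith
    positivity
  calc ‖D M j N‖ = ‖D M j N‖ * 1 := by ring
    _ ≤ ‖D M j N‖ * (Real.sin (Real.pi * x) * y) := by gcongr
    _ ≤ ‖D M j N‖ * (|Real.sin (Real.pi * x)| * y) := by gcongr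
    _ = (2 * |Real.sin (Real.pi * x)| * ‖D M j N‖) * y / 2 := by ring
    _ ≤ 2 * y / 2 := by gcongr
    _ = y := by ring

/-- weights bounding the Dirichlet sums -/
noncomputable def w (N1 j : ℕ) : ℝ :=
  if j = 0 then (N1 : ℝ) else ((2 * N1 + 1 : ℕ) : ℝ) / 2 * (1 / j + 1 / (((2 * N1 + 1 : ℕ) : ℝ) - j))

theorem D_le_w (N1 j N : ℕ) (hN : N ≤ N1) (hj : j < 2 * N1 + 1) : ‖D (2 * N1 + 1) j N‖ ≤ w N1 j := by
  unfold w
  split_ifs with h
  · subst h
    unfold D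
    refine (norm_sum_le _ _).trans ?_
    simp_rw [e_norm]
    rw [sum_const, Nat.card_Icc, nsmul_eq_mul, mul_one]
    have : N + 1 - 1 ≤ N1 := by omega
    exact_mod_cast this
  · exact D_bound _ _ _ (by omega) hj

theorem w_nonneg (N1 j : ℕ) (hj : j < 2 * N1 + 1) : 0 ≤ w N1 j :=
  (norm_nonneg _).trans (D_le_w N1 j 0 (by omega) hj)

theorem sum_w (N1 : ℕ) (hN1 : 1 ≤ N1) :
    ∑ j ∈ range (2 * N1 + 1), w N1 j ≤ ((2 * N1 + 1 : ℕ) : ℝ) * (3 + Real.log N1) := by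
  set m := 2 * N1 with hm
  set M : ℝ := ((m + 1 : ℕ) : ℝ) with hM
  have hM0 : 0 < M := by rw [hM]; positivity
  rw [sum_range_succ']
  have h1 : ∀ i ∈ range m, w N1 (i + 1) = M / 2 * (1 / ((i : ℝ) + 1)) + M / 2 * (1 / (((m - 1 - i : ℕ) : ℝ) + 1)) := by
    intro i hi
    rw [mem_range] at hi
    unfold w
    rw [if_neg (by omega), ← hm, ← hM, mul_add]
    have h2 : (((m - 1 - i : ℕ) : ℝ) + 1) = M - ((i + 1 : ℕ) : ℝ) := by
      have : ((m - 1 - i : ℕ) : ℝ) + 1 + ((i + 1 : ℕ) : ℝ) = M := by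
        rw [hM]
        have h3 : m - 1 - i + 1 + (i + 1) = m + 1 := by omega
        exact_mod_cast h3
      linarith
    rw [h2]
    push_cast
    rfl
  rw [sum_congr rfl h1, sum_add_distrib, ← mul_sum, ← mul_sum,
    sum_range_reflect (fun i : ℕ => 1 / ((i : ℝ) + 1)) m]
  have h4 : ∑ i ∈ range m, 1 / ((i : ℝ) + 1) = ((harmonic m : ℚ) : ℝ) := by
    unfold harmonic
    push_cast
    exact sum_congr rfl fun i _ => by rw [one_div]
  have h5 := harmonic_le_one_add_log m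
  rw [h4]
  have h6 : w N1 0 = N1 := by unfold w; simp
  rw [h6]
  have h7 : Real.log m ≤ 1 + Real.log N1 := by
    have hN : (0 : ℝ) < N1 := by exact_mod_cast hN1
    rw [hm]; push_cast
    rw [Real.log_mul (by norm_num) hN.ne']
    have := Real.log_two_lt_d9
    linarith
  have h8 : (N1 : ℝ) ≤ M := by
    rw [hM, hm]; push_cast
    have : (0 : ℝ) ≤ N1 := by positivity
    linarith
  have h9 : M * ((harmonic m : ℚ) : ℝ) ≤ M * (2 + Real.log N1) := by
    apply mul_le_mul_of_nonneg_left _ hM0.le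
    linarith
  linarith

/-! ### bilinearity and assembly -/

theorem O_congr (N1 : ℕ) (U U' F F' : ℕ → ℂ) (k : ℕ) (hU : ∀ n ∈ Icc 1 N1, U n = U' n)
    (hF : ∀ n ∈ Icc 1 N1, F n = F' n) : O N1 U F k = O N1 U' F' k := by
  unfold O
  refine sum_congr rfl fun n hn => sum_congr rfl fun m hm => ?_
  rw [hU n hn, hF m hm]

theorem O_sum_left (N1 : ℕ) (s : Finset ℕ) (a : ℕ → ℂ) (U : ℕ → ℕ → ℂ) (F : ℕ → ℂ) (k : ℕ) :
    O N1 (fun n => ∑ j ∈ s, a j * U j n) F k = ∑ j ∈ s, a j * O N1 (U j) F k := by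
  unfold O
  simp_rw [mul_sum]
  rw [sum_comm]
  rw [sum_comm (s := s)]
  rw [sum_comm]
  refine sum_congr rfl fun n _ => ?_
  rw [sum_comm]
  refine sum_congr rfl fun m _ => ?_
  split_ifs
  · rw [sum_mul]; exact sum_congr rfl fun j _ => by ring
  · simp

theorem O_sum_right (N1 : ℕ) (s : Finset ℕ) (a : ℕ → ℂ) (U : ℕ → ℂ) (F : ℕ → ℕ → ℂ) (k : ℕ) :
    O N1 U (fun n => ∑ j ∈ s, a j * F j n) k = ∑ j ∈ s, a j * O N1 U (F j) k := by
  unfold O
  simp_rw [mul_sum]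
  rw [sum_comm (s := s)]
  refine sum_congr rfl fun n _ => ?_
  rw [sum_comm (s := s)]
  refine sum_congr rfl fun m _ => ?_
  split_ifs
  · exact sum_congr rfl fun j _ => by ring
  · simp

theorem off_eq (u f : ℕ → ℝ) (N1 N k : ℕ) (hN : N ≤ N1) :
    ((off u f k N : ℝ) : ℂ) = O N1 (fun n => if n ≤ N then (u n : ℂ) else 0)
      (fun n => if n ≤ N then (f n : ℂ) else 0) k := by
  unfold off O
  push_cast
  have hsub : Icc 1 N ⊆ Icc 1 N1 := Icc_subset_Icc_right hN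
  rw [← sum_subset hsub]
  · refine sum_congr rfl fun n hn => ?_
    rw [mem_Icc] at hn
    rw [sum_filter, ← sum_subset hsub]
    · refine sum_congr rfl fun m hm => ?_
      rw [mem_Icc] at hm
      rw [if_pos hn.2, if_pos hm.2]
    · intro m _ hm
      have : ¬ m ≤ N := by
        intro h; apply hm; rw [mem_Icc] at *; omega
      simp [this]
  · intro n _ hn
    have : ¬ n ≤ N := by
      intro h; apply hn; rw [mem_Icc] at *; omega
    simp [this]

theorem completed (u f : ℕ → ℝ) (N1 N k : ℕ) (hN : N ≤ N1) :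
    (((2 * N1 + 1 : ℕ) : ℂ)) ^ 2 * ((off u f k N : ℝ) : ℂ) =
      ∑ j ∈ range (2 * N1 + 1), D (2 * N1 + 1) j N * ∑ j' ∈ range (2 * N1 + 1), D (2 * N1 + 1) j' N *
        O N1 (fun n => (u n : ℂ) * e (-(j * (n / ((2 * N1 + 1 : ℕ) : ℝ)))))
          (fun n => (f n : ℂ) * e (-(j' * (n / ((2 * N1 + 1 : ℕ) : ℝ))))) k := by
  set M : ℕ := 2 * N1 + 1 with hM
  have h1 : ∀ g : ℕ → ℝ, ∀ n ∈ Icc 1 N1, (∑ j ∈ range M, D M j N * ((g n : ℂ) * e (-(j * (n / (M : ℝ)))))) =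
      (M : ℂ) * (if n ≤ N then (g n : ℂ) else 0) := by
    intro g n hn
    have h2 := indicator_eq M N1 N n (by omega) hN hn
    have h3 : ∑ j ∈ range M, D M j N * ((g n : ℂ) * e (-(j * (n / (M : ℝ))))) =
        (g n : ℂ) * ∑ j ∈ range M, D M j N * e (-(j * (n / (M : ℝ)))) := by
      rw [mul_sum]; exact sum_congr rfl fun j _ => by ring
    rw [h3, h2]
    split_ifs <;> ring
  have h4 : ∀ j ∈ range M, D M j N * ∑ j' ∈ range M, D M j' N *
        O N1 (fun n => (u n : ℂ) * e (-(j * (n / (M : ℝ))))) (fun n => (f n : ℂ) * e (-(j' * (n / (M : ℝ))))) k =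
      D M j N * O N1 (fun n => (u n : ℂ) * e (-(j * (n / (M : ℝ)))))
        (fun n => (M : ℂ) * (if n ≤ N then (f n : ℂ) else 0)) k := by
    intro j _
    rw [← O_sum_right N1 (range M) (fun j' => D M j' N)]
    congr 1
    exact O_congr _ _ _ _ _ _ (fun _ _ => rfl) (h1 f)
  rw [sum_congr rfl h4, ← O_sum_left N1 (range M) (fun j => D M j N), off_eq u f N1 N k hN]
  rw [O_congr N1 _ _ _ _ k (h1 u) (fun _ _ => rfl)]
  unfold O
  simp_rw [mul_sum]
  refine sum_congr rfl fun n _ => sum_congr rfl fun m _ => ?_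
  split_ifs <;> ring

theorem off_sq (u f : ℕ → ℝ) (N1 N k : ℕ) (hN : N ≤ N1) :
    ((2 * N1 + 1 : ℕ) : ℝ) ^ 4 * off u f k N ^ 2 ≤
      (∑ p ∈ range (2 * N1 + 1) ×ˢ range (2 * N1 + 1), w N1 p.1 * w N1 p.2) *
      ∑ p ∈ range (2 * N1 + 1) ×ˢ range (2 * N1 + 1), w N1 p.1 * w N1 p.2 *
        ‖O N1 (fun n => (u n : ℂ) * e (-(p.1 * (n / ((2 * N1 + 1 : ℕ) : ℝ)))))
          (fun n => (f n : ℂ) * e (-(p.2 * (n / ((2 * N1 + 1 : ℕ) : ℝ))))) k‖ ^ 2 := by
  set M : ℕ := 2 * N1 + 1 with hM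
  set G : ℕ × ℕ → ℂ := fun p => O N1 (fun n => (u n : ℂ) * e (-(p.1 * (n / (M : ℝ)))))
          (fun n => (f n : ℂ) * e (-(p.2 * (n / (M : ℝ))))) k with hG
  have h1 : ‖((M : ℕ) : ℂ) ^ 2 * ((off u f k N : ℝ) : ℂ)‖ ≤
      ∑ p ∈ range M ×ˢ range M, w N1 p.1 * w N1 p.2 * ‖G p‖ := by
    rw [completed u f N1 N k hN, sum_product]
    refine (norm_sum_le _ _).trans (sum_le_sum fun j hj => ?_)
    rw [mem_range] at hj
    rw [norm_mul]
    have h2 : ‖∑ j' ∈ range (2 * N1 + 1), D (2 * N1 + 1) j' N *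
        O N1 (fun n => (u n : ℂ) * e (-(j * (n / ((2 * N1 + 1 : ℕ) : ℝ)))))
          (fun n => (f n : ℂ) * e (-(j' * (n / ((2 * N1 + 1 : ℕ) : ℝ))))) k‖ ≤
        ∑ j' ∈ range M, w N1 j' * ‖G (j, j')‖ := by
      refine (norm_sum_le _ _).trans (sum_le_sum fun j' hj' => ?_)
      rw [mem_range] at hj'
      rw [norm_mul]
      exact mul_le_mul_of_nonneg_right (D_le_w N1 j' N hN hj') (norm_nonneg _)
    calc _ ≤ w N1 j * ∑ j' ∈ range M, w N1 j' * ‖G (j, j')‖ :=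
          mul_le_mul (D_le_w N1 j N hN hj) h2 (norm_nonneg _) (w_nonneg N1 j hj)
      _ = _ := by rw [mul_sum]; exact sum_congr rfl fun j' _ => by ring
  have h3 : ‖((M : ℕ) : ℂ) ^ 2 * ((off u f k N : ℝ) : ℂ)‖ = (M : ℝ) ^ 2 * |off u f k N| := by
    rw [norm_mul, norm_pow, Complex.norm_natCast, Complex.norm_real, Real.norm_eq_abs]
  rw [h3] at h1
  have h4 : (M : ℝ) ^ 4 * off u f k N ^ 2 = ((M : ℝ) ^ 2 * |off u f k N|) ^ 2 := by
    rw [mul_pow, sq_abs]; ring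
  rw [h4]
  refine (pow_le_pow_left₀ (by positivity) h1 2).trans ?_
  apply sum_sq_le_sum_mul_sum_of_sq_le_mul
  · intro p hp
    rw [mem_product, mem_range, mem_range] at hp
    exact mul_nonneg (w_nonneg N1 _ hp.1) (w_nonneg N1 _ hp.2)
  · intro p hp
    rw [mem_product, mem_range, mem_range] at hp
    exact mul_nonneg (mul_nonneg (w_nonneg N1 _ hp.1) (w_nonneg N1 _ hp.2)) (by positivity)
  · intro p _
    exact le_of_eq (by ring)

theorem var : S_VAR := by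
  intro η hη
  obtain ⟨Cd, hCd, hdiv⟩ := Pool.Agent.H510R2.divisor_bound (η / 2) (by positivity)
  refine ⟨2 * Cd * (3 + 8 / η) ^ 4, by positivity, ?_⟩
  intro N1 K u f M0 hK hN1 hf N hN
  set M : ℕ := 2 * N1 + 1 with hM
  have hMpos : (0 : ℝ) < M := by rw [hM]; positivity
  have hN1' : (1 : ℝ) ≤ N1 := by exact_mod_cast hN1
  set T : ℝ := Cd * (N1 : ℝ) ^ (η / 2) with hT
  have hT0 : 0 ≤ T := by positivity
  have hTd : ∀ h : ℕ, 1 ≤ h → h ≤ N1 → (h.divisors.card : ℝ) ≤ T := by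
    intro h h1 h2
    refine (hdiv h h1).trans ?_
    apply mul_le_mul_of_nonneg_left _ hCd.le
    apply Real.rpow_le_rpow (by positivity) _ (by positivity)
    exact_mod_cast h2
  set B : ℝ := 2 * ((N1 : ℝ) / K) * T * (M0 ^ 2 * ∑ n ∈ Icc 1 N1, u n ^ 2) with hB
  set WW : ℝ := ∑ p ∈ range M ×ˢ range M, w N1 p.1 * w N1 p.2 with hWW
  have hB0 : 0 ≤ B := by
    have : 0 ≤ ∑ n ∈ Icc 1 N1, u n ^ 2 := sum_nonneg fun _ _ => by positivity
    positivity
  have hWW0 : 0 ≤ WW := by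
    apply sum_nonneg
    intro p hp
    rw [mem_product, mem_range, mem_range] at hp
    exact mul_nonneg (w_nonneg N1 _ hp.1) (w_nonneg N1 _ hp.2)
  have h1 : (M : ℝ) ^ 4 * ∑ k ∈ Ioc K (2 * K), off u f k (N k) ^ 2 ≤ WW * (WW * B) := by
    rw [mul_sum]
    refine (sum_le_sum fun k _ => off_sq u f N1 (N k) k (hN k)).trans ?_
    rw [← mul_sum]
    apply mul_le_mul_of_nonneg_left _ hWW0
    rw [sum_comm, hWW, sum_mul]
    refine sum_le_sum fun p hp => ?_
    rw [← mul_sum]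
    rw [mem_product, mem_range, mem_range] at hp
    apply mul_le_mul_of_nonneg_left _ (mul_nonneg (w_nonneg N1 _ hp.1) (w_nonneg N1 _ hp.2))
    have h2 := sum_O_sq N1 K hK (fun n => (u n : ℂ) * e (-(p.1 * (n / ((2 * N1 + 1 : ℕ) : ℝ)))))
      (fun n => (f n : ℂ) * e (-(p.2 * (n / ((2 * N1 + 1 : ℕ) : ℝ))))) M0 T ?_ hTd hT0
    · refine h2.trans (le_of_eq ?_)
      rw [hB]
      congr 2
      refine sum_congr rfl fun n _ => ?_
      rw [norm_mul, e_norm, mul_one, Complex.norm_real, Real.norm_eq_abs, sq_abs]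
    · intro α
      have h3 := hf (α - p.2 / ((2 * N1 + 1 : ℕ) : ℝ))
      have h4 : ∑ m ∈ Icc 1 N1, (f m : ℂ) * e (-(p.2 * (m / ((2 * N1 + 1 : ℕ) : ℝ)))) * e (m * α) =
          ∑ n ∈ Icc 1 N1, (f n : ℂ) * e (n * (α - p.2 / ((2 * N1 + 1 : ℕ) : ℝ))) := by
        refine sum_congr rfl fun m _ => ?_
        rw [mul_assoc, ← e_add]
        congr 2
        ring
      rw [h4]
      exact h3
  have hL0 : (0 : ℝ) ≤ Real.log N1 := Real.log_nonneg hN1'
  have h5 : WW ≤ (M * (3 + Real.log N1)) ^ 2 := by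
    have h6 : WW = (∑ j ∈ range M, w N1 j) ^ 2 := by
      rw [hWW, sum_product, sq, sum_mul_sum]
    rw [h6]
    apply pow_le_pow_left₀ _ (sum_w N1 hN1) 2
    exact sum_nonneg fun j hj => w_nonneg N1 j (mem_range.mp hj)
  have h7 : (M : ℝ) ^ 4 * ∑ k ∈ Ioc K (2 * K), off u f k (N k) ^ 2 ≤
      (M : ℝ) ^ 4 * ((3 + Real.log N1) ^ 4 * B) := by
    refine h1.trans ?_
    calc WW * (WW * B) ≤ (M * (3 + Real.log N1)) ^ 2 * ((M * (3 + Real.log N1)) ^ 2 * B) := by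
          gcongr
      _ = _ := by ring
  have h8 := le_of_mul_le_mul_left h7 (by positivity)
  refine h8.trans ?_
  have h9 : 3 + Real.log N1 ≤ (3 + 8 / η) * (N1 : ℝ) ^ (η / 8) := by
    have h10 := Real.log_le_rpow_div (by positivity : (0:ℝ) ≤ N1) (by positivity : 0 < η / 8)
    have h11 : (1 : ℝ) ≤ (N1 : ℝ) ^ (η / 8) := Real.one_le_rpow hN1' (by positivity)
    have h12 : (N1 : ℝ) ^ (η / 8) / (η / 8) = 8 / η * (N1 : ℝ) ^ (η / 8) := by field_simp
    rw [h12] at h10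
    nlinarith
  have h13 : (3 + Real.log N1) ^ 4 ≤ (3 + 8 / η) ^ 4 * (N1 : ℝ) ^ (η / 2) := by
    refine (pow_le_pow_left₀ (by positivity) h9 4).trans (le_of_eq ?_)
    rw [mul_pow, ← Real.rpow_natCast ((N1 : ℝ) ^ (η / 8)), ← Real.rpow_mul (by positivity)]
    congr 2
    push_cast; ring
  have h14 : (N1 : ℝ) ^ η = (N1 : ℝ) ^ (η / 2) * (N1 : ℝ) ^ (η / 2) := by
    rw [← Real.rpow_add (by positivity)]; congr 1; ring
  calc (3 + Real.log N1) ^ 4 * B ≤ ((3 + 8 / η) ^ 4 * (N1 : ℝ) ^ (η / 2)) * B := by gcongr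
    _ = 2 * Cd * (3 + 8 / η) ^ 4 * (N1 : ℝ) ^ η * ((N1 : ℝ) / K) * M0 ^ 2 * ∑ n ∈ Icc 1 N1, u n ^ 2 := by
      rw [hB, hT, h14]; ring

end Pool.Agent.P8H5.GV.VAR
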