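import Pool.Agent.P8H5.GV.Fin
import Pool.Agent.P8H5.GV.BLG
import Pool.Agent.P8H5.GV.NSQ
import Pool.Agent.P8H5.GV.QQ
import Pool.Agent.P8H5.GV.Var
import Pool.Agent.P8H84.GV.RAM
import Pool.Agent.P8H88.GV.Nf
import Pool.Agent.P8H90.GV.Cop
import Pool.Agent.P8H90.GV.G
import Pool.Agent.P8H90.GV.Sup

/-!
# Project GV: all packages together
-/

set_option autoImplicit false

open Finset

namespace Pool.Agent.P8H5.GV

theorem s_qq : S_QQ := QQP.qq (Pool.Agent.P8H90.GV.s_cop Pool.Agent.P8H90.GV.s_g)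

theorem s_nsq : S_NSQ := nsq Pool.Agent.P8H88.GV.cpl BLGP.blg s_qq

theorem s_ms : S_MS := Pool.Agent.P8H88.GV.ms BLGP.blg s_qq s_nsq

theorem s_nf : S_NF := Pool.Agent.P8H88.GV.nf s_ms Pool.Agent.P8H84.GV.ram s_qq

theorem s_sup : S_SUP := Pool.Agent.P8H90.GV.s_sup Pool.Agent.P8H84.GV.ram

open Classical in
theorem lower (ε : ℝ) (hε : 0 < ε) : ∃ κ K₀ : ℝ, 0 < κ ∧ ∀ K : ℕ, K₀ ≤ K →
    (((Ioc K (2 * K)).filter (fun k : ℕ => ∃ X : ℝ, (k : ℝ) ≤ X ∧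
      GV X k < X * (2 * Real.log k - Real.log X - ε * Real.log X))).card : ℝ) ≤
      (K : ℝ) ^ (1 - κ) :=
  main Pool.Agent.P8H84.GV.ram s_sup s_nf VAR.var ε hε

end Pool.Agent.P8H5.GV
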