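import Pool.Agent.P8H5.GV.Ab
import Pool.Agent.H336R2.V.TotLog
import Pool.Agent.H510R2.Div

/-!
# Project GV: one dyadic block
-/

set_option autoImplicit false

open Finset

namespace Pool.Agent.P8H5.GV

/-- powers beat logarithms -/
lemma large (n : ℕ) (C a : ℝ) (ha : 0 < a) : ∃ X0 : ℝ, 1 ≤ X0 ∧ ∀ X : ℝ, X0 ≤ X →
    C * (1 + Real.log X) ^ n ≤ X ^ a := by
  set b : ℝ := a / (2 * (n + 1)) with hb
  have hb0 : 0 < b := by positivity
  have h1 : ∀ X : ℝ, 1 ≤ X → (1 + Real.log X) ^ n ≤ (1 + 1 / b) ^ n * X ^ (a / 2) := by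
    intro X hX
    have hX0 : 0 < X := by linarith
    have h2 : Real.log X ≤ X ^ b / b := Real.log_le_rpow_div hX0.le hb0
    have h3 : 1 ≤ X ^ b := Real.one_le_rpow hX hb0.le
    have h4 : 0 ≤ Real.log X := Real.log_nonneg hX
    have h5 : 1 + Real.log X ≤ (1 + 1 / b) * X ^ b := by
      have : X ^ b / b = 1 / b * X ^ b := by field_simp
      rw [this] at h2
      nlinarith
    calc (1 + Real.log X) ^ n ≤ ((1 + 1 / b) * X ^ b) ^ n := by gcongr
      _ = (1 + 1 / b) ^ n * X ^ (b * n) := by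
          rw [mul_pow, ← Real.rpow_natCast (X ^ b) n, ← Real.rpow_mul hX0.le]
      _ ≤ (1 + 1 / b) ^ n * X ^ (a / 2) := by
          apply mul_le_mul_of_nonneg_left _ (by positivity)
          apply Real.rpow_le_rpow_of_exponent_le hX
          rw [hb, div_mul_eq_mul_div, div_le_div_iff₀ (by positivity) (by norm_num)]
          nlinarith
  have h2 := (tendsto_rpow_atTop (by positivity : 0 < a / 2)).eventually_ge_atTop
    (|C| * (1 + 1 / b) ^ n)
  obtain ⟨X0, hX0⟩ := Filter.eventually_atTop.1 h2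
  refine ⟨max X0 1, le_max_right _ _, fun X hX => ?_⟩
  have hX1 : 1 ≤ X := (le_max_right _ _).trans hX
  have hX0' : 0 < X := by linarith
  have h3 := hX0 X ((le_max_left _ _).trans hX)
  have h4 : 0 ≤ 1 + Real.log X := by have := Real.log_nonneg hX1; linarith
  calc C * (1 + Real.log X) ^ n ≤ |C| * (1 + Real.log X) ^ n := by
        have := le_abs_self C
        gcongr
    _ ≤ |C| * ((1 + 1 / b) ^ n * X ^ (a / 2)) := by
        have := h1 X hX1
        gcongr
    _ = (|C| * (1 + 1 / b) ^ n) * X ^ (a / 2) := by ring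
    _ ≤ X ^ (a / 2) * X ^ (a / 2) := by gcongr
    _ = X ^ a := by rw [← Real.rpow_add hX0']; congr 1; ring

/-- Markov -/
lemma markov (u f : ℕ → ℝ) (N1 K : ℕ) (E V : ℝ) (hE : 0 < E)
    (hV : ∀ N : ℕ → ℕ, (∀ k, N k ≤ N1) → ∑ k ∈ Ioc K (2 * K), off u f k (N k) ^ 2 ≤ V) :
    ∃ bad : Finset ℕ, (bad.card : ℝ) * E ^ 2 ≤ V ∧
      ∀ k ∈ Ioc K (2 * K), k ∉ bad → ∀ N ≤ N1, |off u f k N| ≤ E := by
  classical
  set bad := (Ioc K (2 * K)).filter (fun k => ∃ N ≤ N1, E < |off u f k N|) with hbad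
  refine ⟨bad, ?_, ?_⟩
  · set Nf : ℕ → ℕ := fun k => if h : ∃ N ≤ N1, E < |off u f k N| then h.choose else 0 with hNf
    have h1 : ∀ k, Nf k ≤ N1 := by
      intro k
      rw [hNf]
      simp only
      split_ifs with h
      · exact h.choose_spec.1
      · exact Nat.zero_le _
    have h2 := hV Nf h1
    refine le_trans ?_ h2
    calc (bad.card : ℝ) * E ^ 2 = ∑ k ∈ bad, E ^ 2 := by rw [sum_const, nsmul_eq_mul]
      _ ≤ ∑ k ∈ bad, off u f k (Nf k) ^ 2 := by
          apply sum_le_sum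
          intro k hk
          have hk2 := (mem_filter.1 hk).2
          have h3 : E < |off u f k (Nf k)| := by
            rw [hNf]
            simp only
            rw [dif_pos hk2]
            exact hk2.choose_spec.2
          rw [← sq_abs (off u f k (Nf k))]
          exact pow_le_pow_left₀ hE.le h3.le 2
      _ ≤ _ := sum_le_sum_of_subset_of_nonneg (filter_subset _ _) fun _ _ _ => sq_nonneg _
  · intro k hk hkb N hN
    by_contra h
    push Not at h
    exact hkb (mem_filter.2 ⟨hk, N, hN, h⟩)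

/-- the final algebra -/
lemma final_alg {G P Q N H y : ℝ} (hG : 0 ≤ G) (hN : 0 < N) (hy : 0 ≤ y) (h : P ≤ √G * √Q)
    (hQ : Q ≤ N * (H + y)) (hP : N * (H - y) ≤ P) : N * (H - 3 * y) ≤ G := by
  rcases le_or_gt (H - 3 * y) 0 with h0 | h0
  · exact (mul_nonpos_of_nonneg_of_nonpos hN.le h0).trans hG
  have h1 : 0 < H - y := by linarith
  have h2 : 0 < H + y := by linarith
  have hP0 : 0 < P := lt_of_lt_of_le (by positivity) hP
  have hQ0 : 0 ≤ Q := by
    by_contra hq
    push Not at hq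
    rw [Real.sqrt_eq_zero_of_nonpos hq.le, mul_zero] at h
    linarith
  have h3 : P ^ 2 ≤ G * Q := by
    calc P ^ 2 ≤ (√G * √Q) ^ 2 := pow_le_pow_left₀ hP0.le h 2
      _ = G * Q := by rw [mul_pow, Real.sq_sqrt hG, Real.sq_sqrt hQ0]
  have h4 : (N * (H - y)) ^ 2 ≤ G * (N * (H + y)) := by
    calc (N * (H - y)) ^ 2 ≤ P ^ 2 := pow_le_pow_left₀ (by positivity) hP 2
      _ ≤ G * Q := h3
      _ ≤ _ := mul_le_mul_of_nonneg_left hQ hG
  have h5 : N * (H - 3 * y) * (N * (H + y)) ≤ (N * (H - y)) ^ 2 := by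
    have : (H - 3 * y) * (H + y) ≤ (H - y) ^ 2 := by nlinarith [sq_nonneg y]
    calc N * (H - 3 * y) * (N * (H + y)) = N ^ 2 * ((H - 3 * y) * (H + y)) := by ring
      _ ≤ N ^ 2 * (H - y) ^ 2 := by gcongr
      _ = _ := by ring
  exact le_of_mul_le_mul_right (h5.trans h4) (by positivity)

lemma sum_L_sq (N : ℕ) (hN : 1 ≤ N) :
    ∑ n ∈ Icc 1 N, (ArithmeticFunction.vonMangoldt n) ^ 2 ≤ N * Real.log N ^ 2 := by
  calc ∑ n ∈ Icc 1 N, (ArithmeticFunction.vonMangoldt n) ^ 2 ≤ ∑ n ∈ Icc 1 N, Real.log N ^ 2 := by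
        apply sum_le_sum
        intro n hn
        have hn' := mem_Icc.1 hn
        have h1 : ArithmeticFunction.vonMangoldt n ≤ Real.log n := ArithmeticFunction.vonMangoldt_le_log
        have h2 : Real.log n ≤ Real.log N :=
          Real.log_le_log (by exact_mod_cast hn'.1) (by exact_mod_cast hn'.2)
        exact pow_le_pow_left₀ ArithmeticFunction.vonMangoldt_nonneg (h1.trans h2) 2
    _ = N * Real.log N ^ 2 := by simp

end Pool.Agent.P8H5.GV
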