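import Pool.Agent.P8H5.GV.Blk

/-!
# Project GV: one dyadic block, assembly
-/

set_option autoImplicit false

open Finset

namespace Pool.Agent.P8H5.GV

lemma GV_nonneg (X : ℝ) (k : ℕ) : 0 ≤ GV X k := sum_nonneg fun _ _ => sq_nonneg _

lemma alg1 (K p q : ℝ) (hK : K ≠ 0) : 2 * K * p * (q / K) = 2 * (p * q) := by field_simp

lemma alg2 (CV K X x y z : ℝ) (hK : K ≠ 0) :
    CV * (2 * x) * (2 * X / K) * (K ^ 2 * y) * (2 * X * z) = (8 * CV) * K * ((x * y * z) * (X * X)) := by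
  field_simp
  ring

lemma alg3 (K X x y : ℝ) (hK : K ≠ 0) :
    (2 * X / K) * x * (x * (K * y)) = 2 * (X * x * x * y) := by field_simp

lemma alg4 (K p q : ℝ) (hK : K ≠ 0) : (2 * (p / K)) * (K * q) = 2 * (p * q) := by field_simp

/-- powers of a fixed number -/
structure Pw (x : ℝ) : Prop where
  one : 1 ≤ x

namespace Pw

variable {x : ℝ} (h : Pw x)
include h

lemma pos0 : 0 < x := by have := h.one; linarith
lemma pos (a : ℝ) : 0 < x ^ a := Real.rpow_pos_of_pos h.pos0 a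
lemma le {a b : ℝ} (hab : a ≤ b) : x ^ a ≤ x ^ b := Real.rpow_le_rpow_of_exponent_le h.one hab
lemma add (a b : ℝ) : x ^ a * x ^ b = x ^ (a + b) := (Real.rpow_add h.pos0 a b).symm

lemma two {a : ℝ} (ha : 0 ≤ a) (ha1 : a ≤ 1) : (2 * x) ^ a ≤ 2 * x ^ a := by
  rw [Real.mul_rpow (by norm_num) h.pos0.le]
  apply mul_le_mul_of_nonneg_right _ (h.pos a).le
  calc (2 : ℝ) ^ a ≤ 2 ^ (1 : ℝ) := Real.rpow_le_rpow_of_exponent_le (by norm_num) ha1
    _ = 2 := Real.rpow_one 2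

lemma nat_two {n : ℝ} {a : ℝ} (hn0 : 0 ≤ n) (hn : n ≤ 2 * x) (ha : 0 ≤ a) (ha1 : a ≤ 1) :
    n ^ a ≤ 2 * x ^ a := (Real.rpow_le_rpow hn0 hn ha).trans (h.two ha ha1)

/-- absorb a constant -/
lemma absorb {c δ a b : ℝ} (hc : c ≤ x ^ δ) (hab : δ + a ≤ b) : c * x ^ a ≤ x ^ b := by
  calc c * x ^ a ≤ x ^ δ * x ^ a := mul_le_mul_of_nonneg_right hc (h.pos a).le
    _ = x ^ (δ + a) := h.add _ _
    _ ≤ _ := h.le hab

end Pw

/-- the cut-offs -/
lemma cuts (η X1 : ℝ) (K : ℕ) (hη0 : 0 < η) (hη1 : η ≤ 1 / 200) (hX1 : 1 ≤ X1)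
    (h1000 : (1000 : ℝ) ≤ X1 ^ (η / 8)) (hK1 : 1 ≤ K) (hKX : (K : ℝ) ≤ X1)
    (hKlow : X1 ^ (1 / 2 + 50 * η) ≤ K) :
    ∃ D R : ℕ, 1 ≤ R ∧ R ≤ D ∧ (D : ℝ) ≤ K ∧ (D : ℝ) ≤ K * X1 ^ (-η) ∧
      2 * X1 ≤ 2 * K * X1 ^ (-η) * R ∧
      (∀ N : ℕ, X1 / 2 ≤ N → (N : ℝ) ≤ 2 * X1 →
        (N : ℝ) ^ (1 / 2 + η / 2) ≤ D ∧ (R : ℝ) * D ≤ (N : ℝ) ^ (1 - η / 2)) ∧
      2 * Real.log K - (1 + 3 * η) * Real.log X1 - 2 * Real.log 2 ≤ Real.log D - Real.log R := by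
  have P : Pw X1 := ⟨hX1⟩
  have hX1pos := P.pos0
  have hKpos : (0 : ℝ) < K := by exact_mod_cast hK1
  set zD : ℝ := K * X1 ^ (-(2 * η)) with hzD
  set zR : ℝ := X1 ^ (1 + η) / K with hzR
  have hzD0 : 0 < zD := mul_pos hKpos (P.pos _)
  have hzR0 : 0 < zR := div_pos (P.pos _) hKpos
  have hzDlow : X1 ^ (1 / 2 + 48 * η) ≤ zD := by
    rw [hzD]
    calc X1 ^ (1 / 2 + 48 * η) = X1 ^ (1 / 2 + 50 * η) * X1 ^ (-(2 * η)) := by
          rw [P.add]; congr 1; ring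
      _ ≤ _ := mul_le_mul_of_nonneg_right hKlow (P.pos _).le
  have hzD2 : 2 ≤ zD := by
    calc (2 : ℝ) ≤ X1 ^ (η / 8) := by linarith
      _ ≤ X1 ^ (1 / 2 + 48 * η) := P.le (by linarith)
      _ ≤ zD := hzDlow
  have hzR1 : 1 ≤ zR := by
    rw [hzR, le_div_iff₀ hKpos, one_mul]
    calc (K : ℝ) ≤ X1 ^ (1 : ℝ) := by rw [Real.rpow_one]; exact hKX
      _ ≤ _ := P.le (by linarith)
  have hDle : ((⌊zD⌋₊ : ℕ) : ℝ) ≤ zD := Nat.floor_le hzD0.le
  have hDge : zD / 2 ≤ ((⌊zD⌋₊ : ℕ) : ℝ) := by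
    have := Nat.lt_floor_add_one zD
    linarith
  have hRge : zR ≤ ((⌈zR⌉₊ : ℕ) : ℝ) := Nat.le_ceil _
  have hRle : ((⌈zR⌉₊ : ℕ) : ℝ) ≤ 2 * zR := by
    have := Nat.ceil_lt_add_one hzR0.le
    linarith
  generalize (⌊zD⌋₊ : ℕ) = D at hDle hDge
  generalize (⌈zR⌉₊ : ℕ) = R at hRge hRle
  have hR1 : 1 ≤ R := by
    have : (1 : ℝ) ≤ R := hzR1.trans hRge
    exact_mod_cast this
  have hRpos : (0 : ℝ) < R := by exact_mod_cast hR1
  have hzRup : zR ≤ X1 ^ (1 / 2 - 49 * η) := by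
    rw [hzR, div_le_iff₀ hKpos]
    calc X1 ^ (1 + η) = X1 ^ (1 / 2 - 49 * η) * X1 ^ (1 / 2 + 50 * η) := by
          rw [P.add]; congr 1; ring
      _ ≤ _ := mul_le_mul_of_nonneg_left hKlow (P.pos _).le
  have h4 : (4 : ℝ) ≤ X1 ^ (η / 8) := by linarith
  have hRD : R ≤ D := by
    have h1 : (R : ℝ) ≤ D := by
      have h2 : 4 * X1 ^ (1 / 2 - 49 * η) ≤ X1 ^ (1 / 2 + 48 * η) := P.absorb h4 (by linarith)
      linarith
    exact_mod_cast h1
  have hD1 : 1 ≤ D := hR1.trans hRD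
  have hDpos : (0 : ℝ) < D := by exact_mod_cast hD1
  have hDK : (D : ℝ) ≤ K := by
    refine hDle.trans ?_
    rw [hzD]
    have : X1 ^ (-(2 * η)) ≤ 1 := Real.rpow_le_one_of_one_le_of_nonpos hX1 (by linarith)
    nlinarith
  have hRDprod : (R : ℝ) * D ≤ 2 * X1 ^ (1 - η) := by
    calc (R : ℝ) * D ≤ (2 * zR) * zD := mul_le_mul hRle hDle hDpos.le (by linarith)
      _ = 2 * (X1 ^ (1 + η) * X1 ^ (-(2 * η))) := by
          rw [hzR, hzD]
          exact alg4 _ _ _ hKpos.ne'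
      _ = 2 * X1 ^ (1 - η) := by rw [P.add]; congr 2; ring
  refine ⟨D, R, hR1, hRD, hDK, ?_, ?_, ?_, ?_⟩
  · refine hDle.trans ?_
    rw [hzD]
    exact mul_le_mul_of_nonneg_left (P.le (by linarith)) hKpos.le
  · have e1 : X1 ^ (-η) * X1 ^ (1 + η) = X1 := by
      rw [P.add]
      have : -η + (1 + η) = 1 := by ring
      rw [this, Real.rpow_one]
    calc 2 * X1 = 2 * K * X1 ^ (-η) * zR := by
          rw [hzR, alg1 _ _ _ hKpos.ne', e1]
      _ ≤ 2 * K * X1 ^ (-η) * R := by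
          apply mul_le_mul_of_nonneg_left hRge
          have := P.pos (-η)
          positivity
  · intro N hN1 hN2
    have hNpos : (0 : ℝ) < N := by linarith
    constructor
    · have h5 : (N : ℝ) ^ (1 / 2 + η / 2) ≤ 2 * X1 ^ (1 / 2 + η / 2) :=
        P.nat_two hNpos.le hN2 (by linarith) (by linarith)
      have h6 : 4 * X1 ^ (1 / 2 + η / 2) ≤ X1 ^ (1 / 2 + 48 * η) := P.absorb h4 (by linarith)
      linarith
    · have h1 : (X1 / 2) ^ (1 - η / 2) ≤ (N : ℝ) ^ (1 - η / 2) :=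
        Real.rpow_le_rpow (by positivity) hN1 (by linarith)
      have h2 : X1 ^ (1 - η / 2) / 2 ≤ (X1 / 2) ^ (1 - η / 2) := by
        rw [Real.div_rpow hX1pos.le (by norm_num)]
        apply div_le_div_of_nonneg_left (P.pos _).le (by positivity)
        calc (2 : ℝ) ^ (1 - η / 2) ≤ 2 ^ (1 : ℝ) :=
              Real.rpow_le_rpow_of_exponent_le (by norm_num) (by linarith)
          _ = 2 := Real.rpow_one 2
      have h3 : 4 * X1 ^ (1 - η) ≤ X1 ^ (1 - η / 2) := P.absorb h4 (by linarith)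
      linarith
  · have h1 : Real.log K - 2 * η * Real.log X1 - Real.log 2 ≤ Real.log D := by
      have : Real.log (zD / 2) ≤ Real.log D := Real.log_le_log (by positivity) hDge
      rw [Real.log_div hzD0.ne' (by norm_num), hzD, Real.log_mul hKpos.ne' (P.pos _).ne',
        Real.log_rpow hX1pos] at this
      linarith
    have h2 : Real.log R ≤ Real.log 2 + (1 + η) * Real.log X1 - Real.log K := by
      have : Real.log R ≤ Real.log (2 * zR) := Real.log_le_log hRpos hRle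
      rw [Real.log_mul (by norm_num) hzR0.ne', hzR, Real.log_div (P.pos _).ne' hKpos.ne',
        Real.log_rpow hX1pos] at this
      linarith
    linarith

/-- the error terms for one modulus -/
lemma errs (η X1 X B : ℝ) (K k : ℕ) (τ φ : ℝ) (hη0 : 0 < η) (hη1 : η ≤ 1 / 200) (hX1 : 1 ≤ X1)
    (h1000 : (1000 : ℝ) ≤ X1 ^ (η / 8)) (hK1 : 1 ≤ K) (hKlow : X1 ^ (1 / 2 + 50 * η) ≤ K)
    (hk : K < k) (hX1X : X1 ≤ X) (hX2X : X ≤ 2 * X1) (hkX : (k : ℝ) ≤ X) (hφ : 0 < φ)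
    (hB : B = X1 ^ (η / 8)) (hτ0 : 0 ≤ τ) (hτ : τ ≤ X1 ^ (η / 32)) (hL : Real.log X ≤ X1 ^ (η / 32))
    (hφk : (k : ℝ) / φ ≤ X1 ^ (η / 32)) :
    τ * Real.log X * ((X / k + 1) * B) ≤ X1 ^ (1 - η / 8) ∧
    X / φ * (τ * (K * X1 ^ (-(η / 2)))) ≤ X1 ^ (1 - η / 8) := by
  have P : Pw X1 := ⟨hX1⟩
  have hX1pos := P.pos0
  have hXpos : 0 < X := by linarith
  have hKpos : (0 : ℝ) < K := by exact_mod_cast hK1
  have hkK : (K : ℝ) < k := by exact_mod_cast hk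
  have hkpos : (0 : ℝ) < k := by linarith
  have h3 : X / k ≤ 2 * X1 / K := div_le_div₀ (by positivity) hX2X hKpos hkK.le
  have h4 : (4 : ℝ) ≤ X1 ^ (η / 8) := by linarith
  have h22 : (2 : ℝ) ≤ X1 ^ (η / 8) := by linarith
  constructor
  · have h1 : X / k + 1 ≤ 4 * X1 ^ (1 / 2 : ℝ) := by
      have h2 : 1 ≤ X / k := by rw [le_div_iff₀ hkpos]; linarith
      have h5 : X1 / K ≤ X1 ^ (1 / 2 : ℝ) := by
        rw [div_le_iff₀ hKpos]
        calc X1 = X1 ^ (1 / 2 : ℝ) * X1 ^ (1 / 2 : ℝ) := by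
              rw [P.add]
              norm_num
          _ ≤ X1 ^ (1 / 2 : ℝ) * X1 ^ (1 / 2 + 50 * η) := by
              apply mul_le_mul_of_nonneg_left _ (P.pos _).le
              exact P.le (by linarith)
          _ ≤ _ := mul_le_mul_of_nonneg_left hKlow (P.pos _).le
      have h6 : 2 * X1 / K = 2 * (X1 / K) := by ring
      linarith
    have hlX0 : 0 ≤ Real.log X := Real.log_nonneg (by linarith)
    have hXk0 : 0 ≤ X / k + 1 := by positivity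
    have hB0 : 0 ≤ B := by rw [hB]; exact (P.pos _).le
    have hp0 := (P.pos (η / 32)).le
    have s1 : τ * Real.log X ≤ X1 ^ (η / 32) * X1 ^ (η / 32) := mul_le_mul hτ hL hlX0 hp0
    have s2 : (X / k + 1) * B ≤ 4 * X1 ^ (1 / 2 : ℝ) * B := mul_le_mul_of_nonneg_right h1 hB0
    have s3 : τ * Real.log X * ((X / k + 1) * B) ≤
        X1 ^ (η / 32) * X1 ^ (η / 32) * (4 * X1 ^ (1 / 2 : ℝ) * B) :=
      mul_le_mul s1 s2 (mul_nonneg hXk0 hB0) (mul_nonneg hp0 hp0)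
    refine s3.trans ?_
    have s4 : X1 ^ (η / 32) * X1 ^ (η / 32) * (4 * X1 ^ (1 / 2 : ℝ) * B) =
        4 * X1 ^ (η / 32 + η / 32 + (1 / 2 + η / 8)) := by
      rw [hB, ← P.add (η / 32 + η / 32), ← P.add (η / 32), ← P.add (1 / 2)]
      ring
    rw [s4]
    exact P.absorb h4 (by linarith)
  · have h2 : X / φ = X / k * (k / φ) := by
      field_simp
    have hp0 := (P.pos (η / 32)).le
    have hpM := (P.pos (-(η / 2))).le
    have s1 : X / k * (k / φ) ≤ 2 * X1 / K * X1 ^ (η / 32) :=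
      mul_le_mul h3 hφk (by positivity) (by positivity)
    have s2 : τ * (K * X1 ^ (-(η / 2))) ≤ X1 ^ (η / 32) * (K * X1 ^ (-(η / 2))) :=
      mul_le_mul_of_nonneg_right hτ (mul_nonneg hKpos.le hpM)
    have s3 : X / k * (k / φ) * (τ * (K * X1 ^ (-(η / 2)))) ≤
        2 * X1 / K * X1 ^ (η / 32) * (X1 ^ (η / 32) * (K * X1 ^ (-(η / 2)))) :=
      mul_le_mul s1 s2 (mul_nonneg hτ0 (mul_nonneg hKpos.le hpM)) (by positivity)
    rw [h2]
    refine s3.trans ?_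
    rw [alg3 _ _ _ _ hKpos.ne']
    have s4 : 2 * (X1 * X1 ^ (η / 32) * X1 ^ (η / 32) * X1 ^ (-(η / 2))) =
        2 * X1 ^ (1 + η / 32 + η / 32 + -(η / 2)) := by
      rw [← P.add (1 + η / 32 + η / 32), ← P.add (1 + η / 32), ← P.add 1, Real.rpow_one]
    rw [s4]
    exact P.absorb h22 (by linarith)

/-- the bound for the variance -/
lemma varb (η X1 CV n M0 S : ℝ) (K : ℕ) (hη0 : 0 < η) (hη1 : η ≤ 1 / 200) (hX1 : 1 ≤ X1)
    (hCV : 0 < CV) (h5 : 64 * CV ≤ X1 ^ (η / 8)) (hK1 : 1 ≤ K) (hn0 : 0 ≤ n) (hn : n ≤ 2 * X1)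
    (hM0 : M0 = K * X1 ^ (-(η / 2))) (hS0 : 0 ≤ S) (hS : S ≤ 2 * X1 * X1 ^ (η / 4)) :
    CV * n ^ (η / 8) * (n / K) * M0 ^ 2 * S ≤ K * X1 ^ (2 - η / 2) := by
  have P : Pw X1 := ⟨hX1⟩
  have hX1pos := P.pos0
  have hKpos : (0 : ℝ) < K := by exact_mod_cast hK1
  have h2 : n ^ (η / 8) ≤ 2 * X1 ^ (η / 8) := P.nat_two hn0 hn (by positivity) (by linarith)
  have h3 : n / K ≤ 2 * X1 / K := div_le_div_of_nonneg_right hn hKpos.le
  have h4 : M0 ^ 2 = K ^ 2 * X1 ^ (-η) := by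
    rw [hM0, mul_pow, sq (X1 ^ (-(η / 2))), P.add]
    congr 2; ring
  have hn8 : 0 ≤ n ^ (η / 8) := Real.rpow_nonneg hn0 _
  have p8 := P.pos (η / 8)
  have s1 : CV * n ^ (η / 8) ≤ CV * (2 * X1 ^ (η / 8)) := mul_le_mul_of_nonneg_left h2 hCV.le
  have s2 : CV * n ^ (η / 8) * (n / K) ≤ CV * (2 * X1 ^ (η / 8)) * (2 * X1 / K) :=
    mul_le_mul s1 h3 (by positivity) (by positivity)
  have s3 : CV * n ^ (η / 8) * (n / K) * M0 ^ 2 ≤ CV * (2 * X1 ^ (η / 8)) * (2 * X1 / K) * M0 ^ 2 :=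
    mul_le_mul_of_nonneg_right s2 (sq_nonneg _)
  have s4 : CV * n ^ (η / 8) * (n / K) * M0 ^ 2 * S ≤
      CV * (2 * X1 ^ (η / 8)) * (2 * X1 / K) * M0 ^ 2 * (2 * X1 * X1 ^ (η / 4)) :=
    mul_le_mul s3 hS hS0 (by positivity)
  refine s4.trans ?_
  rw [h4, alg2 _ _ _ _ _ _ hKpos.ne']
  have s5 : (X1 ^ (η / 8) * X1 ^ (-η) * X1 ^ (η / 4)) * (X1 * X1) =
      X1 ^ (η / 8 + -η + η / 4 + (1 + 1)) := by
    rw [← P.add (η / 8 + -η + η / 4), ← P.add (η / 8 + -η), ← P.add (η / 8), ← P.add 1 1, Real.rpow_one]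
  rw [s5]
  have s6 : 8 * CV * X1 ^ (η / 8 + -η + η / 4 + (1 + 1)) ≤ X1 ^ (2 - η / 2) :=
    P.absorb (δ := η / 8) (by linarith) (by linarith)
  calc 8 * CV * K * X1 ^ (η / 8 + -η + η / 4 + (1 + 1)) =
      K * (8 * CV * X1 ^ (η / 8 + -η + η / 4 + (1 + 1))) := by ring
    _ ≤ _ := mul_le_mul_of_nonneg_left s6 hKpos.le

/-- sizes of the logarithms: the last step -/
lemma last (ε η X X1 G : ℝ) (N D R k K : ℕ) (hε : 0 < ε) (hε1 : ε ≤ 1) (hη : η = ε / 200)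
    (hXone : 1 ≤ X) (hX1X : X1 ≤ X) (hX1 : 1 ≤ X1) (hkX : (k : ℝ) ≤ X) (hkpos : (0 : ℝ) < k) (hKpos : (0 : ℝ) < K)
    (hk2K : (k : ℝ) ≤ 2 * K) (hNX : (N : ℝ) ≤ X) (hXN : X - 1 < N) (hNpos : (0 : ℝ) < N) (hG : 0 ≤ G)
    (hlX : 100 / ε ≤ Real.log X) (hXe : 1000 / ε ≤ X)
    (hcut : 2 * Real.log K - (1 + 3 * η) * Real.log X1 - 2 * Real.log 2 ≤ Real.log D - Real.log R)
    (hfin : N * ((Real.log D - Real.log R) - 3 * (ε / 12 * Real.log N)) ≤ G) :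
    X * (2 * Real.log k - Real.log X - ε * Real.log X) ≤ G := by
  have hXpos : 0 < X := by linarith
  have h2log := Real.log_two_lt_d9
  have h2log0 := Real.log_two_gt_d9
  have hηpos : 0 < η := by rw [hη]; positivity
  have h3 : Real.log k - Real.log 2 ≤ Real.log K := by
    have : Real.log k ≤ Real.log (2 * K) := Real.log_le_log hkpos hk2K
    rw [Real.log_mul (by norm_num) hKpos.ne'] at this
    linarith
  have h4 : (1 + 3 * η) * Real.log X1 ≤ (1 + 3 * η) * Real.log X :=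
    mul_le_mul_of_nonneg_left (Real.log_le_log (by linarith) hX1X) (by linarith)
  have hlogNX : Real.log N ≤ Real.log X := Real.log_le_log hNpos hNX
  have hlX100' : 100 ≤ ε * Real.log X := by
    have := mul_le_mul_of_nonneg_left hlX hε.le
    calc (100 : ℝ) = ε * (100 / ε) := by field_simp
      _ ≤ _ := this
  set tg : ℝ := 2 * Real.log k - Real.log X - ε * Real.log X with htg
  have hkey : tg + ε / 2 * Real.log X ≤ (Real.log D - Real.log R) - 3 * (ε / 12 * Real.log N) := by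
    have h1 : 3 * (ε / 12 * Real.log N) ≤ ε / 4 * Real.log X := by nlinarith
    have h2 : 3 * η * Real.log X = 3 / 200 * (ε * Real.log X) := by rw [hη]; ring
    rw [htg]
    nlinarith
  rcases le_or_gt tg 0 with ht0 | ht0
  · exact (mul_nonpos_of_nonneg_of_nonpos hXpos.le ht0).trans hG
  refine le_trans ?_ (le_trans (mul_le_mul_of_nonneg_left hkey hNpos.le) hfin)
  have hlk : Real.log k ≤ Real.log X := Real.log_le_log hkpos hkX
  have htgle : tg ≤ Real.log X := by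
    have : 0 ≤ ε * Real.log X := by linarith
    rw [htg]; linarith
  have hXe2 : 1000 ≤ ε * X := by
    have := mul_le_mul_of_nonneg_left hXe hε.le
    calc (1000 : ℝ) = ε * (1000 / ε) := by field_simp
      _ ≤ _ := this
  have hlX0 : 0 < Real.log X := by
    have : 0 < 100 / ε := by positivity
    linarith
  have h6 : tg ≤ (X - 1) * (ε / 2) * Real.log X := by
    have : 1 ≤ (X - 1) * (ε / 2) := by nlinarith
    nlinarith
  have h7 : (X - 1) * (tg + ε / 2 * Real.log X) ≤ N * (tg + ε / 2 * Real.log X) := by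
    apply mul_le_mul_of_nonneg_right hXN.le
    positivity
  nlinarith

end Pool.Agent.P8H5.GV
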