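import Pool.Agent.P8H5.GV.Blk2

/-!
# Project GV: one dyadic block, assembly
-/

set_option autoImplicit false

open Finset

namespace Pool.Agent.P8H5.GV

/-- one modulus -/
lemma one_mod (ε η X1 X B M0 E : ℝ) (N0 D R K k : ℕ) (hε : 0 < ε) (hε1 : ε ≤ 1) (hη : η = ε / 200)
    (hX1 : 1 ≤ X1) (h1000 : (1000 : ℝ) ≤ X1 ^ (η / 8)) (g6 : 1000 / ε ≤ X1 ^ (η / 8))
    (hL : 100 / ε ≤ Real.log X1) (hN0 : (2 * (N0 + 1) : ℝ) ≤ X1)
    (hK1 : 1 ≤ K) (hKlow : X1 ^ (1 / 2 + 50 * η) ≤ K)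
    (hk : K < k) (hk2 : k ≤ 2 * K) (hX1X : X1 ≤ X) (hX2X : X ≤ 2 * X1) (hkX : (k : ℝ) ≤ X)
    (hB : B = X1 ^ (η / 8)) (hM0 : M0 = K * X1 ^ (-(η / 2))) (hE : E = X1 ^ (1 - η / 8))
    (hτ : (k.divisors.card : ℝ) ≤ X1 ^ (η / 32)) (hlX : Real.log X ≤ X1 ^ (η / 32))
    (hφk : (k : ℝ) / Nat.totient k ≤ X1 ^ (η / 32))
    (hR1 : 1 ≤ R) (hRD : R ≤ D)
    (hcut : 2 * Real.log K - (1 + 3 * η) * Real.log X1 - 2 * Real.log 2 ≤ Real.log D - Real.log R)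
    (hc : ∀ N : ℕ, X1 / 2 ≤ N → (N : ℝ) ≤ 2 * X1 →
        (N : ℝ) ^ (1 / 2 + η / 2) ≤ D ∧ (R : ℝ) * D ≤ (N : ℝ) ^ (1 - η / 2))
    (hnf : ∀ N : ℕ, N0 ≤ N → ∀ D R : ℕ, (N : ℝ) ^ (1 / 2 + η / 2) ≤ D → 1 ≤ R → R ≤ D →
      (R : ℝ) * D ≤ (N : ℝ) ^ (1 - η / 2) →
      ∑ n ∈ Icc 1 N, F D R n ^ 2 ≤ N * (Real.log D - Real.log R + ε / 24 * Real.log N) ∧
      N * (Real.log D - Real.log R - ε / 24 * Real.log N) ≤
        ∑ n ∈ Icc 1 N, ArithmeticFunction.vonMangoldt n * F D R n)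
    (hfB : ∀ n, 1 ≤ n → n ≤ ⌊X⌋₊ → |F D R n| ≤ B)
    (hfM : ∀ α : ℝ, ‖∑ m ∈ Icc 1 ⌊X⌋₊, (F D R m : ℂ) * e (m * α)‖ ≤ M0)
    (ho1 : |off (fun n => ArithmeticFunction.vonMangoldt n) (F D R) k ⌊X⌋₊| ≤ E)
    (ho2 : |off (F D R) (F D R) k ⌊X⌋₊| ≤ E) :
    X * (2 * Real.log k - Real.log X - ε * Real.log X) ≤ GV X k := by
  have P : Pw X1 := ⟨hX1⟩
  have hη0 : 0 < η := by rw [hη]; positivity
  have hη1 : η ≤ 1 / 200 := by rw [hη]; linarith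
  have hX1pos := P.pos0
  have hk1 : 1 ≤ k := by omega
  have hkpos : (0 : ℝ) < k := by exact_mod_cast hk1
  have hKpos : (0 : ℝ) < K := by exact_mod_cast hK1
  have hXone : 1 ≤ X := by linarith
  have hXpos : 0 < X := by linarith
  have hφ : (0 : ℝ) < Nat.totient k := by exact_mod_cast Nat.totient_pos.2 hk1
  obtain ⟨er1, er2⟩ := errs η X1 X B K k k.divisors.card (Nat.totient k) hη0 hη1 hX1 h1000 hK1 hKlow hk
    hX1X hX2X hkX hφ hB (by positivity) hτ hlX hφk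
  rw [← hE] at er1 er2
  rw [← hM0] at er2
  have hB0 : 0 ≤ B := by rw [hB]; exact (P.pos _).le
  have hab := ab_single X hXone k hk1 (F D R) B M0 E (fun m hm => hfB m (mem_Icc.1 hm).1
    (mem_Icc.1 hm).2) hB0 hfM ho1 ho2
  set N : ℕ := ⌊X⌋₊ with hN
  have hNX : (N : ℝ) ≤ X := Nat.floor_le hXpos.le
  have hXN : X - 1 < N := by
    have := Nat.lt_floor_add_one X
    rw [← hN] at this
    linarith
  have hXe1 : 1000 / ε ≤ X1 := by
    refine g6.trans ?_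
    calc X1 ^ (η / 8) ≤ X1 ^ (1 : ℝ) := P.le (by linarith)
      _ = X1 := Real.rpow_one _
  have h1000' : (1000 : ℝ) ≤ 1000 / ε := by rw [le_div_iff₀ hε]; nlinarith
  have hNhalf : X1 / 2 ≤ N := by linarith
  have hNpos : (0 : ℝ) < N := by linarith
  have hN0N : N0 ≤ N := by
    have : (N0 : ℝ) ≤ N := by linarith
    exact_mod_cast this
  have hN2 : (N : ℝ) ≤ 2 * X1 := by linarith
  obtain ⟨c1, c4⟩ := hc N hNhalf hN2
  obtain ⟨n1, n2⟩ := hnf N hN0N D R c1 hR1 hRD c4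
  have hE0 : 0 < E := by rw [hE]; exact P.pos _
  have h100' : (100 : ℝ) ≤ 100 / ε := by rw [le_div_iff₀ hε]; nlinarith
  have h2log := Real.log_two_lt_d9
  have hlogN1b : 1 ≤ Real.log N := by
    have h1 : Real.log (X1 / 2) ≤ Real.log N := Real.log_le_log (by positivity) hNhalf
    rw [Real.log_div hX1pos.ne' (by norm_num)] at h1
    linarith
  have h3E : 3 * E ≤ ε / 24 * (N * Real.log N) := by
    have h1 : 144 / ε ≤ X1 ^ (η / 8) := by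
      refine le_trans ?_ g6
      gcongr
      norm_num
    have h2 : E * X1 ^ (η / 8) = X1 := by
      rw [hE, P.add]
      have : 1 - η / 8 + η / 8 = 1 := by ring
      rw [this, Real.rpow_one]
    have h3 : E * (144 / ε) ≤ X1 := by
      have := mul_le_mul_of_nonneg_left h1 hE0.le
      linarith
    have h4 : E * 144 ≤ X1 * ε := by
      have := mul_le_mul_of_nonneg_right h3 hε.le
      calc E * 144 = E * (144 / ε) * ε := by field_simp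
        _ ≤ _ := this
    have h5 : X1 / 2 ≤ N * Real.log N := by nlinarith
    nlinarith
  have hE1 : E ≤ ε / 24 * (N * Real.log N) := by linarith
  have hy0 : 0 ≤ ε / 12 * Real.log N := by positivity
  have hP : ∑ n ∈ Icc 1 N, ArithmeticFunction.vonMangoldt n * F D R n - 3 * E ≤
      √(GV X k) * √(∑ n ∈ Icc 1 N, F D R n ^ 2 + E) := by
    refine le_trans ?_ hab
    linarith
  have hQ : ∑ n ∈ Icc 1 N, F D R n ^ 2 + E ≤
      N * ((Real.log D - Real.log R) + ε / 12 * Real.log N) := by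
    have e1 : N * ((Real.log D - Real.log R) + ε / 12 * Real.log N) =
        N * (Real.log D - Real.log R + ε / 24 * Real.log N) + ε / 24 * (N * Real.log N) := by ring
    rw [e1]
    exact add_le_add n1 hE1
  have hPl : N * ((Real.log D - Real.log R) - ε / 12 * Real.log N) ≤
      ∑ n ∈ Icc 1 N, ArithmeticFunction.vonMangoldt n * F D R n - 3 * E := by
    have e1 : N * ((Real.log D - Real.log R) - ε / 12 * Real.log N) =
        N * (Real.log D - Real.log R - ε / 24 * Real.log N) - ε / 24 * (N * Real.log N) := by ring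
    rw [e1]
    linarith
  have hfin := final_alg (sum_nonneg fun _ _ => sq_nonneg _) hNpos hy0 hP hQ hPl
  have hlX' : 100 / ε ≤ Real.log X := hL.trans (Real.log_le_log hX1pos hX1X)
  exact last ε η X X1 (GV X k) N D R k K hε hε1 hη hXone hX1X hX1 hkX hkpos hKpos
    (by exact_mod_cast hk2) hNX hXN hNpos (sum_nonneg fun _ _ => sq_nonneg _) hlX'
    (hXe1.trans hX1X) hcut hfin

/-- the pointwise bound -/
lemma ptw (hRAM : S_RAM) (η X1 Cd : ℝ) (D R n : ℕ) (hη0 : 0 < η) (hη1 : η ≤ 1 / 200) (hX1 : 1 ≤ X1)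
    (hCd : 0 < Cd) (hdiv : (n.divisors.card : ℝ) ≤ Cd * (n : ℝ) ^ (η / 64))
    (g2 : 2 * Cd * (1 + Real.log X1) ^ 3 ≤ X1 ^ (7 * η / 64)) (hD1 : 1 ≤ D) (hDX : (D : ℝ) ≤ X1)
    (hn : 1 ≤ n) (hn2 : (n : ℝ) ≤ 2 * X1) : |F D R n| ≤ X1 ^ (η / 8) := by
  have P : Pw X1 := ⟨hX1⟩
  have h1 := hRAM.2.2.1 D R n hD1 hn
  have h3 : (n : ℝ) ^ (η / 64) ≤ 2 * X1 ^ (η / 64) :=
    P.nat_two (by positivity) hn2 (by positivity) (by linarith)
  have hDpos : (0 : ℝ) < D := by exact_mod_cast hD1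
  have h4 : Real.log D ≤ Real.log X1 := Real.log_le_log hDpos hDX
  have h5 : 0 ≤ Real.log D := Real.log_nonneg (by exact_mod_cast hD1)
  have h6 : (n.divisors.card : ℝ) ≤ Cd * (2 * X1 ^ (η / 64)) :=
    hdiv.trans (mul_le_mul_of_nonneg_left h3 hCd.le)
  have h7 : (1 + Real.log D) ^ 3 ≤ (1 + Real.log X1) ^ 3 :=
    pow_le_pow_left₀ (by linarith) (by linarith) 3
  calc |F D R n| ≤ (1 + Real.log D) ^ 3 * (n.divisors.card : ℝ) := h1
    _ ≤ (1 + Real.log X1) ^ 3 * (Cd * (2 * X1 ^ (η / 64))) :=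
        mul_le_mul h7 h6 (by positivity) (by have := Real.log_nonneg hX1; positivity)
    _ = (2 * Cd * (1 + Real.log X1) ^ 3) * X1 ^ (η / 64) := by ring
    _ ≤ X1 ^ (7 * η / 64) * X1 ^ (η / 64) := mul_le_mul_of_nonneg_right g2 (P.pos _).le
    _ = X1 ^ (η / 8) := by rw [P.add]; congr 1; ring

/-- the exponential sum -/
lemma expb (η X1 CS nr : ℝ) (K D R : ℕ) (S : ℝ) (hη0 : 0 < η) (hX1 : 1 ≤ X1)
    (hCS : 0 < CS) (g1 : CS * 48 * (1 + Real.log X1) ^ 4 ≤ X1 ^ (η / 2)) (hR : 1 ≤ R)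
    (hnr : nr ≤ 2 * X1) (hnr1 : 1 ≤ nr) (hK1 : 1 ≤ K) (hlog : Real.log nr ≤ 1 + Real.log X1)
    (hD : (D : ℝ) ≤ K * X1 ^ (-η)) (h2 : 2 * X1 ≤ 2 * K * X1 ^ (-η) * R)
    (h : S ≤ CS * (nr / R + D) * (1 + Real.log nr) ^ 4) : S ≤ K * X1 ^ (-(η / 2)) := by
  have P : Pw X1 := ⟨hX1⟩
  have hKpos : (0 : ℝ) < K := by exact_mod_cast hK1
  have hRpos : (0 : ℝ) < R := by exact_mod_cast hR
  have hlogX : 0 ≤ Real.log X1 := Real.log_nonneg hX1
  have hlogn : 0 ≤ Real.log nr := Real.log_nonneg hnr1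
  have h3 : nr / R ≤ 2 * K * X1 ^ (-η) := by
    rw [div_le_iff₀ hRpos]
    linarith
  have h4 : (1 + Real.log nr) ^ 4 ≤ 16 * (1 + Real.log X1) ^ 4 := by
    have : 1 + Real.log nr ≤ 2 * (1 + Real.log X1) := by linarith
    calc (1 + Real.log nr) ^ 4 ≤ (2 * (1 + Real.log X1)) ^ 4 := pow_le_pow_left₀ (by linarith) this 4
      _ = _ := by ring
  have h5 : nr / R + D ≤ 3 * K * X1 ^ (-η) := by linarith
  have hD0 : (0 : ℝ) ≤ D := Nat.cast_nonneg D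
  have h6 : CS * (nr / R + D) ≤ CS * (3 * K * X1 ^ (-η)) := mul_le_mul_of_nonneg_left h5 hCS.le
  have hp := P.pos (-η)
  calc S ≤ CS * (nr / R + D) * (1 + Real.log nr) ^ 4 := h
    _ ≤ CS * (3 * K * X1 ^ (-η)) * (16 * (1 + Real.log X1) ^ 4) :=
        mul_le_mul h6 h4 (by positivity) (by positivity)
    _ = (CS * 48 * (1 + Real.log X1) ^ 4) * (K * X1 ^ (-η)) := by ring
    _ ≤ X1 ^ (η / 2) * (K * X1 ^ (-η)) := mul_le_mul_of_nonneg_right g1 (by positivity)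
    _ = K * (X1 ^ (η / 2) * X1 ^ (-η)) := by ring
    _ = K * X1 ^ (-(η / 2)) := by rw [P.add]; congr 2; ring

theorem block (hRAM : S_RAM) (hSUP : S_SUP) (hNF : S_NF) (hVAR : S_VAR) (ε : ℝ) (hε : 0 < ε)
    (hε1 : ε ≤ 1) :
    ∃ κ X0 : ℝ, 0 < κ ∧ 1 ≤ X0 ∧ ∀ (X1 : ℝ) (K : ℕ), X0 ≤ X1 → 1 ≤ K → (K : ℝ) ≤ X1 →
      X1 ^ (1 / 2 + ε / 4) ≤ K → ∃ bad : Finset ℕ, (bad.card : ℝ) ≤ K * X1 ^ (-κ) ∧
        ∀ k ∈ Ioc K (2 * K), k ∉ bad → ∀ X : ℝ, X1 ≤ X → X ≤ 2 * X1 → (k : ℝ) ≤ X →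
          X * (2 * Real.log k - Real.log X - ε * Real.log X) ≤ GV X k := by
  obtain ⟨η, hη⟩ : ∃ η : ℝ, η = ε / 200 := ⟨_, rfl⟩
  have hη0 : 0 < η := by rw [hη]; positivity
  have hη1 : η ≤ 1 / 200 := by rw [hη]; linarith
  obtain ⟨CS, hCS, hsup⟩ := hSUP
  obtain ⟨CV, hCV, hvar⟩ := hVAR (η / 8) (by positivity)
  obtain ⟨N0, hnf⟩ := hNF (ε / 24) (η / 2) (by positivity) (by positivity)
  obtain ⟨Cd, hCd, hdiv⟩ := Pool.Agent.H510R2.divisor_bound (η / 64) (by positivity)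
  obtain ⟨CT, hCT, htot⟩ := H336V.TotLog.div_totient_le 1 one_pos
  obtain ⟨Y1, _, g1⟩ := large 4 (CS * 48) (η / 2) (by positivity)
  obtain ⟨Y2, _, g2⟩ := large 3 (2 * Cd) (7 * η / 64) (by positivity)
  obtain ⟨Y3, _, g3⟩ := large 0 (2 * Cd) (η / 64) (by positivity)
  obtain ⟨Y4, _, g4⟩ := large 1 (CT + 2) (η / 32) (by positivity)
  obtain ⟨Y5, _, g5⟩ := large 0 (64 * CV) (η / 8) (by positivity)
  obtain ⟨Y6, _, g6⟩ := large 0 (1000 / ε) (η / 8) (by positivity)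
  refine ⟨η / 8, max (max (max Y1 Y2) (max Y3 Y4)) (max (max Y5 Y6)
    (max (Real.exp (100 / ε)) (2 * (N0 + 1)))), by positivity, ?_, ?_⟩
  · refine le_trans ?_ ((le_max_left _ _).trans ((le_max_right _ _).trans (le_max_right _ _)))
    exact Real.one_le_exp (by positivity)
  intro X1 K hX0 hK1 hKX hKlow
  have hb1 : Y1 ≤ X1 := ((le_max_left _ _).trans ((le_max_left _ _).trans (le_max_left _ _))).trans hX0
  have hb2 : Y2 ≤ X1 := ((le_max_right _ _).trans ((le_max_left _ _).trans (le_max_left _ _))).trans hX0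
  have hb3 : Y3 ≤ X1 := ((le_max_left _ _).trans ((le_max_right _ _).trans (le_max_left _ _))).trans hX0
  have hb4 : Y4 ≤ X1 := ((le_max_right _ _).trans ((le_max_right _ _).trans (le_max_left _ _))).trans hX0
  have hb5 : Y5 ≤ X1 := ((le_max_left _ _).trans ((le_max_left _ _).trans (le_max_right _ _))).trans hX0
  have hb6 : Y6 ≤ X1 := ((le_max_right _ _).trans ((le_max_left _ _).trans (le_max_right _ _))).trans hX0
  have hb7 : Real.exp (100 / ε) ≤ X1 :=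
    ((le_max_left _ _).trans ((le_max_right _ _).trans (le_max_right _ _))).trans hX0
  have hb8 : (2 * (N0 + 1) : ℝ) ≤ X1 :=
    ((le_max_right _ _).trans ((le_max_right _ _).trans (le_max_right _ _))).trans hX0
  clear hX0
  replace g1 := g1 X1 hb1
  replace g2 := g2 X1 hb2
  replace g3 := g3 X1 hb3
  replace g4 := g4 X1 hb4
  replace g5 := g5 X1 hb5
  replace g6 := g6 X1 hb6
  clear hb1 hb2 hb3 hb4 hb5 hb6
  rw [pow_zero, mul_one] at g3 g5 g6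
  rw [pow_one] at g4
  have hX1pos : 0 < X1 := (Real.exp_pos _).trans_le hb7
  have hX1 : 1 ≤ X1 := (Real.one_le_exp (by positivity)).trans hb7
  have P : Pw X1 := ⟨hX1⟩
  have hLlow : 100 / ε ≤ Real.log X1 := by
    rw [Real.le_log_iff_exp_le hX1pos]
    exact hb7
  have hlogX0 : 0 ≤ Real.log X1 := Real.log_nonneg hX1
  have h1000 : (1000 : ℝ) ≤ X1 ^ (η / 8) := by
    refine le_trans ?_ g6
    rw [le_div_iff₀ hε]; nlinarith
  have h2log := Real.log_two_lt_d9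
  have hlog2 : ∀ z : ℝ, 0 < z → z ≤ 2 * X1 → Real.log z ≤ 1 + Real.log X1 := by
    intro z hz hz2
    calc Real.log z ≤ Real.log (2 * X1) := Real.log_le_log hz hz2
      _ = Real.log 2 + Real.log X1 := Real.log_mul (by norm_num) hX1pos.ne'
      _ ≤ 1 + Real.log X1 := by linarith
  have hKlow' : X1 ^ (1 / 2 + 50 * η) ≤ K := by
    have : 1 / 2 + 50 * η = 1 / 2 + ε / 4 := by rw [hη]; ring
    rw [this]
    exact hKlow
  obtain ⟨D, R, hR1, hRD, hDK, hDK2, hR2, hc, hcut⟩ := cuts η X1 K hη0 hη1 hX1 h1000 hK1 hKX hKlow'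
  have hN1le : ((⌊2 * X1⌋₊ : ℕ) : ℝ) ≤ 2 * X1 := Nat.floor_le (by positivity)
  have hN1one : 1 ≤ ⌊2 * X1⌋₊ := Nat.le_floor (by push_cast; linarith)
  have hDN1 : D ≤ ⌊2 * X1⌋₊ := Nat.le_floor (by linarith)
  have hfl : ∀ X : ℝ, X ≤ 2 * X1 → ⌊X⌋₊ ≤ ⌊2 * X1⌋₊ := fun X hX => Nat.floor_le_floor hX
  generalize (⌊2 * X1⌋₊ : ℕ) = N1 at hN1le hN1one hDN1 hfl
  have hN1pos : (0 : ℝ) < N1 := by exact_mod_cast hN1one
  have hN1one' : (1 : ℝ) ≤ N1 := by exact_mod_cast hN1one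
  have hlogN1 : Real.log N1 ≤ 1 + Real.log X1 := hlog2 _ hN1pos hN1le
  have hlogN1' : 0 ≤ Real.log N1 := Real.log_nonneg hN1one'
  have hD1 : 1 ≤ D := hR1.trans hRD
  have hfB : ∀ n, 1 ≤ n → n ≤ N1 → |F D R n| ≤ X1 ^ (η / 8) := by
    intro n hn hnN
    have hnr : (n : ℝ) ≤ N1 := by exact_mod_cast hnN
    exact ptw hRAM η X1 Cd D R n hη0 hη1 hX1 hCd (hdiv n hn) g2 hD1 (hDK.trans hKX) hn
      (hnr.trans hN1le)
  have hfM : ∀ M ≤ N1, ∀ α : ℝ, ‖∑ m ∈ Icc 1 M, (F D R m : ℂ) * e (m * α)‖ ≤ K * X1 ^ (-(η / 2)) := by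
    intro M hM α
    exact expb η X1 CS N1 K D R _ hη0 hX1 hCS g1 hR1 hN1le hN1one' hK1 hlogN1 hDK2 hR2
      (hsup D R N1 M hR1 hRD hDN1 hM α)
  have h1L : 1 + Real.log X1 ≤ X1 ^ (η / 32) := by
    refine le_trans ?_ g4
    nlinarith
  have hU : ∀ u : ℕ → ℝ, ∑ n ∈ Icc 1 N1, u n ^ 2 ≤ 2 * X1 * X1 ^ (η / 4) →
      ∀ N : ℕ → ℕ, (∀ k, N k ≤ N1) →
        ∑ k ∈ Ioc K (2 * K), off u (F D R) k (N k) ^ 2 ≤ K * X1 ^ (2 - η / 2) := by
    intro u hu N hN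
    refine (hvar N1 K u (F D R) (K * X1 ^ (-(η / 2))) hK1 hN1one (fun α => hfM N1 le_rfl α) N hN).trans ?_
    exact varb η X1 CV N1 _ _ K hη0 hη1 hX1 hCV g5 hK1 hN1pos.le hN1le rfl
      (sum_nonneg fun _ _ => sq_nonneg _) hu
  have hUL : ∑ n ∈ Icc 1 N1, (ArithmeticFunction.vonMangoldt n) ^ 2 ≤ 2 * X1 * X1 ^ (η / 4) := by
    refine (sum_L_sq N1 hN1one).trans ?_
    have h2 : Real.log N1 ^ 2 ≤ X1 ^ (η / 4) := by
      calc Real.log N1 ^ 2 ≤ (X1 ^ (η / 32)) ^ 2 :=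
            pow_le_pow_left₀ hlogN1' (hlogN1.trans h1L) 2
        _ = X1 ^ (η / 16) := by rw [sq, P.add]; congr 1; ring
        _ ≤ _ := P.le (by linarith)
    exact mul_le_mul hN1le h2 (sq_nonneg _) (by linarith)
  have hUf : ∑ n ∈ Icc 1 N1, F D R n ^ 2 ≤ 2 * X1 * X1 ^ (η / 4) := by
    calc ∑ n ∈ Icc 1 N1, F D R n ^ 2 ≤ ∑ n ∈ Icc 1 N1, (X1 ^ (η / 8)) ^ 2 := by
          apply sum_le_sum
          intro n hn
          have hn' := mem_Icc.1 hn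
          rw [← sq_abs (F D R n)]
          exact pow_le_pow_left₀ (abs_nonneg _) (hfB n hn'.1 hn'.2) 2
      _ = N1 * (X1 ^ (η / 8)) ^ 2 := by rw [sum_const, nsmul_eq_mul, Nat.card_Icc]; simp
      _ = N1 * X1 ^ (η / 4) := by rw [sq, P.add]; congr 2; ring
      _ ≤ 2 * X1 * X1 ^ (η / 4) := mul_le_mul_of_nonneg_right hN1le (P.pos _).le
  have hE0 : 0 < X1 ^ (1 - η / 8) := P.pos _
  obtain ⟨bad1, hbad1, hgood1⟩ := markov (fun n => ArithmeticFunction.vonMangoldt n) (F D R) N1 K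
    (X1 ^ (1 - η / 8)) _ hE0 (hU _ hUL)
  obtain ⟨bad2, hbad2, hgood2⟩ := markov (F D R) (F D R) N1 K (X1 ^ (1 - η / 8)) _ hE0 (hU _ hUf)
  have hKpos : (0 : ℝ) < K := by exact_mod_cast hK1
  have hcard : ∀ b : ℝ, b * (X1 ^ (1 - η / 8)) ^ 2 ≤ K * X1 ^ (2 - η / 2) → b ≤ K * X1 ^ (-(η / 4)) := by
    intro b hb
    have h1 : (X1 ^ (1 - η / 8)) ^ 2 = X1 ^ (2 - η / 4) := by rw [sq, P.add]; congr 1; ring
    rw [h1] at hb
    have h2 : K * X1 ^ (2 - η / 2) = K * X1 ^ (-(η / 4)) * X1 ^ (2 - η / 4) := by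
      rw [mul_assoc, P.add]
      congr 2; ring
    rw [h2] at hb
    exact le_of_mul_le_mul_right hb (P.pos _)
  classical
  refine ⟨bad1 ∪ bad2, ?_, ?_⟩
  · have q1 := hcard _ hbad1
    have q2 := hcard _ hbad2
    have q3 : ((bad1 ∪ bad2).card : ℝ) ≤ (bad1.card : ℝ) + bad2.card := by
      exact_mod_cast card_union_le _ _
    have q4 : 2 * X1 ^ (-(η / 4)) ≤ X1 ^ (-(η / 8)) := P.absorb (δ := η / 8) (by linarith) (by linarith)
    have q5 := mul_le_mul_of_nonneg_left q4 hKpos.le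
    linarith
  intro k hk hkb X hX1X hX2X hkX
  rw [mem_union, not_or] at hkb
  have hk' := mem_Ioc.1 hk
  have hk1 : 1 ≤ k := by omega
  have hkpos : (0 : ℝ) < k := by exact_mod_cast hk1
  have hk2X : (k : ℝ) ≤ 2 * X1 := hkX.trans hX2X
  have hcardk : (k.divisors.card : ℝ) ≤ X1 ^ (η / 32) := by
    refine (hdiv k hk1).trans ?_
    have h3 : (k : ℝ) ^ (η / 64) ≤ 2 * X1 ^ (η / 64) :=
      P.nat_two hkpos.le hk2X (by positivity) (by linarith)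
    have h4 : 2 * Cd * X1 ^ (η / 64) ≤ X1 ^ (η / 32) := P.absorb g3 (by linarith)
    have h5 := mul_le_mul_of_nonneg_left h3 hCd.le
    linarith
  have hφk : (k : ℝ) / Nat.totient k ≤ X1 ^ (η / 32) := by
    have hlk := hlog2 k hkpos hk2X
    refine (htot k hk1).trans (le_trans ?_ g4)
    nlinarith
  have hlX : Real.log X ≤ X1 ^ (η / 32) := (hlog2 X (by linarith) hX2X).trans h1L
  exact one_mod ε η X1 X (X1 ^ (η / 8)) (K * X1 ^ (-(η / 2))) (X1 ^ (1 - η / 8)) N0 D R K k hε hε1 hη hX1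
    h1000 g6 hLlow hb8 hK1 hKlow' hk'.1 hk'.2 hX1X hX2X hkX rfl rfl rfl hcardk hlX hφk hR1 hRD hcut hc hnf
    (fun n hn hnX => hfB n hn (hnX.trans (hfl X hX2X))) (hfM _ (hfl X hX2X))
    (hgood1 k hk hkb.1 _ (hfl X hX2X)) (hgood2 k hk hkb.2 _ (hfl X hX2X))

end Pool.Agent.P8H5.GV
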